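import Pool.Agent.H71.AVG.Def
import Pool.Agent.H83.OWN.Dic

/-!
# The entropies of `AvgA` from numbers of families

`AD.Hyp`: the hypotheses on one law (records `Rj`, `Rx` of two balls, natural digits `nj`, `nx` of the
families, deep digits `bj`, `bx`, near digits `V` of the base coordinates, digits `M` of the target
with small rows). `AD.Hyp.avg`: `AvgA`. `ad_clo`: closed gradients.
-/

set_option autoImplicit false

namespace Pool.AVG71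

open Finset Real
open Pool.Agent.H49.Ent Pool.Agent.H32.Dense Pool.STK Pool.K2S Pool.KAF Pool.M5 Pool.SLO Pool.BFL
open Pool.MIC Pool.TIE Pool.D2Hz Pool.OWN68
open Pool.KVA (MI)

/-! ### Entropy -/

section ent

variable {Ω 𝓡 𝓑 𝓝 𝓒 𝓨 𝓦 : Type} [Fintype Ω] {p : Ω → ℝ}

theorem MI_eq (h0 : ∀ ω, 0 ≤ p ω) (R : Ω → 𝓡) (Y : Ω → 𝓨) (W : Ω → 𝓦) :
    MI p R Y W = CH p R W - CH p R (fun ω => (Y ω, W ω)) := by
  have h1 := CH_chain2 h0 Y R W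
  have h2 : CH p (fun ω => (R ω, Y ω)) W = CH p (fun ω => (Y ω, R ω)) W :=
    CH_congr h0 (fun ω ω' _ _ h => by
      simp only [Prod.mk.injEq] at h ⊢
      tauto) (fun ω ω' _ _ h => by
      simp only [Prod.mk.injEq] at h ⊢
      tauto) (fun _ _ _ _ h => h) (fun _ _ _ _ h => h)
  unfold Pool.KVA.MI
  rw [h2]
  linarith

theorem MI_eq' (h0 : ∀ ω, 0 ≤ p ω) (R : Ω → 𝓡) (Y : Ω → 𝓨) (W : Ω → 𝓦) :
    MI p R Y W = CH p Y W - CH p Y (fun ω => (R ω, W ω)) := by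
  have h1 := CH_chain2 h0 R Y W
  unfold Pool.KVA.MI
  linarith

/-- **Deeper digits are independent of the record**, for a context `W` between the natural digits
`n` and the deep digits `b`. -/
theorem mi_near (h0 : ∀ ω, 0 ≤ p ω) {R : Ω → 𝓡} {b : Ω → 𝓑} {n : Ω → 𝓝} {c : Ω → 𝓒} {Y : Ω → 𝓨}
    {W : Ω → 𝓦} {e₀ e₁ e₂ : ℝ} (h : MI p R b (fun ω => (n ω, c ω)) ≤ e₀) (hn : CH p n W ≤ e₁)
    (hc : Det p W c) (hY : CH p (fun ω => (Y ω, W ω)) (fun ω => (b ω, (n ω, c ω))) ≤ e₂) :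
    MI p R Y W ≤ e₀ + e₁ + e₂ := by
  rw [MI_eq h0] at h ⊢
  have h1 := CH_le_add h0 R n W
  have h2 : CH p R (fun ω => (n ω, W ω)) ≤ CH p R (fun ω => (n ω, c ω)) :=
    CH_mono_cond h0 fun ω ω' a a' e =>
      Prod.ext (Prod.ext_iff.mp e).1 (hc ω ω' a a' (Prod.ext_iff.mp e).2)
  have h3 := CH_le_add h0 R (fun ω => (Y ω, W ω)) (fun ω => (b ω, (n ω, c ω)))
  have h4 : CH p R (fun ω => ((Y ω, W ω), (b ω, (n ω, c ω)))) ≤ CH p R (fun ω => (Y ω, W ω)) :=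
    CH_mono_cond h0 fun ω ω' _ _ e => (Prod.ext_iff.mp e).1
  linarith

/-- The mutual information of a variable which is few bits given another one. -/
theorem mi_few (h0 : ∀ ω, 0 ≤ p ω) {R : Ω → 𝓡} {B : Ω → 𝓑} {Y : Ω → 𝓨} {W : Ω → 𝓦} {e₀ e₁ : ℝ}
    (h : MI p R Y W ≤ e₀) (hB : CH p B (fun ω => (R ω, W ω)) ≤ e₁) : MI p B Y W ≤ e₀ + e₁ := by
  rw [MI_eq' h0] at h ⊢
  have h1 := CH_le_add h0 Y B (fun ω => (R ω, W ω))
  have h2 : CH p Y (fun ω => (B ω, (R ω, W ω))) ≤ CH p Y (fun ω => (B ω, W ω)) :=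
    CH_mono_cond h0 fun ω ω' _ _ e => by
      simp only [Prod.mk.injEq] at e ⊢
      tauto
  linarith

theorem mi_two (h0 : ∀ ω, 0 ≤ p ω) (R : Ω → 𝓡) (B : Ω → 𝓑) (Y : Ω → 𝓨) (W : Ω → 𝓦) :
    MI p (fun ω => (R ω, B ω)) Y W = MI p R Y W + MI p B Y (fun ω => (R ω, W ω)) := by
  rw [MI_eq h0, MI_eq h0, MI_eq h0, CH_chain2 h0 R B W,
    CH_chain2 h0 R B (fun ω => (Y ω, W ω))]
  have h1 : CH p B (fun ω => (R ω, (Y ω, W ω))) = CH p B (fun ω => (Y ω, (R ω, W ω))) :=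
    CH_congr h0 (fun _ _ _ _ h => (Prod.ext_iff.mp h).1) (fun _ _ _ _ h => (Prod.ext_iff.mp h).1)
      (fun ω ω' _ _ e => by
      simp only [Prod.mk.injEq] at e ⊢
      tauto) (fun ω ω' _ _ e => by
      simp only [Prod.mk.injEq] at e ⊢
      tauto)
  rw [h1]
  ring

/-- **Integers which are near for equal conditions** are few. -/
theorem CH_pair_int (hp : IsLaw p) (X : Ω → ℤ) (W : Ω → 𝓦) {D : ℝ} (hD : 0 ≤ D)
    (h : ∀ ω ω', 0 < p ω → 0 < p ω' → W ω = W ω' → |(X ω : ℝ) - X ω'| ≤ D) :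
    CH p X W ≤ Real.log (2 * D + 1) := by
  classical
  refine Pool.OWN83.CH_int hp X W (fun w => if hw : ∃ ω, 0 < p ω ∧ W ω = w then
    (X hw.choose : ℝ) else 0) hD fun ω hω => ?_
  have hw : ∃ ω', 0 < p ω' ∧ W ω' = W ω := ⟨ω, hω, rfl⟩
  simp only [dif_pos hw]
  exact h ω _ hω hw.choose_spec.1 hw.choose_spec.2.symm

/-- Blocks of near integers. -/
theorem div_near {x y : ℤ} {D : ℝ} (h : |(x : ℝ) - y| ≤ D) (n : ℕ) :
    |((x / 2 ^ n : ℤ) : ℝ) - ((y / 2 ^ n : ℤ) : ℝ)| ≤ D + 1 := by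
  have hn : (1 : ℝ) ≤ 2 ^ n := one_le_pow₀ (by norm_num)
  have hn0 : (0 : ℝ) < 2 ^ n := by positivity
  have e1 : ∀ x : ℤ, ((x / 2 ^ n : ℤ) : ℝ) ≤ x / 2 ^ n ∧ (x : ℝ) / 2 ^ n < ((x / 2 ^ n : ℤ) : ℝ) + 1 := by
    intro x
    have h1 := Int.mul_ediv_add_emod x (2 ^ n)
    have p1 : (0 : ℤ) < 2 ^ n := by positivity
    have h2 := Int.emod_nonneg x p1.ne'
    have h3 := Int.emod_lt_of_pos x p1
    have h1' : (2 : ℝ) ^ n * ((x / 2 ^ n : ℤ) : ℝ) + ((x % 2 ^ n : ℤ) : ℝ) = x := by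
      exact_mod_cast h1
    have h2' : (0 : ℝ) ≤ ((x % 2 ^ n : ℤ) : ℝ) := by exact_mod_cast h2
    have h3' : ((x % 2 ^ n : ℤ) : ℝ) < 2 ^ n := by exact_mod_cast h3
    constructor
    · rw [le_div_iff₀ hn0]
      linarith
    · rw [div_lt_iff₀ hn0]
      linarith
  have hD : 0 ≤ D := (abs_nonneg _).trans h
  have e2 : |(x : ℝ) / 2 ^ n - y / 2 ^ n| ≤ D := by
    rw [← sub_div, abs_div, abs_of_pos hn0, div_le_iff₀ hn0]
    nlinarith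
  obtain ⟨a1, a2⟩ := e1 x
  obtain ⟨b1, b2⟩ := e1 y
  obtain ⟨c1, c2⟩ := abs_le.mp e2
  rw [abs_le]
  constructor <;> linarith

/-- **Rows of near integers**: `N - M` is near a function of the condition. -/
theorem row_near (hp : IsLaw p) (N M : Ω → ℤ) (W : Ω → 𝓦) {D U : ℝ} (hD : 0 ≤ D)
    (h : ∀ ω ω', 0 < p ω → 0 < p ω' → W ω = W ω' →
      |((N ω : ℝ) - M ω) - ((N ω' : ℝ) - M ω')| ≤ D) (u v : ℕ)
    (hU : CH p (fun ω => M ω / 2 ^ u) (fun ω => (M ω / 2 ^ v, W ω)) ≤ U) :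
    CH p (fun ω => N ω / 2 ^ u) (fun ω => (N ω / 2 ^ v, W ω)) ≤ U + 2 * Real.log (2 * (D + 3) + 1) := by
  classical
  have h0 := hp.nonneg
  -- the shift
  obtain ⟨s, hs⟩ : ∃ s : 𝓦 → ℤ, ∀ ω, 0 < p ω → |(N ω : ℝ) - ((M ω + s (W ω) : ℤ) : ℝ)| ≤ D := by
    refine ⟨fun w => if hw : ∃ ω, 0 < p ω ∧ W ω = w then N hw.choose - M hw.choose else 0,
      fun ω hω => ?_⟩
    have hw : ∃ ω', 0 < p ω' ∧ W ω' = W ω := ⟨ω, hω, rfl⟩
    simp only [dif_pos hw]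
    have h1 := h ω _ hω hw.choose_spec.1 hw.choose_spec.2.symm
    push_cast
    refine le_trans (le_of_eq ?_) h1
    congr 1
    ring
  -- blocks of the shifted number
  have hb : ∀ (n : ℕ) (x s : ℤ), |(((x + s) / 2 ^ n : ℤ) : ℝ) - ((x / 2 ^ n + s / 2 ^ n : ℤ) : ℝ)| ≤ 1 := by
    intro n x s
    have p1 : (0 : ℤ) < 2 ^ n := by positivity
    have h1 := Int.mul_ediv_add_emod x (2 ^ n)
    have h2 := Int.mul_ediv_add_emod s (2 ^ n)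
    have h3 := Int.emod_nonneg x p1.ne'
    have h4 := Int.emod_lt_of_pos x p1
    have h5 := Int.emod_nonneg s p1.ne'
    have h6 := Int.emod_lt_of_pos s p1
    have h7 : (x + s) / 2 ^ n = x / 2 ^ n + s / 2 ^ n + (x % 2 ^ n + s % 2 ^ n) / 2 ^ n := by
      have e1 : x + s = (x % 2 ^ n + s % 2 ^ n) + 2 ^ n * (x / 2 ^ n + s / 2 ^ n) := by
        linarith
      calc (x + s) / 2 ^ n = ((x % 2 ^ n + s % 2 ^ n) + 2 ^ n * (x / 2 ^ n + s / 2 ^ n)) / 2 ^ n := by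
            rw [← e1]
        _ = (x % 2 ^ n + s % 2 ^ n) / 2 ^ n + (x / 2 ^ n + s / 2 ^ n) :=
            Int.add_mul_ediv_left _ _ p1.ne'
        _ = _ := by ring
    have h8 : 0 ≤ (x % 2 ^ n + s % 2 ^ n) / 2 ^ n := Int.ediv_nonneg (by linarith) p1.le
    have h9 : (x % 2 ^ n + s % 2 ^ n) / 2 ^ n < 2 := Int.ediv_lt_of_lt_mul p1 (by linarith)
    have h10 : (0 : ℝ) ≤ (((x % 2 ^ n + s % 2 ^ n) / 2 ^ n : ℤ) : ℝ) := by exact_mod_cast h8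
    have h11 : (((x % 2 ^ n + s % 2 ^ n) / 2 ^ n : ℤ) : ℝ) ≤ 1 := by
      have : (x % 2 ^ n + s % 2 ^ n) / 2 ^ n ≤ 1 := by linarith
      exact_mod_cast this
    rw [h7]
    push_cast at h10 h11 ⊢
    rw [abs_le]
    constructor <;> linarith
  have hn : ∀ (n : ℕ) ω, 0 < p ω →
      |((N ω / 2 ^ n : ℤ) : ℝ) - ((M ω / 2 ^ n + s (W ω) / 2 ^ n : ℤ) : ℝ)| ≤ D + 2 := by
    intro n ω hω
    have h1 := div_near (hs ω hω) n
    have h2 := hb n (M ω) (s (W ω))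
    have h3 := abs_le.mp h1
    have h4 := abs_le.mp h2
    rw [abs_le]
    constructor <;> linarith [h3.1, h3.2, h4.1, h4.2]
  have c1 : CH p (fun ω => N ω / 2 ^ u) (fun ω => (M ω / 2 ^ u, W ω)) ≤
      Real.log (2 * (D + 3) + 1) := by
    refine (Pool.OWN83.CH_int hp _ _ (fun q => ((q.1 + s q.2 / 2 ^ u : ℤ) : ℝ)) (D := D + 2)
      (by linarith) fun ω hω => hn u ω hω).trans (Real.log_le_log (by linarith) (by linarith))
  have c2 : CH p (fun ω => M ω / 2 ^ v) (fun ω => (N ω / 2 ^ v, W ω)) ≤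
      Real.log (2 * (D + 3) + 1) := by
    refine (Pool.OWN83.CH_int hp _ _ (fun q => ((q.1 - s q.2 / 2 ^ v : ℤ) : ℝ)) (D := D + 2)
      (by linarith) fun ω hω => ?_).trans (Real.log_le_log (by linarith) (by linarith))
    have h1 := hn v ω hω
    rw [abs_sub_comm] at h1
    refine le_trans (le_of_eq ?_) h1
    congr 1
    push_cast
    ring
  have h1 := CH_le_add h0 (fun ω => N ω / 2 ^ u) (fun ω => M ω / 2 ^ v)
    (fun ω => (N ω / 2 ^ v, W ω))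
  have h2 := CH_le_add h0 (fun ω => N ω / 2 ^ u) (fun ω => M ω / 2 ^ u)
    (fun ω => (M ω / 2 ^ v, (N ω / 2 ^ v, W ω)))
  have h3 : CH p (fun ω => M ω / 2 ^ u) (fun ω => (M ω / 2 ^ v, (N ω / 2 ^ v, W ω))) ≤
      CH p (fun ω => M ω / 2 ^ u) (fun ω => (M ω / 2 ^ v, W ω)) :=
    CH_mono_cond h0 fun ω ω' _ _ e => by
      simp only [Prod.mk.injEq] at e ⊢
      tauto
  have h4 : CH p (fun ω => N ω / 2 ^ u) (fun ω => (M ω / 2 ^ u, (M ω / 2 ^ v, (N ω / 2 ^ v, W ω)))) ≤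
      CH p (fun ω => N ω / 2 ^ u) (fun ω => (M ω / 2 ^ u, W ω)) :=
    CH_mono_cond h0 fun ω ω' _ _ e => by
      simp only [Prod.mk.injEq] at e ⊢
      tauto
  linarith

end ent

/-! ### The law -/

namespace AD

variable {Ω β : Type} {k : ℕ} (d : AD Ω β k) (K : ℕ)

/-- Base data with the part of the context which the record of the small ball sees. -/
noncomputable def v (ω : Ω) : β × ((Fin k → Fin K → ℤ) × (Fin k → ℤ)) :=
  (d.z ω, (fun j a => d.ac K ω j a.succ, fun j => d.ac K ω j 0 / 2 ^ (d.X + d.m)))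

/-- The context without the position of the target. -/
noncomputable def w (ω : Ω) : β × (Vam k K × (Fin K → ℤ)) :=
  (d.z ω, (d.va K ω, fun a => d.nc K ω a.succ / 2 ^ d.X))

/-- The line without the position of the target. -/
noncomputable def l (ω : Ω) : (Fin k → Fin (K + 1) → ℤ) × (Fin K → ℤ) :=
  (d.ac K ω, fun a => d.nc K ω a.succ)

/-- **The hypotheses** on one law. -/
structure Hyp [Fintype Ω] {ρ₁ ρ₂ ν₁ ν₂ σ₁ σ₂ υ : Type} (p : Ω → ℝ) (Rj : Ω → ρ₁) (Rx : Ω → ρ₂)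
    (nj : Ω → ν₁) (nx : Ω → ν₂) (bj : Ω → σ₁) (bx : Ω → σ₂) (V : Ω → υ) (M : Ω → ℤ)
    (F e B U π₀ : ℝ) (h : ℕ) : Prop where
  law : IsLaw p
  th : ∀ ω, 0 < p ω → 0 ≤ d.th ω ∧ d.th ω < 1
  dP : ∀ ω, 0 < p ω → (d.P ω).natDegree ≤ K
  dA : ∀ ω, 0 < p ω → ∀ j, (d.A ω j).natDegree ≤ K
  bm : ∀ ω, 0 < p ω → ∀ j, |d.bb ω j| ≤ 2 ^ d.m
  ti : MI p d.th (d.L K) (d.g K) ≤ e
  mj : MI p Rj bj (fun ω => (nj ω, (d.th ω, d.z ω))) ≤ e
  fj : CH p nj (fun ω => (d.th ω, d.g K ω)) ≤ e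
  Lj : CH p (d.L K) (fun ω => (bj ω, (nj ω, (d.th ω, d.z ω)))) ≤ e
  bbj : CH p d.bb (fun ω => (Rj ω, (d.th ω, d.g K ω))) ≤ e
  mx : MI p Rx bx (fun ω => (nx ω, (d.th ω, d.z ω))) ≤ e
  fx : CH p nx (fun ω => (d.th ω, d.w K ω)) ≤ e
  Lx : CH p (d.l K) (fun ω => (bx ω, (nx ω, (d.th ω, d.z ω)))) ≤ e
  bbx : CH p d.bb (fun ω => (Rx ω, (d.th ω, d.w K ω))) ≤ e
  jt : CH p (fun ω (a : Fin (K + 1)) => d.nc K ω a / 2 ^ d.X)
    (fun ω => (Rx ω, (d.th ω, d.v K ω))) ≤ e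
  Nx : CH p (d.N K) (fun ω => (Rx ω, (d.T ω, d.g K ω))) ≤ e
  vf : F - e ≤ CH p V (fun ω => (Rx ω, (d.th ω, d.v K ω)))
  vb : ∀ q : Ω → ℝ, IsLaw q → (∀ ω, 0 < q ω → 0 < p ω) →
    CH q V (fun ω => (d.T ω, d.g K ω)) ≤ F
  vy : CH p V (fun ω => (d.Y K ω, (d.th ω, d.g K ω))) ≤ F - k * d.X * Real.log 2 + e
  B0 : 0 ≤ B
  qv : ∀ ω ω', 0 < p ω → 0 < p ω' → V ω = V ω' → d.T ω = d.T ω' → d.g K ω = d.g K ω' →
    |(d.Q ω - M ω) - (d.Q ω' - M ω')| ≤ B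
  row : ∀ j : ℕ, (j + 1) * h ≤ d.X → ∀ E : Set Ω, π₀ ≤ Pr p E →
    CH (rs p E) (fun ω => M ω / 2 ^ (d.X - (j + 1) * h))
      (fun ω => (M ω / 2 ^ (d.X - j * h), (V ω, (d.T ω, d.g K ω)))) ≤ U

end AD

end Pool.AVG71
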