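import Pool.Agent.H71.AVG.Law

/-!
# `AvgA` from the hypotheses on one law
-/

set_option autoImplicit false

namespace Pool.AVG71

open Finset Real
open Pool.Agent.H49.Ent Pool.Agent.H32.Dense Pool.STK Pool.K2S Pool.KAF Pool.M5 Pool.SLO Pool.BFL
open Pool.MIC Pool.TIE Pool.D2Hz Pool.OWN68
open Pool.KVA (MI)

namespace AD

variable {Ω β : Type} {k : ℕ} {d : AD Ω β k} {K : ℕ}

/-- The value of a polynomial of bounded degree. -/
theorem eval_fin {P : Polynomial ℝ} (h : P.natDegree ≤ K) (t : ℝ) :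
    P.eval t = ∑ a : Fin (K + 1), P.coeff a * t ^ (a : ℕ) := by
  rw [Polynomial.eval_eq_sum_range' (Nat.lt_succ_of_le h), Finset.sum_range]

/-- The part of the height which the time and the context know. -/
noncomputable def kn (d : AD Ω β k) (K : ℕ) (ω : Ω) : ℝ :=
  ∑ a : Fin (K + 1), 2 ^ d.X * ((d.nc K ω a / 2 ^ d.X : ℤ) : ℝ) * d.th ω ^ (a : ℕ) -
  ∑ j, d.bb ω j * (2 ^ d.X * ((d.ac K ω j 0 / 2 ^ (d.X + d.m) : ℤ) : ℝ) +
    ((d.ac K ω j 0 % 2 ^ d.m : ℤ) : ℝ) / 2 ^ d.m +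
    ∑ a : Fin K, (d.ac K ω j a.succ : ℝ) / 2 ^ d.m * d.th ω ^ (a.val + 1))

theorem kn_of {ω ω' : Ω} (hT : d.T ω = d.T ω') (hg : d.g K ω = d.g K ω') :
    kn d K ω = kn d K ω' := by
  have t1 : d.th ω = d.th ω' := (Prod.ext_iff.mp hT).1
  have t2 : d.bb ω = d.bb ω' := (Prod.ext_iff.mp hT).2
  obtain ⟨_, g2⟩ := Prod.ext_iff.mp hg
  obtain ⟨g3, g4⟩ := Prod.ext_iff.mp g2
  obtain ⟨g5, g6⟩ := Prod.ext_iff.mp g3
  obtain ⟨g7, g8⟩ := Prod.ext_iff.mp g6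
  have e1 : ∀ a, d.nc K ω a / 2 ^ d.X = d.nc K ω' a / 2 ^ d.X := fun a => congrFun g4 a
  have e2 : ∀ j (a : Fin K), d.ac K ω j a.succ = d.ac K ω' j a.succ := fun j a =>
    congrFun (congrFun g5 j) a
  have e3 : ∀ j, d.ac K ω j 0 / 2 ^ (d.X + d.m) = d.ac K ω' j 0 / 2 ^ (d.X + d.m) := fun j =>
    congrFun g7 j
  have e4 : ∀ j, d.ac K ω j 0 % 2 ^ d.m = d.ac K ω' j 0 % 2 ^ d.m := fun j => congrFun g8 j
  unfold kn
  simp only [t1, t2, e1, e2, e3, e4]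

/-- The own height is the number plus a part known from time and context. -/
theorem Q_val {ω : Ω} (hth : 0 ≤ d.th ω ∧ d.th ω < 1) (hP : (d.P ω).natDegree ≤ K)
    (hA : ∀ j, (d.A ω j).natDegree ≤ K) (hb : ∀ j, |d.bb ω j| ≤ 2 ^ d.m) :
    |d.Q ω - d.val K ω - kn d K ω| ≤ (K + 1) * (k + 1) := by
  have hX : (0 : ℝ) < 2 ^ d.X := by positivity
  have hm : (0 : ℝ) < 2 ^ d.m := by positivity
  obtain ⟨f, hf⟩ : ∃ f : Fin (K + 1) → ℝ, ∀ a : Fin (K + 1),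
      2 ^ d.X * (d.P ω).coeff (a : ℕ) = d.nc K ω a + f a ∧ 0 ≤ f a ∧ f a ≤ 1 := by
    refine ⟨fun a => 2 ^ d.X * (d.P ω).coeff (a : ℕ) - d.nc K ω a, fun a => ⟨?_, ?_, ?_⟩⟩
    · ring
    · have h := Int.floor_le ((2 : ℝ) ^ d.X * (d.P ω).coeff (a : ℕ))
      have h' : (d.nc K ω a : ℝ) = ⌊(2 : ℝ) ^ d.X * (d.P ω).coeff (a : ℕ)⌋ := rfl
      show 0 ≤ 2 ^ d.X * (d.P ω).coeff (a : ℕ) - d.nc K ω a
      rw [h']
      linarith
    · have h := Int.lt_floor_add_one ((2 : ℝ) ^ d.X * (d.P ω).coeff (a : ℕ))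
      have h' : (d.nc K ω a : ℝ) = ⌊(2 : ℝ) ^ d.X * (d.P ω).coeff (a : ℕ)⌋ := rfl
      show 2 ^ d.X * (d.P ω).coeff (a : ℕ) - d.nc K ω a ≤ 1
      rw [h']
      linarith
  obtain ⟨e, he⟩ : ∃ e : Fin k → Fin (K + 1) → ℝ, ∀ j (a : Fin (K + 1)),
      2 ^ d.X * (d.A ω j).coeff (a : ℕ) = (d.ac K ω j a + e j a) / 2 ^ d.m ∧
      0 ≤ e j a ∧ e j a ≤ 1 := by
    refine ⟨fun j a => 2 ^ (d.X + d.m) * (d.A ω j).coeff (a : ℕ) - d.ac K ω j a, fun j a =>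
      ⟨?_, ?_, ?_⟩⟩
    · show 2 ^ d.X * (d.A ω j).coeff (a : ℕ) = (d.ac K ω j a +
        (2 ^ (d.X + d.m) * (d.A ω j).coeff (a : ℕ) - d.ac K ω j a)) / 2 ^ d.m
      rw [add_sub_cancel, pow_add]
      field_simp
    · have h := Int.floor_le ((2 : ℝ) ^ (d.X + d.m) * (d.A ω j).coeff (a : ℕ))
      have h' : (d.ac K ω j a : ℝ) = ⌊(2 : ℝ) ^ (d.X + d.m) * (d.A ω j).coeff (a : ℕ)⌋ := rfl
      show 0 ≤ 2 ^ (d.X + d.m) * (d.A ω j).coeff (a : ℕ) - d.ac K ω j a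
      rw [h']
      linarith
    · have h := Int.lt_floor_add_one ((2 : ℝ) ^ (d.X + d.m) * (d.A ω j).coeff (a : ℕ))
      have h' : (d.ac K ω j a : ℝ) = ⌊(2 : ℝ) ^ (d.X + d.m) * (d.A ω j).coeff (a : ℕ)⌋ := rfl
      show 2 ^ (d.X + d.m) * (d.A ω j).coeff (a : ℕ) - d.ac K ω j a ≤ 1
      rw [h']
      linarith
  -- the target
  have h1 : 2 ^ d.X * (d.P ω).eval (d.th ω) =
      ∑ a : Fin (K + 1), (d.nr K ω a : ℝ) * d.th ω ^ (a : ℕ) +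
      ∑ a : Fin (K + 1), 2 ^ d.X * ((d.nc K ω a / 2 ^ d.X : ℤ) : ℝ) * d.th ω ^ (a : ℕ) +
      ∑ a : Fin (K + 1), f a * d.th ω ^ (a : ℕ) := by
    rw [eval_fin hP, Finset.mul_sum, ← Finset.sum_add_distrib, ← Finset.sum_add_distrib]
    refine Finset.sum_congr rfl fun a _ => ?_
    have e1 := nc_eq (d := d) (K := K) ω a
    have e2 : (d.nc K ω a : ℝ) = ((d.nc K ω a / 2 ^ d.X : ℤ) : ℝ) * 2 ^ d.X + d.nr K ω a := by
      exact_mod_cast e1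
    rw [← mul_assoc, (hf a).1, ← add_mul, ← add_mul]
    congr 1
    linarith
  -- one coordinate
  have h2 : ∀ j, 2 ^ d.X * (d.A ω j).eval (d.th ω) = d.Y K ω j +
      (2 ^ d.X * ((d.ac K ω j 0 / 2 ^ (d.X + d.m) : ℤ) : ℝ) +
        ((d.ac K ω j 0 % 2 ^ d.m : ℤ) : ℝ) / 2 ^ d.m +
        ∑ a : Fin K, (d.ac K ω j a.succ : ℝ) / 2 ^ d.m * d.th ω ^ (a.val + 1)) +
      (∑ a : Fin (K + 1), e j a * d.th ω ^ (a : ℕ)) / 2 ^ d.m := by
    intro j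
    have e1 := ac_eq (d := d) (K := K) ω j
    have e2 : (d.ac K ω j 0 : ℝ) = ((d.ac K ω j 0 / 2 ^ (d.X + d.m) : ℤ) : ℝ) *
        2 ^ (d.X + d.m) + (d.Y K ω j * 2 ^ d.m + ((d.ac K ω j 0 % 2 ^ d.m : ℤ) : ℝ)) := by
      exact_mod_cast e1
    have e3 : 2 ^ d.X * (d.A ω j).eval (d.th ω) =
        ∑ a : Fin (K + 1), (d.ac K ω j a : ℝ) / 2 ^ d.m * d.th ω ^ (a : ℕ) +
        (∑ a : Fin (K + 1), e j a * d.th ω ^ (a : ℕ)) / 2 ^ d.m := by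
      rw [eval_fin (hA j), Finset.mul_sum, Finset.sum_div, ← Finset.sum_add_distrib]
      refine Finset.sum_congr rfl fun a _ => ?_
      rw [← mul_assoc, (he j a).1]
      ring
    rw [e3, Fin.sum_univ_succ]
    simp only [Fin.val_zero, pow_zero, mul_one, Fin.val_succ]
    rw [e2, pow_add]
    field_simp
    ring
  -- the rest
  have h3 : d.Q ω - d.val K ω - kn d K ω = ∑ a : Fin (K + 1), f a * d.th ω ^ (a : ℕ) -
      ∑ j, d.bb ω j * ((∑ a : Fin (K + 1), e j a * d.th ω ^ (a : ℕ)) / 2 ^ d.m) := by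
    unfold Q val kn
    rw [mul_sub, h1, Finset.mul_sum]
    have e1 : ∑ j, 2 ^ d.X * (d.bb ω j * (d.A ω j).eval (d.th ω)) =
        ∑ j, d.bb ω j * (d.Y K ω j : ℝ) + ∑ j, d.bb ω j *
        (2 ^ d.X * ((d.ac K ω j 0 / 2 ^ (d.X + d.m) : ℤ) : ℝ) +
        ((d.ac K ω j 0 % 2 ^ d.m : ℤ) : ℝ) / 2 ^ d.m +
        ∑ a : Fin K, (d.ac K ω j a.succ : ℝ) / 2 ^ d.m * d.th ω ^ (a.val + 1)) +
        ∑ j, d.bb ω j * ((∑ a : Fin (K + 1), e j a * d.th ω ^ (a : ℕ)) / 2 ^ d.m) := by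
      rw [← Finset.sum_add_distrib, ← Finset.sum_add_distrib]
      refine Finset.sum_congr rfl fun j _ => ?_
      rw [mul_left_comm, h2 j]
      ring
    rw [e1]
    ring
  have hpow : ∀ a : ℕ, 0 ≤ d.th ω ^ a ∧ d.th ω ^ a ≤ 1 := fun a =>
    ⟨pow_nonneg hth.1 _, pow_le_one₀ hth.1 hth.2.le⟩
  have h4 : |∑ a : Fin (K + 1), f a * d.th ω ^ (a : ℕ)| ≤ K + 1 := by
    refine (Finset.abs_sum_le_sum_abs _ _).trans ?_
    have h5 : ∀ a ∈ (univ : Finset (Fin (K + 1))), |f a * d.th ω ^ (a : ℕ)| ≤ 1 := by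
      intro a _
      rw [abs_mul, abs_of_nonneg (hf a).2.1, abs_of_nonneg (hpow a).1]
      exact mul_le_one₀ (hf a).2.2 (hpow a).1 (hpow a).2
    refine (Finset.sum_le_sum h5).trans (le_of_eq ?_)
    rw [Finset.sum_const, Finset.card_univ, Fintype.card_fin, nsmul_eq_mul, mul_one]
    push_cast
    ring
  have h5 : ∀ j, |∑ a : Fin (K + 1), e j a * d.th ω ^ (a : ℕ)| ≤ K + 1 := by
    intro j
    refine (Finset.abs_sum_le_sum_abs _ _).trans ?_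
    have h5 : ∀ a ∈ (univ : Finset (Fin (K + 1))), |e j a * d.th ω ^ (a : ℕ)| ≤ 1 := by
      intro a _
      rw [abs_mul, abs_of_nonneg (he j a).2.1, abs_of_nonneg (hpow a).1]
      exact mul_le_one₀ (he j a).2.2 (hpow a).1 (hpow a).2
    refine (Finset.sum_le_sum h5).trans (le_of_eq ?_)
    rw [Finset.sum_const, Finset.card_univ, Fintype.card_fin, nsmul_eq_mul, mul_one]
    push_cast
    ring
  have h6 : |∑ j, d.bb ω j * ((∑ a : Fin (K + 1), e j a * d.th ω ^ (a : ℕ)) / 2 ^ d.m)| ≤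
      k * (K + 1) := by
    refine (Finset.abs_sum_le_sum_abs _ _).trans ?_
    have h7 : ∀ j ∈ (univ : Finset (Fin k)), |d.bb ω j *
        ((∑ a : Fin (K + 1), e j a * d.th ω ^ (a : ℕ)) / 2 ^ d.m)| ≤ K + 1 := by
      intro j _
      rw [abs_mul, abs_div, abs_of_pos hm, mul_div_assoc', div_le_iff₀ hm, mul_comm]
      exact mul_le_mul (h5 j) (hb j) (abs_nonneg _) (by positivity)
    refine (Finset.sum_le_sum h7).trans (le_of_eq ?_)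
    rw [Finset.sum_const, Finset.card_univ, Fintype.card_fin, nsmul_eq_mul]
  rw [h3]
  have h7 := abs_le.mp h4
  have h8 := abs_le.mp h6
  rw [abs_le]
  constructor <;> nlinarith [h7.1, h7.2, h8.1, h8.2]

/-- **Entry for the field `Nx`**: the own heights of equal `W` are near; `W` contains time and
context. -/
theorem N_few [Fintype Ω] {p : Ω → ℝ} (hp : IsLaw p) (hth : ∀ ω, 0 < p ω → 0 ≤ d.th ω ∧ d.th ω < 1)
    (hP : ∀ ω, 0 < p ω → (d.P ω).natDegree ≤ K) (hA : ∀ ω, 0 < p ω → ∀ j, (d.A ω j).natDegree ≤ K)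
    (hb : ∀ ω, 0 < p ω → ∀ j, |d.bb ω j| ≤ 2 ^ d.m) {𝓦 : Type} (W : Ω → 𝓦)
    (hW : Det p W (fun ω => (d.T ω, d.g K ω))) {B : ℝ} (hB : 0 ≤ B)
    (h : ∀ ω ω', 0 < p ω → 0 < p ω' → W ω = W ω' → |d.Q ω - d.Q ω'| ≤ B) :
    CH p (d.N K) W ≤ Real.log (2 * (B + 2 * ((K + 1) * (k + 1)) + 1) + 1) := by
  refine CH_pair_int hp (d.N K) W (by positivity) fun ω ω' hω hω' hw => ?_
  obtain ⟨w3, w4⟩ := Prod.ext_iff.mp (hW ω ω' hω hω' hw)
  have q1 := abs_le.mp (h ω ω' hω hω' hw)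
  have q2 := abs_le.mp (Q_val (hth ω hω) (hP ω hω) (hA ω hω) (hb ω hω))
  have q3 := abs_le.mp (Q_val (hth ω' hω') (hP ω' hω') (hA ω' hω') (hb ω' hω'))
  rw [kn_of w3 w4] at q2
  have f1 := Int.floor_le (d.val K ω)
  have f2 := Int.lt_floor_add_one (d.val K ω)
  have f3 := Int.floor_le (d.val K ω')
  have f4 := Int.lt_floor_add_one (d.val K ω')
  have hN : (d.N K ω : ℝ) = ⌊d.val K ω⌋ := rfl
  have hN' : (d.N K ω' : ℝ) = ⌊d.val K ω'⌋ := rfl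
  rw [hN, hN', abs_le]
  constructor <;> linarith [q1.1, q1.2, q2.1, q2.2, q3.1, q3.2]

/-! ### Context, line and time -/

theorem det_wv (p : Ω → ℝ) : Det p (d.w K) (d.v K) := by
  intro ω ω' _ _ e
  obtain ⟨e1, e2⟩ := Prod.ext_iff.mp e
  obtain ⟨e3, _⟩ := Prod.ext_iff.mp e2
  obtain ⟨e5, e6⟩ := Prod.ext_iff.mp e3
  obtain ⟨e7, _⟩ := Prod.ext_iff.mp e6
  exact Prod.ext e1 (Prod.ext e5 e7)

theorem det_gw (p : Ω → ℝ) : Det p (d.g K) (d.w K) := by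
  intro ω ω' _ _ e
  obtain ⟨e1, e2⟩ := Prod.ext_iff.mp e
  obtain ⟨e3, e4⟩ := Prod.ext_iff.mp e2
  refine Prod.ext e1 (Prod.ext e3 ?_)
  funext a
  exact congrFun e4 a.succ

/-- Context from base data, digits of the base coordinates and upper digits of the target. -/
theorem det_g (p : Ω → ℝ) : Det p (fun ω => (d.w K ω, fun a : Fin (K + 1) => d.nc K ω a / 2 ^ d.X))
    (d.g K) := by
  intro ω ω' _ _ e
  obtain ⟨e1, e2⟩ := Prod.ext_iff.mp e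
  obtain ⟨e3, e4⟩ := Prod.ext_iff.mp e1
  obtain ⟨e5, _⟩ := Prod.ext_iff.mp e4
  exact Prod.ext e3 (Prod.ext e5 e2)

theorem det_g' (p : Ω → ℝ) : Det p (fun ω => (d.v K ω, ((fun j => d.ac K ω j 0 % 2 ^ d.m),
    fun a : Fin (K + 1) => d.nc K ω a / 2 ^ d.X))) (d.g K) := by
  intro ω ω' _ _ e
  obtain ⟨e1, e2⟩ := Prod.ext_iff.mp e
  obtain ⟨e3, e4⟩ := Prod.ext_iff.mp e2
  obtain ⟨e5, e6⟩ := Prod.ext_iff.mp e1
  obtain ⟨e7, e8⟩ := Prod.ext_iff.mp e6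
  exact Prod.ext e5 (Prod.ext (Prod.ext e7 (Prod.ext e8 e3)) e4)

/-- The line without the position of the target determines the numbers. -/
theorem det_l (p : Ω → ℝ) : Det p (fun ω => (d.z ω, d.l K ω))
    (fun ω => ((d.Y K ω, d.C K ω), d.w K ω)) := by
  intro ω ω' _ _ e
  obtain ⟨e1, e2⟩ := Prod.ext_iff.mp e
  obtain ⟨e3, e4⟩ := Prod.ext_iff.mp e2
  have e1' : d.z ω = d.z ω' := e1
  have e3' : d.ac K ω = d.ac K ω' := e3
  have e5 : ∀ a : Fin K, d.nc K ω a.succ = d.nc K ω' a.succ := fun a => congrFun e4 a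
  refine Prod.ext (Prod.ext ?_ ?_) ?_
  · funext j
    show d.Y K ω j = d.Y K ω' j
    unfold Y
    rw [e3']
  · funext a
    show d.C K ω a = d.C K ω' a
    unfold C nr
    rw [e5]
  · show d.w K ω = d.w K ω'
    unfold w va
    simp only [e1', e3', e5]

section law

variable [Fintype Ω] {ρ₁ ρ₂ ν₁ ν₂ σ₁ σ₂ υ : Type} {p : Ω → ℝ} {Rj : Ω → ρ₁} {Rx : Ω → ρ₂}
  {nj : Ω → ν₁} {nx : Ω → ν₂} {bj : Ω → σ₁} {bx : Ω → σ₂} {V : Ω → υ} {M : Ω → ℤ}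
  {F e B U π₀ : ℝ} {h : ℕ}

/-- **The field `h1`.** -/
theorem Hyp.h1 (H : d.Hyp K p Rj Rx nj nx bj bx V M F e B U π₀ h) :
    MI p d.T (d.L K) (d.g K) ≤ 5 * e := by
  have h0 := H.law.nonneg
  have h1 : MI p Rj (d.L K) (fun ω => (d.th ω, d.g K ω)) ≤ 3 * e := by
    have h2 := mi_near h0 (W := fun ω => (d.th ω, d.g K ω)) (Y := d.L K) (e₂ := e) H.mj H.fj
      (fun ω ω' _ _ e => by
        obtain ⟨e1, e2⟩ := Prod.ext_iff.mp e
        exact Prod.ext e1 (Prod.ext_iff.mp e2).1)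
      (le_trans (CH_mono_left h0 fun ω ω' _ _ e => by
        obtain ⟨e1, e2⟩ := Prod.ext_iff.mp e
        obtain ⟨_, e4⟩ := Prod.ext_iff.mp e2
        obtain ⟨_, e6⟩ := Prod.ext_iff.mp e4
        obtain ⟨e7, _⟩ := Prod.ext_iff.mp e6
        exact Prod.ext e1 (Prod.ext e7 (g_of e1))) H.Lj)
    linarith
  have h2 := mi_few h0 h1 H.bbj
  have h3 : MI p d.T (d.L K) (d.g K) = MI p d.th (d.L K) (d.g K) +
      MI p d.bb (d.L K) (fun ω => (d.th ω, d.g K ω)) := mi_two h0 d.th d.bb (d.L K) (d.g K)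
  have h4 := H.ti
  rw [h3]
  linarith

/-- The upper digits of the target are few bits given the record of the small ball. -/
theorem Hyp.jw (H : d.Hyp K p Rj Rx nj nx bj bx V M F e B U π₀ h) :
    CH p (fun ω (a : Fin (K + 1)) => d.nc K ω a / 2 ^ d.X)
      (fun ω => (Rx ω, (d.th ω, d.w K ω))) ≤ e :=
  le_trans (CH_mono_cond H.law.nonneg fun ω ω' a a' e => by
    obtain ⟨e1, e2⟩ := Prod.ext_iff.mp e
    obtain ⟨e3, e4⟩ := Prod.ext_iff.mp e2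
    exact Prod.ext e1 (Prod.ext e3 (det_wv p ω ω' a a' e4))) H.jt

/-- **The field `h2`.** -/
theorem Hyp.h2 (H : d.Hyp K p Rj Rx nj nx bj bx V M F e B U π₀ h) :
    MI p (d.N K) (fun ω => (d.Y K ω, d.C K ω)) (fun ω => (d.T ω, d.g K ω)) ≤ 6 * e := by
  have h0 := H.law.nonneg
  have h1 : MI p Rx (fun ω => (d.Y K ω, d.C K ω)) (fun ω => (d.th ω, d.w K ω)) ≤ 3 * e := by
    have h2 := mi_near h0 (W := fun ω => (d.th ω, d.w K ω)) (Y := fun ω => (d.Y K ω, d.C K ω))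
      (e₂ := e) H.mx H.fx
      (fun ω ω' _ _ e => by
        obtain ⟨e1, e2⟩ := Prod.ext_iff.mp e
        exact Prod.ext e1 (Prod.ext_iff.mp e2).1)
      (le_trans (CH_mono_left h0 fun ω ω' a a' e => by
        obtain ⟨e1, e2⟩ := Prod.ext_iff.mp e
        obtain ⟨_, e4⟩ := Prod.ext_iff.mp e2
        obtain ⟨_, e6⟩ := Prod.ext_iff.mp e4
        obtain ⟨e7, e8⟩ := Prod.ext_iff.mp e6
        have e9 := det_l p ω ω' a a' (Prod.ext e8 e1)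
        obtain ⟨e10, e11⟩ := Prod.ext_iff.mp e9
        exact Prod.ext e10 (Prod.ext e7 e11)) H.Lx)
    linarith
  rw [MI_eq' h0] at h1
  have h2 := Pool.D2P.mi_of_la h0 (d.N K) (fun ω => (d.Y K ω, d.C K ω))
    (fun ω => (d.T ω, d.g K ω)) (fun ω => (d.th ω, d.w K ω)) Rx (ε := 3 * e) (e₁ := e)
    (e₂ := e + e) (e₃ := 0) (by linarith) H.Nx ?_ ?_
  · linarith
  · have h3 := CH_subadd h0 d.bb (fun ω (a : Fin (K + 1)) => d.nc K ω a / 2 ^ d.X)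
      (fun ω => (Rx ω, (d.th ω, d.w K ω)))
    refine (CH_mono_left h0 fun ω ω' a a' e => ?_).trans
      (h3.trans (add_le_add H.bbx H.jw))
    obtain ⟨e1, e2⟩ := Prod.ext_iff.mp e
    obtain ⟨e3, e4⟩ := Prod.ext_iff.mp e1
    obtain ⟨_, e6⟩ := Prod.ext_iff.mp e2
    obtain ⟨e7, e8⟩ := Prod.ext_iff.mp e6
    exact Prod.ext (Prod.ext e7 e3) (det_g p ω ω' a a' (Prod.ext e8 e4))
  · refine le_of_eq (CH_eq_zero h0 fun ω ω' a a' e => ?_)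
    obtain ⟨e1, e2⟩ := Prod.ext_iff.mp e
    exact Prod.ext (Prod.ext_iff.mp e1).1 (det_gw p ω ω' a a' e2)

/-- The last digits of the positions are few. -/
theorem CH_last {γ : Type} (hp : IsLaw p) (W : Ω → γ) :
    CH p (fun ω j => d.ac K ω j 0 % 2 ^ d.m) W ≤ k * d.m * Real.log 2 := by
  classical
  have h1 := CH_le_card hp.nonneg hp.sum_one (fun ω j => d.ac K ω j 0 % 2 ^ d.m) W
    (fun _ => Fintype.piFinset fun _ : Fin k => Finset.Ico (0 : ℤ) (2 ^ d.m)) (by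
      intro ω _
      rw [Fintype.mem_piFinset]
      intro j
      have p1 : (0 : ℤ) < 2 ^ d.m := by positivity
      exact Finset.mem_Ico.mpr ⟨Int.emod_nonneg _ p1.ne', Int.emod_lt_of_pos _ p1⟩)
  refine h1.trans (le_of_eq ?_)
  rw [Ex_const hp.sum_one, Fintype.card_piFinset_const, Int.card_Ico, sub_zero]
  have e1 : ((2 : ℤ) ^ d.m).toNat = 2 ^ d.m := by
    have : ((2 : ℤ) ^ d.m) = ((2 ^ d.m : ℕ) : ℤ) := by push_cast; rfl
    rw [this, Int.toNat_natCast]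
  rw [e1]
  push_cast
  rw [Real.log_pow, Real.log_pow]
  ring

/-- Time and context given the record of the small ball. -/
theorem Hyp.fg (H : d.Hyp K p Rj Rx nj nx bj bx V M F e B U π₀ h) :
    CH p (fun ω => (d.th ω, d.g K ω)) (fun ω => (Rx ω, (d.th ω, d.v K ω))) ≤
      k * d.m * Real.log 2 + e := by
  have h0 := H.law.nonneg
  have h3 := CH_subadd h0 (fun ω j => d.ac K ω j 0 % 2 ^ d.m)
    (fun ω (a : Fin (K + 1)) => d.nc K ω a / 2 ^ d.X) (fun ω => (Rx ω, (d.th ω, d.v K ω)))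
  refine (CH_mono_left h0 fun ω ω' a a' e => ?_).trans
    (h3.trans (add_le_add (CH_last H.law _) H.jt))
  obtain ⟨e1, e2⟩ := Prod.ext_iff.mp e
  obtain ⟨_, e4⟩ := Prod.ext_iff.mp e2
  obtain ⟨e5, e6⟩ := Prod.ext_iff.mp e4
  exact Prod.ext e5 (det_g' p ω ω' a a' (Prod.ext e6 e1))

/-- **The field `h3`.** -/
theorem Hyp.h3 (H : d.Hyp K p Rj Rx nj nx bj bx V M F e B U π₀ h) :
    k * d.X * Real.log 2 - (3 * e + k * d.m * Real.log 2) ≤ CH p (d.Y K) (d.g K) := by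
  have h1 := Pool.D2P.full_of H.law.nonneg V (d.Y K) d.th (d.g K)
    (fun ω => (Rx ω, (d.th ω, d.v K ω))) H.vf H.fg H.vy
  linarith

/-- **The field `h5`.** -/
theorem Hyp.h5 (H : d.Hyp K p Rj Rx nj nx bj bx V M F e B U π₀ h) (he : 0 ≤ e) (hπ : 0 < π₀) :
    ∀ j : ℕ, (j + 1) * h ≤ d.X → ∀ E : Set Ω, π₀ ≤ Pr p E →
      CH (rs p E) (fun ω => d.N K ω / 2 ^ (d.X - (j + 1) * h))
        (fun ω => ((d.N K ω / 2 ^ (d.X - j * h), d.T ω), d.g K ω)) ≤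
        U + 2 * Real.log (2 * (B + 2 * ((K + 1) * (k + 1)) + 4) + 1) +
          (4 * e + k * d.m * Real.log 2 + Real.log 2) / π₀ := by
  have h0 := H.law.nonneg
  have hl2 : 0 < Real.log 2 := Real.log_pos (by norm_num)
  refine Pool.D2P.h5_of H.law (d.N K) V d.T (d.g K) (F := F)
    (e := 4 * e + k * d.m * Real.log 2) (by positivity) hπ H.vb ?_ ?_
  · have h1 := CH_le_add h0 V (fun ω => (d.N K ω, (d.T ω, d.g K ω)))
      (fun ω => (Rx ω, (d.th ω, d.v K ω)))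
    have h2 : CH p V (fun ω => ((d.N K ω, (d.T ω, d.g K ω)), (Rx ω, (d.th ω, d.v K ω)))) ≤
        CH p V (fun ω => (d.N K ω, (d.T ω, d.g K ω))) :=
      CH_mono_cond h0 fun ω ω' _ _ h => (Prod.ext_iff.mp h).1
    have h3 := CH_chain h0 (d.N K) (fun ω => (d.T ω, d.g K ω))
      (fun ω => (Rx ω, (d.th ω, d.v K ω)))
    have h4 : CH p (d.N K) (fun ω => ((d.T ω, d.g K ω), (Rx ω, (d.th ω, d.v K ω)))) ≤
        CH p (d.N K) (fun ω => (Rx ω, (d.T ω, d.g K ω))) :=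
      CH_mono_cond h0 fun ω ω' _ _ h => by
        obtain ⟨h5, h6⟩ := Prod.ext_iff.mp h
        exact Prod.ext (Prod.ext_iff.mp h6).1 h5
    have h5 : CH p (fun ω => (d.T ω, d.g K ω)) (fun ω => (Rx ω, (d.th ω, d.v K ω))) ≤
        CH p (fun ω => (d.bb ω, (d.th ω, d.g K ω))) (fun ω => (Rx ω, (d.th ω, d.v K ω))) :=
      CH_mono_left h0 fun ω ω' _ _ h => by
        obtain ⟨h5, _⟩ := Prod.ext_iff.mp h
        obtain ⟨h7, h8⟩ := Prod.ext_iff.mp h5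
        obtain ⟨h9, h10⟩ := Prod.ext_iff.mp h8
        exact Prod.ext (Prod.ext h9 h7) h10
    have h6 := CH_chain h0 d.bb (fun ω => (d.th ω, d.g K ω))
      (fun ω => (Rx ω, (d.th ω, d.v K ω)))
    have h7 : CH p d.bb (fun ω => ((d.th ω, d.g K ω), (Rx ω, (d.th ω, d.v K ω)))) ≤
        CH p d.bb (fun ω => (Rx ω, (d.th ω, d.w K ω))) :=
      CH_mono_cond h0 fun ω ω' a a' h => by
        obtain ⟨h5, h6⟩ := Prod.ext_iff.mp h
        obtain ⟨h7, h8⟩ := Prod.ext_iff.mp h5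
        exact Prod.ext (Prod.ext_iff.mp h6).1 (Prod.ext h7 (det_gw p ω ω' a a' h8))
    have e1 := H.vf
    have e2 := H.Nx
    have e3 := H.bbx
    have e4 := H.fg
    linarith
  · intro j hj E hE
    have hE' : π₀ ≤ Pool.Agent.H49.Ent.law p (fun ω => ω ∈ E) True := hE
    have hE0 : 0 < Pool.Agent.H49.Ent.law p (fun ω => ω ∈ E) True := hπ.trans_le hE'
    have hql : IsLaw (rs p E) :=
      ⟨cond_nonneg h0 (fun ω => ω ∈ E) True, sum_cond p (fun ω => ω ∈ E) hE0.ne'⟩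
    have hqp : ∀ ω, 0 < rs p E ω → 0 < p ω := fun ω hω =>
      ((cond_pos_iff h0 (fun ω => ω ∈ E) True ω).mp hω).1
    have hB := H.B0
    have h1 := row_near hql (d.N K) M (fun ω => (V ω, (d.T ω, d.g K ω)))
      (D := B + 2 * ((K + 1) * (k + 1)) + 1) (by positivity) (fun ω ω' hω hω' hW => by
        obtain ⟨w1, w2⟩ := Prod.ext_iff.mp hW
        obtain ⟨w3, w4⟩ := Prod.ext_iff.mp w2
        have p1 := hqp ω hω
        have p2 := hqp ω' hω'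
        have q1 := abs_le.mp (H.qv ω ω' p1 p2 w1 w3 w4)
        have q2 := abs_le.mp (Q_val (H.th ω p1) (H.dP ω p1) (H.dA ω p1) (H.bm ω p1))
        have q3 := abs_le.mp (Q_val (H.th ω' p2) (H.dP ω' p2) (H.dA ω' p2) (H.bm ω' p2))
        rw [kn_of w3 w4] at q2
        have f1 := Int.floor_le (d.val K ω)
        have f2 := Int.lt_floor_add_one (d.val K ω)
        have f3 := Int.floor_le (d.val K ω')
        have f4 := Int.lt_floor_add_one (d.val K ω')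
        have hN : (d.N K ω : ℝ) = ⌊d.val K ω⌋ := rfl
        have hN' : (d.N K ω' : ℝ) = ⌊d.val K ω'⌋ := rfl
        rw [hN, hN', abs_le]
        constructor <;> linarith [q1.1, q1.2, q2.1, q2.2, q3.1, q3.2])
      (d.X - (j + 1) * h) (d.X - j * h) (H.row j hj E hE)
    refine h1.trans (le_of_eq ?_)
    ring_nf

/-- **`AvgA` from the hypotheses.** -/
theorem Hyp.avg {κ : ℝ} (H : d.Hyp K p Rj Rx nj nx bj bx V M F e B U π₀ ⌊κ * d.X⌋₊) (he : 0 ≤ e)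
    (hπ : 0 < π₀) {cc ι ε₀ : ℝ} {j₀ : ℕ}
    (hb : ∀ ω, 0 < p ω → ∀ j, |d.bb ω j| ≤ (2 : ℝ) ^ (ι * d.X))
    (h1f : (1 - ι) * d.X * Real.log 2 ≤ CH p (fun ω => ⌊(2 : ℝ) ^ d.X * d.th ω⌋) (d.L K))
    (h1a : j₀ * Real.log 2 - ε₀ ≤ CH p (fun ω => ⌊(2 : ℝ) ^ j₀ * d.th ω⌋) (d.L K))
    (n1 : 6 * e ≤ ι * d.X) (n2 : 3 * e + k * d.m * Real.log 2 ≤ ι * d.X * Real.log 2)
    (n3 : U + 2 * Real.log (2 * (B + 2 * ((K + 1) * (k + 1)) + 4) + 1) +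
      (4 * e + k * d.m * Real.log 2 + Real.log 2) / π₀ ≤ (1 - cc) * ⌊κ * d.X⌋₊ * Real.log 2) :
    AvgA p (d.L K) d.T (d.g K) (d.Y K) (d.C K) (d.N K) d.th (fun _ => 0) d.co d.X 0 cc κ π₀ ι ε₀
      j₀ :=
  AD.avg H.law H.th hb (H.h1.trans (by linarith)) h1f h1a (H.h2.trans n1)
    (le_trans (by linarith) H.h3) fun j hj E hE => (H.h5 he hπ j hj E hE).trans n3

end law

end AD

/-- **Closed gradients.** -/
theorem ad_clo (k K : ℕ) (cc ε : ℝ) (hcc : 0 < cc) (hε : 0 < ε) :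
    ∃ (κ₂ κ π₀ ι ε₀ : ℝ) (k₀ j₀ X₀ : ℕ), 0 < κ₂ ∧ 0 < κ ∧ κ ≤ 1 ∧ 0 < π₀ ∧ 0 < ι ∧ 0 < ε₀ ∧
      ∀ {Ω β : Type} [Fintype Ω] (p : Ω → ℝ) (d : AD Ω β k) {ρ₁ ρ₂ ν₁ ν₂ σ₁ σ₂ υ : Type}
        (Rj : Ω → ρ₁) (Rx : Ω → ρ₂) (nj : Ω → ν₁) (nx : Ω → ν₂) (bj : Ω → σ₁) (bx : Ω → σ₂)
        (V : Ω → υ) (M : Ω → ℤ) (F e B U : ℝ), X₀ ≤ d.X → 0 ≤ e →
        d.Hyp K p Rj Rx nj nx bj bx V M F e B U π₀ ⌊κ * d.X⌋₊ →
        (∀ ω, 0 < p ω → ∀ j, |d.bb ω j| ≤ (2 : ℝ) ^ (ι * d.X)) →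
        (1 - ι) * d.X * Real.log 2 ≤ CH p (fun ω => ⌊(2 : ℝ) ^ d.X * d.th ω⌋) (d.L K) →
        j₀ * Real.log 2 - ε₀ ≤ CH p (fun ω => ⌊(2 : ℝ) ^ j₀ * d.th ω⌋) (d.L K) →
        6 * e ≤ ι * d.X → 3 * e + k * d.m * Real.log 2 ≤ ι * d.X * Real.log 2 →
        U + 2 * Real.log (2 * (B + 2 * ((K + 1) * (k + 1)) + 4) + 1) +
          (4 * e + k * d.m * Real.log 2 + Real.log 2) / π₀ ≤
          (1 - cc) * ⌊κ * d.X⌋₊ * Real.log 2 →
        ∃ mu : Lam β k K → Fin k → Polynomial ℝ, (∀ l i, (mu l i).natDegree ≤ K) ∧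
          (∀ l i (u : ℝ), |(mu l i).eval u| ≤
            (K + 1) * (2 ^ k₀ * (|u| + 1)) ^ K * (2 : ℝ) ^ (ι * d.X)) ∧
          Pb p (fun ω => ∃ i, (2 : ℝ) ^ (-(κ₂ * d.X)) <
            |d.bb ω i - (mu (d.L K ω) i).eval (d.th ω)|) ≤ ε := by
  classical
  obtain ⟨κ₂, κ, π₀, ι, ε₀, k₀, j₀, X₀, a1, a2, a3, a4, a5, a6, H⟩ :=
    Pool.D2L.clo_law k K 1 0 cc ε hcc hε
  refine ⟨κ₂, κ, π₀, ι, ε₀, k₀, j₀, X₀, a1, a2, a3, a4, a5, a6, ?_⟩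
  intro Ω β _ p d ρ₁ ρ₂ ν₁ ν₂ σ₁ σ₂ υ Rj Rx nj nx bj bx V M F e B U hX he hyp hb h1f h1a n1 n2 n3
  have hp := hyp.law
  obtain ⟨mu, m1, m2, m3⟩ := H p (d.L K) d.T (d.g K) (d.Y K) (d.C K) (d.N K) d.th (fun _ => 0)
    d.co d.X hX (hyp.avg he a4 hb h1f h1a n1 n2 n3)
  refine ⟨fun l j => mu l ⟨Pi.single j 1, single_mem j⟩, fun l i => m1 l _,
    fun l i u => m2 l _ u, le_trans ?_ m3⟩
  unfold Pb
  refine Finset.sum_le_sum fun ω _ => ?_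
  by_cases h6 : ∃ i, (2 : ℝ) ^ (-(κ₂ * d.X)) < |d.bb ω i -
      (mu (d.L K ω) ⟨Pi.single i 1, single_mem i⟩).eval (d.th ω)|
  · rw [if_pos h6, if_pos ?_]
    obtain ⟨i, hi⟩ := h6
    refine ⟨⟨Pi.single i 1, single_mem i⟩, ?_⟩
    have h7 : d.co ω ⟨Pi.single i 1, single_mem i⟩ = d.bb ω i := by
      unfold AD.co Pool.D2Hz.cof
      exact cof_single (d.bb ω) i
    rw [h7]
    exact hi
  · rw [if_neg h6]
    split_ifs
    · exact hp.nonneg ω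
    · exact le_rfl

end Pool.AVG71
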