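import Pool.Agent.H5.AVG.Jet
import Pool.Agent.H57.AVG.HiJ
import Pool.Agent.H57.AVG.Vy
import Pool.Agent.H68.OWN.Jq

/-!
# The codes of the own path, from the jets

`cod`: digits of the coefficients of the own path over the labels of the window. `cod_few`: the
coefficients of order `≥ j₀` are few bits given the jets of order `≥ j₀` and the time.
-/

set_option autoImplicit false

namespace Pool.AVG71

open Finset Real MvPolynomial
open Pool.Agent.H49.Ent Pool.Agent.H32.Dense Pool.STK Pool.KA Pool.KSAT Pool.K2S Pool.PB Pool.GEN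
open Pool.S6C Pool.RCD Pool.LA91 Pool.OWN68 Pool.CHT
open Pool.AVG5 (jt fl_mul co_sub of_fl CH_near)
open Pool.AVG57 (tw_of_T tw_rt)
open Pool.PB.Trl (rt rt_mem t_rt)

variable {m J : ℕ}

/-- **The codes of the own path** of `κ` over the labels of the window `W`, of order `≥ j₀`. -/
noncomputable def cod (F : Fam m J) (W j₀ D : ℕ) (σ : ℝ) (κ : Fin m) {V : Type} (zl : LnT F → V)
    (G : V → MvPolynomial (Option (Fin m)) ℝ) (ω : F.Ω) (a : Fin (D + 1)) : ℤ :=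
  if j₀ ≤ (a : ℕ) then
    ⌊σ * (dv W (fun s (_ : Fin m) => G (zl s)) κ (slam F W ω)).coeff a⌋ else 0

/-- **The codes from near jets.** -/
theorem cod_near {F : Fam m J} {w N σ : ℝ} (hw0 : 0 ≤ w) (hwJ : ⌊w * J⌋₊ ≤ J) (hσ0 : 0 < σ)
    (hσ : σ ≤ 2 ^ (N * J)) {κ : Fin m} {V : Type} {zl : LnT F → V}
    {G : V → MvPolynomial (Option (Fin m)) ℝ} {D : ℕ} (hdeg : ∀ v, (G v).totalDegree + 1 ≤ D)
    {q : F.Ω → ℝ} (hq : IsLaw q) {α : Type} (Y : F.Ω → α) (j₀ : ℕ)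
    (hY : ∀ ω ω', 0 < q ω → 0 < q ω' → Y ω = Y ω' → F.T ω = F.T ω' ∧ ∀ j : ℕ, j₀ ≤ j → j ≤ D →
      |ojet F κ j (G (zl (slam F ⌊w * J⌋₊ ω))) ω - ojet F κ j (G (zl (slam F ⌊w * J⌋₊ ω'))) ω'| ≤
        1 / 2 ^ ((N - j * w) * J)) :
    CH q (cod F ⌊w * J⌋₊ j₀ D σ κ zl G) Y ≤
      ((D + 1 : ℕ) : ℝ) * Real.log (2 * (2 ^ (2 * D + 1) + 1) + 1) := by
  obtain ⟨W, hW⟩ : ∃ W, W = ⌊w * J⌋₊ := ⟨_, rfl⟩
  rw [← hW] at hY hwJ ⊢
  have hcard : (Fintype.card (Fin (D + 1)) : ℝ) = ((D + 1 : ℕ) : ℝ) := by rw [Fintype.card_fin]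
  rw [← hcard]
  refine CH_near hq _ Y (by positivity) fun ω ω' hω hω' e a => ?_
  obtain ⟨hT, hj⟩ := hY ω ω' hω hω' e
  unfold cod
  split_ifs with ha
  swap
  · rw [sub_self, abs_zero]
    positivity
  obtain ⟨P, hP⟩ : ∃ P, P = fun o => dv W (fun s (_ : Fin m) => G (zl s)) κ (slam F W o) := ⟨_, rfl⟩
  have hPd : ∀ o, (P o).natDegree ≤ D := by
    intro o
    rw [hP]
    refine (natDegree_dv W (K := D - 1) (G := fun s (_ : Fin m) => G (zl s))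
      (fun s _ => by have := hdeg (zl s); omega) _ _).trans ?_
    have := hdeg (zl (slam F W o))
    omega
  have hrt : rt F W ω = rt F W ω' := by
    have h1 := tw_of_T F (W := W) hT
    rwa [tw_rt F hwJ, tw_rt F hwJ] at h1
  have hθ : |rt F W ω| ≤ 1 := by
    have h1 := rt_mem F W ω
    rw [abs_le]
    constructor <;> linarith [h1.1, h1.2]
  have hWw : (W : ℝ) ≤ w * J := by
    rw [hW]
    exact Nat.floor_le (mul_nonneg hw0 (Nat.cast_nonneg J))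
  have hwW : w * J ≤ W + 1 := by
    rw [hW]
    exact (Nat.lt_floor_add_one _).le
  have hN0 : (0 : ℝ) < 2 ^ (N * J) := Real.rpow_pos_of_pos (by norm_num) _
  have key : |(P ω).coeff a - (P ω').coeff a| ≤ 2 ^ (D + 1) * (2 ^ D / 2 ^ (N * J)) := by
    refine co_sub (hPd ω) (hPd ω') hθ (by positivity) (θ := rt F W ω) fun i hi hiD => ?_
    have e1 : jt (P ω) (rt F W ω) i = ojet F κ i (G (zl (slam F W ω))) ω /
        ((i.factorial : ℝ) * (2 ^ W) ^ i) := by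
      rw [hP]
      exact Pool.AVG57.ojet_tay F hwJ ω κ (fun s (_ : Fin m) => G (zl s)) i
    have e2 : jt (P ω') (rt F W ω) i = ojet F κ i (G (zl (slam F W ω'))) ω' /
        ((i.factorial : ℝ) * (2 ^ W) ^ i) := by
      rw [hP, hrt]
      exact Pool.AVG57.ojet_tay F hwJ ω' κ (fun s (_ : Fin m) => G (zl s)) i
    rw [e1, e2, ← sub_div, abs_div]
    have hf1 : (1 : ℝ) ≤ (i.factorial : ℝ) := by exact_mod_cast Nat.one_le_iff_ne_zero.2 (Nat.factorial_ne_zero i)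
    have hp : (0 : ℝ) < 2 ^ ((N - i * w) * J) := Real.rpow_pos_of_pos (by norm_num) _
    have h3 := hj i (ha.trans hi) hiD
    have hWi : (0 : ℝ) < (2 ^ W) ^ i := by positivity
    rw [abs_of_pos (by positivity : (0 : ℝ) < (i.factorial : ℝ) * (2 ^ W) ^ i),
      div_le_iff₀ (by positivity)]
    refine h3.trans ?_
    rw [div_le_iff₀ hp]
    have h4 : (2 : ℝ) ^ (N * J) ≤ 2 ^ D * (2 ^ W) ^ i * 2 ^ ((N - i * w) * J) := by
      have e3 : (2 : ℝ) ^ D * (2 ^ W) ^ i * 2 ^ ((N - i * w) * J) =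
          2 ^ ((D : ℝ) + W * i + (N - i * w) * J) := by
        rw [Real.rpow_add (by norm_num), Real.rpow_add (by norm_num), Real.rpow_natCast,
          ← Nat.cast_mul, Real.rpow_natCast, pow_mul]
      rw [e3]
      refine Real.rpow_le_rpow_of_exponent_le (by norm_num) ?_
      have h5 : (i : ℝ) * (w * J) ≤ i * (W + 1) :=
        mul_le_mul_of_nonneg_left hwW (Nat.cast_nonneg i)
      have h6 : (i : ℝ) ≤ D := by exact_mod_cast hiD
      nlinarith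
    calc (1 : ℝ) = 1 / 2 ^ (N * J) * 2 ^ (N * J) := by field_simp
      _ ≤ 1 / 2 ^ (N * J) * (2 ^ D * (2 ^ W) ^ i * 2 ^ ((N - i * w) * J)) :=
          mul_le_mul_of_nonneg_left h4 (by positivity)
      _ ≤ 1 / 2 ^ (N * J) * (2 ^ D * ((i.factorial : ℝ) * (2 ^ W) ^ i) *
            2 ^ ((N - i * w) * J)) := by
          refine mul_le_mul_of_nonneg_left (mul_le_mul_of_nonneg_right
            (mul_le_mul_of_nonneg_left ?_ (by positivity)) hp.le) (by positivity)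
          nlinarith
      _ = 2 ^ D / 2 ^ (N * J) * ((i.factorial : ℝ) * (2 ^ W) ^ i) * 2 ^ ((N - i * w) * J) := by
          ring
  have h7 := fl_mul hσ0.le key
  have hPe : ∀ o, dv W (fun s (_ : Fin m) => G (zl s)) κ (slam F W o) = P o := fun o => by rw [hP]
  rw [hPe, hPe]
  refine h7.trans ?_
  have h8 : σ * (2 ^ (D + 1) * (2 ^ D / 2 ^ (N * J))) ≤ 2 ^ (2 * D + 1) := by
    have e4 : σ * (2 ^ (D + 1) * (2 ^ D / 2 ^ (N * J))) = 2 ^ (2 * D + 1) * (σ / 2 ^ (N * J)) := by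
      ring
    rw [e4]
    have h9 : σ / 2 ^ (N * J) ≤ 1 := by rwa [div_le_one hN0]
    calc (2 : ℝ) ^ (2 * D + 1) * (σ / 2 ^ (N * J)) ≤ 2 ^ (2 * D + 1) * 1 :=
          mul_le_mul_of_nonneg_left h9 (by positivity)
      _ = 2 ^ (2 * D + 1) := mul_one _
  linarith

/-- **The codes from the jets.** -/
theorem cod_few {F : Fam m J} {w N σ : ℝ} (hw0 : 0 ≤ w) (hwJ : ⌊w * J⌋₊ ≤ J) (hσ0 : 0 < σ)
    (hσ : σ ≤ 2 ^ (N * J)) {κ : Fin m} {V : Type} {zl : LnT F → V}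
    {G : V → MvPolynomial (Option (Fin m)) ℝ} {D : ℕ} (hdeg : ∀ v, (G v).totalDegree + 1 ≤ D)
    {q : F.Ω → ℝ} (hq : IsLaw q) {α : Type} (Y : F.Ω → α) (j₀ : ℕ) {s : ℕ → ℝ}
    (hs : ∀ j : ℕ, j₀ ≤ j → j ≤ D → N - j * w ≤ s j)
    (hY : ∀ ω ω', 0 < q ω → 0 < q ω' → Y ω = Y ω' → F.T ω = F.T ω' ∧ ∀ j : ℕ, j₀ ≤ j → j ≤ D →
      ⌊(2 : ℝ) ^ (s j * J) * ojet F κ j (G (zl (slam F ⌊w * J⌋₊ ω))) ω⌋ =
        ⌊(2 : ℝ) ^ (s j * J) * ojet F κ j (G (zl (slam F ⌊w * J⌋₊ ω'))) ω'⌋) :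
    CH q (cod F ⌊w * J⌋₊ j₀ D σ κ zl G) Y ≤
      ((D + 1 : ℕ) : ℝ) * Real.log (2 * (2 ^ (2 * D + 1) + 1) + 1) := by
  refine cod_near hw0 hwJ hσ0 hσ hdeg hq Y j₀ fun ω ω' hω hω' e => ?_
  obtain ⟨hT, hj⟩ := hY ω ω' hω hω' e
  refine ⟨hT, fun j h1 h2 => ?_⟩
  have hp : (0 : ℝ) < 2 ^ (s j * J) := Real.rpow_pos_of_pos (by norm_num) _
  refine (of_fl hp (hj j h1 h2)).trans ?_
  refine one_div_le_one_div_of_le (Real.rpow_pos_of_pos (by norm_num) _) ?_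
  exact Real.rpow_le_rpow_of_exponent_le (by norm_num)
    (mul_le_mul_of_nonneg_right (hs j h1 h2) (Nat.cast_nonneg J))

/-- More orders: the other coefficients vanish. -/
theorem cod_up {F : Fam m J} {W : ℕ} {σ : ℝ} {κ : Fin m} {V : Type} {zl : LnT F → V}
    {G : V → MvPolynomial (Option (Fin m)) ℝ} {D D' : ℕ} (hdeg : ∀ v, (G v).totalDegree + 1 ≤ D)
    {q : F.Ω → ℝ} (h0 : ∀ ω, 0 ≤ q ω) {α : Type} (Y : F.Ω → α) (j₀ : ℕ) :
    CH q (cod F W j₀ D' σ κ zl G) Y ≤ CH q (cod F W j₀ D σ κ zl G) Y := by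
  refine CH_mono_left h0 fun ω ω' _ _ e => ?_
  have e1 := (Prod.ext_iff.mp e).1
  have hPd : ∀ o, (dv W (fun s (_ : Fin m) => G (zl s)) κ (slam F W o)).natDegree ≤ D := by
    intro o
    refine (natDegree_dv W (K := D - 1) (G := fun s (_ : Fin m) => G (zl s))
      (fun s _ => by have := hdeg (zl s); omega) _ _).trans ?_
    have := hdeg (zl (slam F W o))
    omega
  funext a
  unfold cod
  split_ifs with ha
  · rcases Nat.lt_or_ge D a with h1 | h1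
    · rw [Polynomial.coeff_eq_zero_of_natDegree_lt ((hPd ω).trans_lt h1),
        Polynomial.coeff_eq_zero_of_natDegree_lt ((hPd ω').trans_lt h1)]
    · have e2 := congrFun e1 ⟨a, by omega⟩
      unfold cod at e2
      dsimp only at e2
      rw [if_pos ha, if_pos ha] at e2
      exact e2
  · rfl

end Pool.AVG71
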