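import Pool.Agent.H71.AVG.Pf1

/-!
# The codes over labels of any precision

`two_jets_r`, `two_ctx_r`: the jets of the chain over one family of labels from the jets over another
one, both of precision at least `p l - φ`. `jt_Q`, `jt_cls_r`: the codes of the target over labels of
precision `≥ Pv r (b 0) - φ` and any complexity. `d_cls_r`: the codes of order `≥ 1` over a finer
window. `far_jetA_r`, `far_ctx_r`: the far digits over labels of precision `≥ s l - φ`. `JetA.rough`: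
the jets over labels of precision `≥ p l - φ`.
-/

set_option autoImplicit false

namespace Pool.AJW

open Finset Real MvPolynomial
open Pool.Agent.H49.Ent Pool.Agent.H32.Dense Pool.STK Pool.KA Pool.KSAT Pool.K2S Pool.PB Pool.GEN
open Pool.S6C Pool.RCD Pool.LA91 Pool.OWN68 Pool.CHT
open Pool.GRD (LbP)
open Pool.UNJ (ceI Tub)
open Pool.AVG71 (cod cod_few)

section two

variable {m : ℕ} {S : PCl m} {C₀ : ℝ} {α γ : ∀ J : ℕ, Fam m J → Type}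
  {f : ∀ (J : ℕ) (F : Fam m J), F.Ω → α J F} {y : ∀ (J : ℕ) (F : Fam m J), F.Ω → γ J F}
  {c : ℕ → Fin m} {r₀ r : ℕ} {w a lam : ℝ} {rd p n : ℕ → ℝ}

/-- **The jets over one family of labels from the jets over another one**, same window, both of
precision `≥ p l - φ`. -/
theorem two_jets_r (htm : TmC S C₀) {σ φ u₁ : ℝ} {lv pq pt : ℕ → ℝ}
    (hch : Chn S c r₀ r w w u₁ p rd)
    (hwa : w ≤ a) (ha : a ≤ 1) (hlam : 0 < lam) (hl1 : w + lam ≤ 1) (hφ : 0 ≤ φ) (hσ : φ < σ)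
    (hpq : ∀ l, r₀ ≤ l → l < r → p l - φ ≤ pq l) (hpt : ∀ l, r₀ ≤ l → l < r → p l - φ ≤ pt l)
    (hlv : ∀ l, r₀ ≤ l → l < r → 0 < lv l)
    (h1 : ∀ l, r₀ ≤ l → l < r → p l + lv l + σ ≤ n l)
    (h2 : ∀ l, r₀ ≤ l → l < r → lv l + σ ≤ lam)
    (h3 : ∀ l, r₀ ≤ l → l < r → ∀ l', r₀ ≤ l' → l' < l → lv l + σ ≤ lv l')
    (h4 : ∀ l, r₀ ≤ l → l < r → n l + σ ≤ p l + lam)
    (h5 : ∀ l, r₀ ≤ l → l < r → ∀ l', r₀ ≤ l' → l' < l → n l + σ ≤ p l + lv l')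
    (hf : ∀ (J : ℕ) (F : Fam m J), ∃ φ : α J F → PtT F, ∀ ω, ptr F J ω = φ (f J F ω))
    (hy : Kn ((range r₀).image c) (w + lam) lam y) {Jm l j : ℕ} (hl0 : r₀ ≤ l) (hl : l < r)
    (hj : j ≤ Jm) {h : ℝ} (hh : 0 < h) :
    F1 S f (vg a) y (qJets m c r₀ r Jm (fun _ _ => w) (fun l _ => pq l)
        (fun l j' => n l - (j' : ℕ) * w))
      (qJet m ((range l).image c) (c l) j w (pt l) (n l - (j : ℕ) * w)) ((σ - φ) / 8) h := by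
  have hmin : min lam (w + lam - w) = lam := by
    have e1 : w + lam - w = lam := by ring
    rw [e1, min_self]
  have m1 : ∀ i, r₀ ≤ i → i < r → p i - φ ≤ min (pq i) (p i) := fun i x y =>
    le_min (hpq i x y) (by linarith)
  have m2 : ∀ i, r₀ ≤ i → i < r → p i - φ ≤ min (pq i) (pt i) := fun i x y =>
    le_min (hpq i x y) (hpt i x y)
  have key := F1.up hwa ha (jetN_F1 (y := y) (f := f) htm (hch.take hl0 hl.le) (k := c l) (j := j)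
    (lv := lv) (p₀ := w + lam) (lam := lam) (σ₀ := σ - φ) (w₁ := w) (w₂ := w) (p₁ := pq l)
    (p₂ := pt l) (N₁ := n l - (j : ℕ) * w) (N₂ := n l - (j : ℕ) * w)
    (wv := fun _ _ => w) (pv := fun l _ => pq l) (Nv := fun l j' => n l - (j' : ℕ) * w)
    (fun _ _ _ _ _ => le_rfl) le_rfl le_rfl (by linarith) hl1 hlam (by linarith)
    (fun i x y => hlv i x (by omega))
    (fun i x y j' _ => by linarith [h1 i x (by omega)])
    (fun i x y j' _ => by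
      rw [hmin]
      linarith [h2 i x (by omega), m1 i x (by omega)])
    (fun i x y j' _ l' x' y' => by
      linarith [h3 i x (by omega) l' x' y', m1 i x (by omega)])
    le_rfl
    (by
      rw [hmin]
      linarith [h4 l hl0 hl, m2 l hl0 hl])
    (fun l' x y => by
      linarith [h5 l hl0 hl l' x y, m2 l hl0 hl]) hf hy hh)
  refine F1.pull htm (Q₁ := (qJets m c r₀ l j (fun _ _ => w) (fun l _ => pq l)
    (fun l j' => n l - (j' : ℕ) * w)).prod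
      (qJet m ((range l).image c) (c l) j w (pq l) (n l - (j : ℕ) * w)))
    (fun u => ((fun i' j' => if i' < l ∧ j' ≤ j then u i' j' else 0), u l j)) ?_ key
  intro K e J F A u hu
  refine ⟨⟨fun i' a b' j' c' => ?_, fun ω hω i' j' h' => ?_⟩, ?_⟩
  · have e1 := hu.1 i' a (b'.trans hl) j' (c'.trans hj)
    show (qJet m _ _ _ _ _ _).P K e J F A (fun ω => if i' < l ∧ j' ≤ j then u ω i' j' else 0)
    simp only [if_pos (show i' < l ∧ j' ≤ j from ⟨b', c'⟩)]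
    exact e1
  · show (if i' < l ∧ j' ≤ j then u ω i' j' else 0) = 0
    split_ifs with h3
    · exact hu.2 ω hω i' j' fun h4 => h' ⟨h4.1, h3.1, h3.2⟩
    · rfl
  · exact hu.1 l hl0 hl j hj

/-- **The context over the labels of the chain from the jets over labels of precision
`≥ p l - φ`**, same window. -/
theorem two_ctx_r (htm : TmC S C₀) {σ φ u₁ : ℝ} {lv pq : ℕ → ℝ} (hch : Chn S c r₀ r w w u₁ p rd)
    (hw0 : 0 ≤ w) (hwa : w ≤ a) (ha : a ≤ 1) (hlam : 0 < lam) (hl1 : w + lam ≤ 1)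
    (hφ : 0 ≤ φ) (hσ : φ < σ) (hpq : ∀ l, r₀ ≤ l → l < r → p l - φ ≤ pq l)
    (hlv : ∀ l, r₀ ≤ l → l < r → 0 < lv l)
    (h1 : ∀ l, r₀ ≤ l → l < r → p l + lv l + σ ≤ n l)
    (h2 : ∀ l, r₀ ≤ l → l < r → lv l + σ ≤ lam)
    (h3 : ∀ l, r₀ ≤ l → l < r → ∀ l', r₀ ≤ l' → l' < l → lv l + σ ≤ lv l')
    (h4 : ∀ l, r₀ ≤ l → l < r → n l + σ ≤ p l + lam)
    (h5 : ∀ l, r₀ ≤ l → l < r → ∀ l', r₀ ≤ l' → l' < l → n l + σ ≤ p l + lv l')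
    (hf : ∀ (J : ℕ) (F : Fam m J), ∃ φ : α J F → PtT F, ∀ ω, ptr F J ω = φ (f J F ω))
    (hy : Kn ((range r₀).image c) (w + lam) lam y) {K Jm R : ℕ} (hJm : K + 2 ≤ Jm) (hR : r ≤ R)
    {δ : ℝ} (hδ : 0 < δ) {e : ℝ} (he : 0 < e) (hle : e ≤ (σ - φ) / 8) {rd' : ℕ → ℝ}
    (hrd' : ∀ i, r₀ ≤ i → i < r → 0 ≤ rd' i) :
    FwL S f (vg a) y (qJets m c r₀ r Jm (fun _ _ => w) (fun l _ => pq l)
        (fun l j' => n l - (j' : ℕ) * w)) c r₀ R K w rd' p (ctx c r₀ r K w lam n) e δ := by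
  intro K₀
  have h6 : (0 : ℝ) < (r + 1) * (K + 3) := by positivity
  refine ctxK_few htm hw0 hwa ha hlam.le he hrd' hy K (η := fun _ _ => δ / 2 / ((r + 1) * (K + 3)))
    (δ₁ := δ / 2) ?_ (fun l x y j hj => (two_jets_r (pt := p) htm hch hwa ha hlam hl1 hφ hσ hpq
      (fun _ _ _ => by linarith) hlv h1 h2 h3 h4 h5 hf
      hy x y (by omega) (by positivity)).mono hle le_rfl) (by linarith) K₀ R hR
  rw [Finset.sum_const, Finset.sum_const, Nat.card_Ico, Finset.card_range, nsmul_eq_mul,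
    nsmul_eq_mul]
  have h2 : ((r - r₀ : ℕ) : ℝ) ≤ r + 1 := by
    have : ((r - r₀ : ℕ) : ℝ) ≤ r := by exact_mod_cast Nat.sub_le r r₀
    linarith
  push_cast
  calc ((r - r₀ : ℕ) : ℝ) * ((K + 3) * (δ / 2 / ((r + 1) * (K + 3)))) ≤
        (r + 1) * ((K + 3) * (δ / 2 / ((r + 1) * (K + 3)))) :=
        mul_le_mul_of_nonneg_right h2 (by positivity)
    _ = δ / 2 := by
        field_simp

/-- **The jets of a further coordinate over labels of precision `≥ P - φ`** from its jets over the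
labels of the chain, same window. -/
theorem tgt_jets_r (htm : TmC S C₀) {σ φ u₁ P N Pt : ℝ} {lv : ℕ → ℝ}
    (hch : Chn S c r₀ r w w u₁ p rd)
    (hwa : w ≤ a) (ha : a ≤ 1) (hlam : 0 < lam) (hl1 : w + lam ≤ 1) (hφ : 0 ≤ φ) (hσ : φ < σ)
    (hpt : P - φ ≤ Pt)
    (hlv : ∀ l, r₀ ≤ l → l < r → 0 < lv l)
    (h1 : ∀ l, r₀ ≤ l → l < r → p l + lv l + σ ≤ n l)
    (h2 : ∀ l, r₀ ≤ l → l < r → lv l + σ ≤ lam)
    (h3 : ∀ l, r₀ ≤ l → l < r → ∀ l', r₀ ≤ l' → l' < l → lv l + σ ≤ lv l')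
    (h4 : N + σ ≤ P + lam)
    (h5 : ∀ l', r₀ ≤ l' → l' < r → N + σ ≤ P + lv l')
    (hf : ∀ (J : ℕ) (F : Fam m J), ∃ φ : α J F → PtT F, ∀ ω, ptr F J ω = φ (f J F ω))
    (hy : Kn ((range r₀).image c) (w + lam) lam y) (Jm : ℕ) {h : ℝ} (hh : 0 < h) :
    F1 S f (vg a) y ((qJets m c r₀ r Jm (fun _ _ => w) (fun l _ => p l)
        (fun l j' => n l - (j' : ℕ) * w)).prod (qJets m c r (r + 1) Jm (fun _ _ => w)
          (fun _ _ => P) (fun _ j' => N - (j' : ℕ) * w)))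
      (qJets m c r (r + 1) Jm (fun _ _ => w) (fun _ _ => Pt) (fun _ j' => N - (j' : ℕ) * w))
      ((σ - φ) / 8) h := by
  have hmin : min lam (w + lam - w) = lam := by
    have e1 : w + lam - w = lam := by ring
    rw [e1, min_self]
  have m2 : P - φ ≤ min P Pt := le_min (by linarith) hpt
  obtain ⟨h', hh'⟩ : ∃ h' : ℝ, h' = h / (((r + 1) * (Jm + 1) : ℕ) : ℝ) := ⟨_, rfl⟩
  have hh0 : 0 < h' := by rw [hh']; positivity
  refine (F1.qjets htm (η := h') hh0.le ?_).mono le_rfl (le_of_eq (by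
    rw [hh']
    field_simp))
  intro i x y' j hj
  obtain rfl : i = r := by omega
  have key := F1.up hwa ha (jetN_F1 (y := y) (f := f) htm hch (k := c i) (j := j)
    (lv := lv) (p₀ := w + lam) (lam := lam) (σ₀ := σ - φ) (w₁ := w) (w₂ := w) (p₁ := P)
    (p₂ := Pt) (N₁ := N - (j : ℕ) * w) (N₂ := N - (j : ℕ) * w)
    (wv := fun _ _ => w) (pv := fun l _ => p l) (Nv := fun l j' => n l - (j' : ℕ) * w)
    (fun _ _ _ _ _ => le_rfl) le_rfl le_rfl (by linarith) hl1 hlam (by linarith)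
    (fun i x y => hlv i x (by omega))
    (fun i x y j' _ => by linarith [h1 i x (by omega)])
    (fun i x y j' _ => by
      rw [hmin, min_self]
      linarith [h2 i x (by omega)])
    (fun i x y j' _ l' x' y' => by
      rw [min_self]
      linarith [h3 i x (by omega) l' x' y'])
    le_rfl
    (by
      rw [hmin]
      linarith)
    (fun l' x y => by
      linarith [h5 l' x y]) hf hy hh0)
  refine F1.pull htm (Q₁ := (qJets m c r₀ i j (fun _ _ => w) (fun l _ => p l)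
    (fun l j' => n l - (j' : ℕ) * w)).prod
      (qJet m ((range i).image c) (c i) j w P (N - (j : ℕ) * w)))
    (fun u => ((fun i' j' => if j' ≤ j then u.1 i' j' else 0), u.2 i j)) ?_ key
  intro K e J F A u hu
  refine ⟨⟨fun i' a b' j' c' => ?_, fun ω hω i' j' h' => ?_⟩, ?_⟩
  · have e1 := hu.1.1 i' a b' j' (c'.trans hj)
    show (qJet m _ _ _ _ _ _).P K e J F A (fun ω => if j' ≤ j then (u ω).1 i' j' else 0)
    simp only [if_pos c']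
    exact e1
  · show (if j' ≤ j then (u ω).1 i' j' else 0) = 0
    split_ifs with h3
    · exact hu.1.2 ω hω i' j' fun h4 => h' ⟨h4.1, h4.2.1, h3⟩
    · rfl
  · exact hu.2.1 i le_rfl (Nat.lt_succ_self i) j hj

end two

/-- **All jets of the target over labels of precision `≥ Pv r (b 0) - φ`**, from a context. -/
theorem jt_Q (K : ℕ) {h : ℝ} (hh : 0 < h) (hh1 : h ≤ 1) {ε : ℝ}
    (hε : 0 < ε) : ∃ δ : ℝ, 0 < δ ∧ ∀ {m : ℕ} {S : PCl m} {C₀ : ℝ} (_ : TmC S C₀)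
    {c : ℕ → Fin m} {r₀ r : ℕ} {b : ℕ → ℝ} {M : ℕ} {Pv : ℕ → ℝ → ℝ} {D n : ℕ → ℝ}
    {Ub ρ : ℝ} {rk : ℕ → ℝ} (_ : MshN S c r₀ r b M Pv D n Ub ρ rk)
    {q g₀ : ℝ} {rd N : ℕ → ℝ} (_ : 0 < q) (_ : 0 ≤ Pv r (b 0)) (_ : 0 < g₀)
    (_ : Pv r (b 0) + q + g₀ ≤ 1) (_ : ∀ i, r₀ ≤ i → i ≤ r → 0 ≤ rd i ∧ rd i + g₀ ≤ 1)
    (_ : ∀ i, r₀ ≤ i → i < r → n i + g₀ ≤ 1) (_ : Ub < 1) (_ : b 0 + q ≤ 1)
    (_ : ∀ i, r₀ ≤ i → i < r → TgtN r₀ i b M Pv D Ub ρ (N i) ∧ N i ≤ n i)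
    (_ : TgtN r₀ r b M Pv D Ub ρ (Pv r (b 0) + q))
    (_ : ∑ i ∈ Finset.Ico r₀ r, (Pv i (b M) - N i) ≤ δ * q)
    {lv : ℕ → ℝ} {σ₀ φ : ℝ} (_ : TwoN r₀ r (b 0) Ub σ₀ (fun l => Pv l (b 0)) n lv)
    (_ : 0 ≤ φ) (_ : φ < σ₀) (_ : q + σ₀ ≤ Ub - b 0) (_ : ∀ l, r₀ ≤ l → l < r → q + σ₀ ≤ lv l)
    {U₀ : Type} {Qu : Qt m U₀} {α γ : ∀ J : ℕ, Fam m J → Type}
    {f : ∀ (J : ℕ) (F : Fam m J), F.Ω → α J F} {y : ∀ (J : ℕ) (F : Fam m J), F.Ω → γ J F}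
    (_ : ∀ (J : ℕ) (F : Fam m J), ∃ φ : α J F → PtT F, ∀ ω, ptr F J ω = φ (f J F ω))
    (_ : Kn ((range r₀).image c) Ub (Ub - b 0) y) {a e₁ : ℝ} (_ : b M ≤ a) (_ : a ≤ 1)
    (_ : 0 < e₁) (_ : ∀ e : ℝ, 0 < e → e ≤ e₁ →
      FwL S f (vg a) y Qu c r₀ (r + 1) K (b 0) rd (fun l => Pv l (b 0))
        (ctx c r₀ r K (b 0) (Ub - b 0) n) e (δ * q))
    (_ : ∀ q' : ℝ, 0 ≤ q' → q' ≤ q →
      RawN S ((range r).image c) (c r) (Pv r (b 0)) q' h (δ * q))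
    (_ : ∀ e : ℝ, 0 < e → Bas S (fun J F A => ∃ (V : Type) (z : PtT F → V) (z' : LnT F → V)
      (g : V → ℕ → MvPolynomial (Option (Fin m)) ℝ),
      LbC F c r₀ (r + 1) K e (b 0) rd (fun l => Pv l (b 0)) A z z' g)),
    ∃ e₀ : ℝ, 0 < e₀ ∧ e₀ ≤ e₁ ∧ ∀ e : ℝ, 0 < e → e ≤ e₀ → ∀ (Jm : ℕ) (Pt : ℝ),
      Pv r (b 0) - φ ≤ Pt → F1 S f (vg a) y Qu (qJets m c r (r + 1) Jm (fun _ _ => b 0)
        (fun _ _ => Pt) (fun _ j => Pv r (b 0) + q - (j : ℕ) * b 0)) e (ε * q) := by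
  classical
  obtain ⟨δ, hδ, H⟩ := path_msh K hh hh1 (ε := ε / 2) (by positivity)
  refine ⟨δ, hδ, ?_⟩
  intro m S C₀ htm c r₀ r b M Pv D n Ub ρ rk HM q g₀ rd N hq hp0 hg₀ hpq hrd hn1 hU1 hbq hN hNr
    hsum lv σ₀ φ HT hφ0 hφ hqU hqlv U₀ Qu α γ f y hf hy a e₁ hba ha he₁ hctx hraw hlb
  have hb0 : b 0 ≤ b M := HM.bmono (Nat.zero_le M) le_rfl
  have hbU : b 0 < Ub := lt_of_le_of_lt hb0 HM.bU
  have e3 : b 0 + (Ub - b 0) = Ub := by ring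
  have hy0 : Kn0 ((range r₀).image c) Ub y := by
    intro J F
    obtain ⟨φ, hφ⟩ := hy J F
    exact ⟨fun x => ((φ x).1, (φ x).2.1), fun ω => by
      show ((φ (y J F ω)).1, (φ (y J F ω)).2.1) = _
      rw [hφ ω]⟩
  have hyT : ∀ (J : ℕ) (F : Fam m J), ∃ φ : γ J F → ℕ, ∀ ω, F.T ω = φ (y J F ω) := by
    intro J F
    obtain ⟨φ, hφ⟩ := hy J F
    exact ⟨fun x => (φ x).1, fun ω => (congrArg Prod.fst (hφ ω)).symm⟩
  obtain ⟨u₁, rw₀, hch, hrw₀⟩ := HM.chn 0 (Nat.zero_le M)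
  obtain ⟨e₀, he₀, he₀1, HP⟩ := H htm HM hq hp0 hg₀ hpq hrd hn1 hU1 hbq hN hNr hsum
    (Qu := Qu) (f := f) (y := y) (a := a) (e₁ := e₁) hf hy0 hba ha he₁ hctx hraw
  refine ⟨min e₀ ((σ₀ - φ) / 8), lt_min he₀ (by linarith), (min_le_left _ _).trans he₀1,
    fun e he hle Jm Pt hPt => ?_⟩
  have hle0 : e ≤ e₀ := hle.trans (min_le_left _ _)
  have hle1 : e ≤ (σ₀ - φ) / 8 := hle.trans (min_le_right _ _)
  refine path_F1 K htm HM.hr HM.b0 (hb0.trans hba) ha he (fun i x y => (hrd i x y).1) hyT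
    (HP e he hle0) (hlb e he) (j := Jm) (h' := ε / 4 * q)
    ((F1.pull htm (fun u => u) ?_ (tgt_jets_r (P := Pv r (b 0)) htm hch (hb0.trans hba) ha
      (by linarith) (by linarith) hφ0 hφ hPt HT.lv0 HT.h1 HT.h2 HT.h3 (by linarith)
      (fun l x y => by linarith [hqlv l x y]) hf (by rw [e3]; exact hy) Jm
      (h := ε / 4 * q) (by positivity))).mono hle1 le_rfl) (by nlinarith)
  intro K e J F A u hu
  refine ⟨hu.1, fun i x y j' hj' => ?_, hu.2.2⟩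
  have h1 := hu.2.1 i x y j' hj'
  obtain rfl : i = r := by omega
  exact h1

/-- **The field `jt`** over labels of precision `≥ Pv l (b 0) - φ` and any complexity. -/
theorem jt_cls_r (K : ℕ) {h : ℝ} (hh : 0 < h) (hh1 : h ≤ 1) {ε : ℝ}
    (hε : 0 < ε) : ∃ δ : ℝ, 0 < δ ∧ ∀ {m : ℕ} {S : PCl m} {C₀ : ℝ} (_ : TmC S C₀)
    {c : ℕ → Fin m} {r₀ r : ℕ} {b : ℕ → ℝ} {M : ℕ} {Pv : ℕ → ℝ → ℝ} {D n : ℕ → ℝ}
    {Ub ρ : ℝ} {rk : ℕ → ℝ} (_ : MshN S c r₀ r b M Pv D n Ub ρ rk)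
    {q g₀ : ℝ} {rd N : ℕ → ℝ} (_ : 0 < q) (_ : 0 ≤ Pv r (b 0)) (_ : 0 < g₀)
    (_ : Pv r (b 0) + q + g₀ ≤ 1) (_ : ∀ i, r₀ ≤ i → i ≤ r → 0 ≤ rd i ∧ rd i + g₀ ≤ 1)
    (_ : ∀ i, r₀ ≤ i → i < r → n i + g₀ ≤ 1) (_ : Ub < 1) (_ : b 0 + q ≤ 1)
    (_ : ∀ i, r₀ ≤ i → i < r → TgtN r₀ i b M Pv D Ub ρ (N i) ∧ N i ≤ n i)
    (_ : TgtN r₀ r b M Pv D Ub ρ (Pv r (b 0) + q))
    (_ : ∑ i ∈ Finset.Ico r₀ r, (Pv i (b M) - N i) ≤ δ * q)
    {lv : ℕ → ℝ} {σ₀ φ : ℝ} (_ : TwoN r₀ r (b 0) Ub σ₀ (fun l => Pv l (b 0)) n lv)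
    (_ : 0 ≤ φ) (_ : φ < σ₀) (_ : q + σ₀ ≤ Ub - b 0) (_ : ∀ l, r₀ ≤ l → l < r → q + σ₀ ≤ lv l)
    {α γ : ∀ J : ℕ, Fam m J → Type}
    {f : ∀ (J : ℕ) (F : Fam m J), F.Ω → α J F} {y : ∀ (J : ℕ) (F : Fam m J), F.Ω → γ J F}
    (_ : ∀ (J : ℕ) (F : Fam m J), ∃ φ : α J F → PtT F, ∀ ω, ptr F J ω = φ (f J F ω))
    (_ : Kn ((range r₀).image c) Ub (Ub - b 0) y) {a : ℝ} (_ : b M ≤ a) (_ : a ≤ 1)
    (_ : ∀ q' : ℝ, 0 ≤ q' → q' ≤ q →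
      RawN S ((range r).image c) (c r) (Pv r (b 0)) q' h (δ * q))
    (_ : ∀ e : ℝ, 0 < e → Bas S (fun J F A => ∃ (V : Type) (z : PtT F → V) (z' : LnT F → V)
      (g : V → ℕ → MvPolynomial (Option (Fin m)) ℝ),
      LbC F c r₀ (r + 1) K e (b 0) rd (fun l => Pv l (b 0)) A z z' g))
    {pq : ℕ → ℝ} (_ : ∀ l, r₀ ≤ l → l < r → Pv l (b 0) - φ ≤ pq l),
    ∃ e₀ : ℝ, 0 < e₀ ∧ ∀ e : ℝ, 0 < e → e ≤ e₀ → ∀ (K₀ K' : ℕ) (Pt rw : ℝ), 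
      Pv r (b 0) - φ ≤ Pt → 0 ≤ rw →
      Bas S (fun J F A => ∀ u₀ : F.Ω → ℕ → ℕ → ℤ, (qJets m c r₀ r (K + 2) (fun _ _ => b 0)
          (fun l _ => pq l) (fun l j' => n l - (j' : ℕ) * b 0)).P K₀ e J F A u₀ →
        ∀ (V : Type) (z : PtT F → V) (z' : LnT F → V)
        (G : V → MvPolynomial (Option (Fin m)) ℝ), LbOK F ((range r).image c) (c r) K'
          ⌊e * J⌋₊ J ⌊b 0 * J⌋₊ ⌊(rw + e) * J⌋₊ ⌊(Pt - e) * J⌋₊ A z z' G →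
        ∃ (V₁ : Type) (z₁ : F.Ω → V₁), Cl2 (f J F) (vg a J F) A z₁ ∧
          ∀ σ : ℝ, 0 < σ → σ ≤ 2 ^ ((Pv r (b 0) + q) * J) →
          CH (Pool.Agent.H49.Ent.cond F.p A True)
            (cod F ⌊b 0 * J⌋₊ 0 (K' + 1) σ (c r) z' G)
            (fun ω => (u₀ ω, (z₁ ω, y J F ω))) ≤ ε * q * J) := by
  obtain ⟨δ, hδ, H⟩ := jt_Q K hh hh1 (ε := ε / 2) (by positivity)
  refine ⟨δ, hδ, ?_⟩
  intro m S C₀ htm c r₀ r b M Pv D n Ub ρ rk HM q g₀ rd N hq hp0 hg₀ hpq hrd hn1 hU1 hbq hN hNr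
    hsum lv σ₀ φ HT hφ0 hφ hqU hqlv α γ f y hf hy a hba ha hraw hlb pq hpqf
  have hb0 : b 0 ≤ b M := HM.bmono (Nat.zero_le M) le_rfl
  have hδq : 0 < δ * q := by positivity
  have hσ₀ := HT.σ0
  have hbU : b 0 < Ub := lt_of_le_of_lt hb0 HM.bU
  have e3 : b 0 + (Ub - b 0) = Ub := by ring
  have hyT : ∀ (J : ℕ) (F : Fam m J), ∃ φ : γ J F → ℕ, ∀ ω, F.T ω = φ (y J F ω) := by
    intro J F
    obtain ⟨φ, hφ⟩ := hy J F
    exact ⟨fun x => (φ x).1, fun ω => (congrArg Prod.fst (hφ ω)).symm⟩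
  obtain ⟨u₁, rw₀, hch, hrw₀⟩ := HM.chn 0 (Nat.zero_le M)
  obtain ⟨e₀, he₀, he₀1, HP⟩ := H htm HM hq hp0 hg₀ hpq hrd hn1 hU1 hbq hN hNr hsum HT hφ0 hφ
    hqU hqlv
    (Qu := qJets m c r₀ r (K + 2) (fun _ _ => b 0) (fun l _ => pq l)
      (fun l j' => n l - (j' : ℕ) * b 0)) (f := f) (y := y) (a := a) (e₁ := (σ₀ - φ) / 8) hf hy
    hba ha (by linarith)
    (fun e h1 h2 => two_ctx_r htm hch HM.b0 (hb0.trans hba) ha (by linarith) (by linarith) hφ0 hφ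
      hpqf HT.lv0 HT.h1 HT.h2 HT.h3 HT.h4 HT.h5 hf (by rw [e3]; exact hy) le_rfl (Nat.le_succ r)
      hδq h1 h2 (fun i x y => (hrd i x y.le).1)) hraw hlb
  refine ⟨e₀, he₀, fun e he hle K₀ K' Pt rw hPt hrw => ?_⟩
  exact cod_Fj htm HM.b0 (hb0.trans hba) ha he hrw hyT K' (HP e he hle (K' + 1) Pt hPt)
    (by nlinarith) K₀

end Pool.AJW
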