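import Pool.Agent.H71.AVG.Rghb

/-!
# Labels without a Lipschitz condition

`CfB`: the own path has bounded coefficients. `cnt_cfb`: the number of values of its jets. `cod_Fj_p`,
`d_cls_p`, `jt_cls_p`: as `cod_Fj`, `d_cls_r`, `jt_cls_r`, for labels `LbP` with `CfB`.
-/

set_option autoImplicit false

namespace Pool.AJW

open Finset Real MvPolynomial
open Pool.Agent.H49.Ent Pool.Agent.H32.Dense Pool.STK Pool.KA Pool.KSAT Pool.K2S Pool.PB Pool.GEN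
open Pool.S6C Pool.RCD Pool.LA91 Pool.OWN68
open Pool.GRD (LbP)
open Pool.AVG71 (cod cod_few)
open Pool.CHT
open Pool.AVG5 (jt jt_le)
open Pool.PB.Trl (rt rt_mem t_rt)

/-- **The own path has coefficients of size at most `2 ^ (E J)`.** -/
def CfB {m J : ℕ} (F : Fam m J) (W : ℕ) (E : ℝ) (κ : Fin m) (A : F.Ω → Prop) {V : Type}
    (z' : LnT F → V) (G : V → MvPolynomial (Option (Fin m)) ℝ) : Prop :=
  ∀ ω, A ω → ∀ a : ℕ, |(dv W (fun s (_ : Fin m) => G (z' s)) κ (slam F W ω)).coeff a| ≤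
    2 ^ (E * J)

/-- **The number of values of the jets** of an own path with bounded coefficients. -/
theorem cnt_cfb (m K j : ℕ) {N w E : ℝ} (hw0 : 0 ≤ w) (hw1 : w ≤ 1) : ∃ M J₁ : ℕ, ∀ J ≥ J₁,
    ∀ (F : Fam m J) (κ : Fin m) (A : F.Ω → Prop) (V : Type) (z' : LnT F → V)
      (G : V → MvPolynomial (Option (Fin m)) ℝ), (∀ v, (G v).totalDegree ≤ K) →
      CfB F ⌊w * J⌋₊ E κ A z' G →
      (cnt F.p (fun ω => ⌊(2 : ℝ) ^ (N * J) *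
        ojet F κ j (G (z' (slam F ⌊w * J⌋₊ ω))) ω⌋) A : ℝ) ≤ Real.exp (M * J) := by
  have hl2 : 0 < Real.log 2 := Real.log_pos one_lt_two
  obtain ⟨C, hC⟩ : ∃ C : ℝ, C = (j.factorial : ℝ) * 2 ^ (K + 2) := ⟨_, rfl⟩
  have hC1 : 1 ≤ C := by
    rw [hC]
    refine one_le_mul_of_one_le_of_one_le ?_ (one_le_pow₀ (by norm_num))
    exact_mod_cast Nat.one_le_iff_ne_zero.2 (Nat.factorial_ne_zero j)
  obtain ⟨B, hB⟩ : ∃ B : ℝ, B = |N| + j + |E| := ⟨_, rfl⟩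
  have hB0 : 0 ≤ B := by
    rw [hB]
    positivity
  obtain ⟨M, hM⟩ : ∃ M : ℕ, M = ⌈B * Real.log 2 + 1⌉₊ := ⟨_, rfl⟩
  have hM1 : B * Real.log 2 + 1 ≤ M := by
    rw [hM]
    exact Nat.le_ceil _
  obtain ⟨J₁, hJ₁⟩ := exists_nat_ge (Real.log (5 * C))
  refine ⟨M, J₁, fun J hJ F κ A V z' G hdeg hcf => ?_⟩
  have hJ1 : (J₁ : ℝ) ≤ J := by exact_mod_cast hJ
  have hJ0 : (0 : ℝ) ≤ J := Nat.cast_nonneg J
  obtain ⟨W, hW⟩ : ∃ W, W = ⌊w * J⌋₊ := ⟨_, rfl⟩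
  rw [← hW] at hcf ⊢
  have hWJ : W ≤ J := by rw [hW]; exact floor_le hw1 J
  have h1 : ∀ ω, A ω → |((⌊(2 : ℝ) ^ (N * J) * ojet F κ j (G (z' (slam F W ω))) ω⌋ : ℤ) : ℝ)| ≤
      2 * C * 2 ^ (B * J) := by
    intro ω hω
    obtain ⟨P, hP⟩ : ∃ P, P = dv W (fun s (_ : Fin m) => G (z' s)) κ (slam F W ω) := ⟨_, rfl⟩
    have hPd : P.natDegree ≤ K + 1 := by
      rw [hP]
      exact natDegree_dv W (K := K) (G := fun s (_ : Fin m) => G (z' s))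
        (fun s _ => hdeg (z' s)) _ _
    have hθ : |rt F W ω| ≤ 1 := by
      have h2 := rt_mem F W ω
      rw [abs_le]
      constructor <;> linarith [h2.1, h2.2]
    have e1 : jt P (rt F W ω) j = ojet F κ j (G (z' (slam F W ω))) ω /
        ((j.factorial : ℝ) * (2 ^ W) ^ j) := by
      rw [hP]
      exact Pool.AVG57.ojet_tay F hWJ ω κ (fun s (_ : Fin m) => G (z' s)) j
    have h2 : |jt P (rt F W ω) j| ≤ 2 ^ (K + 2) * 2 ^ (E * J) :=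
      jt_le hPd hθ (by positivity) fun i _ => by
        rw [hP]
        exact hcf ω hω i
    have hf : (0 : ℝ) < (j.factorial : ℝ) * (2 ^ W) ^ j := by positivity
    have h3 : |ojet F κ j (G (z' (slam F W ω))) ω| ≤
        C * ((2 ^ W) ^ j * 2 ^ (E * J)) := by
      rw [e1, abs_div, abs_of_pos hf, div_le_iff₀ hf] at h2
      refine h2.trans (le_of_eq ?_)
      rw [hC]
      ring
    have h4 : (2 : ℝ) ^ (N * J) * ((2 ^ W) ^ j * 2 ^ (E * J)) ≤ 2 ^ (B * J) := by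
      have e2 : (2 : ℝ) ^ (N * J) * ((2 ^ W) ^ j * 2 ^ (E * J)) =
          2 ^ (N * J + (W * j + E * J)) := by
        rw [Real.rpow_add (by norm_num), Real.rpow_add (by norm_num), ← Nat.cast_mul,
          Real.rpow_natCast, pow_mul]
      rw [e2]
      refine Real.rpow_le_rpow_of_exponent_le (by norm_num) ?_
      have h5 : (W : ℝ) * j ≤ J * j :=
        mul_le_mul_of_nonneg_right (by exact_mod_cast hWJ) (Nat.cast_nonneg j)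
      have h6 : N * J ≤ |N| * J := mul_le_mul_of_nonneg_right (le_abs_self N) hJ0
      have h7 : E * J ≤ |E| * J := mul_le_mul_of_nonneg_right (le_abs_self E) hJ0
      rw [hB]
      nlinarith
    have h5 : |(2 : ℝ) ^ (N * J) * ojet F κ j (G (z' (slam F W ω))) ω| ≤ C * 2 ^ (B * J) := by
      rw [abs_mul, abs_of_pos (Real.rpow_pos_of_pos (by norm_num) _)]
      refine (mul_le_mul_of_nonneg_left h3 (by positivity)).trans ?_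
      have e3 : (2 : ℝ) ^ (N * J) * (C * ((2 ^ W) ^ j * 2 ^ (E * J))) =
          C * ((2 : ℝ) ^ (N * J) * ((2 ^ W) ^ j * 2 ^ (E * J))) := by ring
      rw [e3]
      exact mul_le_mul_of_nonneg_left h4 (by linarith)
    have h6 : (1 : ℝ) ≤ 2 ^ (B * J) := Real.one_le_rpow (by norm_num) (by positivity)
    have h7 : (1 : ℝ) ≤ C * 2 ^ (B * J) := one_le_mul_of_one_le_of_one_le hC1 h6
    have c1 := Int.floor_le ((2 : ℝ) ^ (N * J) * ojet F κ j (G (z' (slam F W ω))) ω)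
    have c2 := Int.lt_floor_add_one ((2 : ℝ) ^ (N * J) * ojet F κ j (G (z' (slam F W ω))) ω)
    rw [abs_le] at h5 ⊢
    constructor <;> linarith [h5.1, h5.2]
  have h2 := cnt_le_of_abs (p := F.p) (u := fun ω => ⌊(2 : ℝ) ^ (N * J) *
    ojet F κ j (G (z' (slam F W ω))) ω⌋) (A := A) (by positivity) h1
  refine h2.trans ?_
  have h6 : (1 : ℝ) ≤ 2 ^ (B * J) := Real.one_le_rpow (by norm_num) (by positivity)
  have h7 : (1 : ℝ) ≤ C * 2 ^ (B * J) := one_le_mul_of_one_le_of_one_le hC1 h6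
  have h8 : 2 * (2 * C * 2 ^ (B * J)) + 1 ≤ 5 * C * 2 ^ (B * J) := by linarith
  refine h8.trans ?_
  have e4 : (5 : ℝ) * C * 2 ^ (B * J) = Real.exp (Real.log (5 * C) + B * J * Real.log 2) := by
    rw [Real.exp_add, Real.exp_log (by linarith), Real.rpow_def_of_pos (by norm_num)]
    congr 2
    ring
  rw [e4]
  refine Real.exp_le_exp.2 ?_
  have h9 := mul_le_mul_of_nonneg_right hM1 hJ0
  have h10 : Real.log (5 * C) ≤ J := hJ₁.trans hJ1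
  nlinarith

/-- **The codes from the jets**, jointly. -/
theorem cod_Fj_p {m : ℕ} {S : PCl m} {C₀ : ℝ} (htm : TmC S C₀) {c : ℕ → Fin m} {r : ℕ}
    {w a P N e η δ : ℝ} (hw0 : 0 ≤ w) (hwa : w ≤ a) (ha : a ≤ 1)
    {U₀ : Type} {Qu : Qt m U₀} {α γ : ∀ J : ℕ, Fam m J → Type}
    {f : ∀ (J : ℕ) (F : Fam m J), F.Ω → α J F} {y : ∀ (J : ℕ) (F : Fam m J), F.Ω → γ J F}
    (hyT : ∀ (J : ℕ) (F : Fam m J), ∃ φ : γ J F → ℕ, ∀ ω, F.T ω = φ (y J F ω))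
    (K : ℕ) (hF : F1 S f (vg a) y Qu (qJets m c r (r + 1) (K + 1) (fun _ _ => w) (fun _ _ => P)
      (fun _ j => N - (j : ℕ) * w)) e η) (hη : η < δ) (K₀ : ℕ) (E : ℝ) :
    Bas S (fun J F A => ∀ u₀ : F.Ω → U₀, Qu.P K₀ e J F A u₀ →
      ∀ (V : Type) (z : PtT F → V) (z' : LnT F → V)
        (G : V → MvPolynomial (Option (Fin m)) ℝ), LbP F ((range r).image c) (c r) K
          J ⌊w * J⌋₊ ⌊(P - e) * J⌋₊ A z z' G → CfB F ⌊w * J⌋₊ E (c r) A z' G →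
        ∃ (V₁ : Type) (z₁ : F.Ω → V₁), Cl2 (f J F) (vg a J F) A z₁ ∧
          ∀ σ : ℝ, 0 < σ → σ ≤ 2 ^ (N * J) →
          CH (Pool.Agent.H49.Ent.cond F.p A True)
            (cod F ⌊w * J⌋₊ 0 (K + 1) σ (c r) z' G)
            (fun ω => (u₀ ω, (z₁ ω, y J F ω))) ≤ δ * J) := by
  classical
  choose MR JR hcR using fun j : ℕ => cnt_cfb m K j (N := N - (j : ℕ) * w) (w := w) (E := E) hw0
    (hwa.trans ha)
  obtain ⟨K₁, hK₁⟩ : ∃ K₁ : ℕ, K₁ = K₀ + K + ∑ j ∈ range (K + 2), MR j := ⟨_, rfl⟩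
  obtain ⟨J₁, hJ₁⟩ : ∃ J₁ : ℕ, J₁ = ∑ j ∈ range (K + 2), JR j := ⟨_, rfl⟩
  obtain ⟨L', hL'⟩ : ∃ L' : ℝ, L' = ((K + 1 + 1 : ℕ) : ℝ) *
    Real.log (2 * (2 ^ (2 * (K + 1) + 1) + 1) + 1) := ⟨_, rfl⟩
  have hδ0 : 0 < δ - η := by linarith
  obtain ⟨J₂, hJ₂⟩ := exists_nat_ge (L' / (δ - η))
  refine Bas.mono (max J₁ J₂) ((hF K₁).and (Pool.GRW.tmc_bas htm one_pos)) ?_
  rintro J hJ F A ⟨HPA, hA, -⟩ u₀ hu₀ V z z' G hlb hcf
  have hJ1 : J₁ ≤ J := (le_max_left _ _).trans hJ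
  have hJ2 : (J₂ : ℝ) ≤ J := by exact_mod_cast (le_max_right _ _).trans hJ
  have hJ0 : (0 : ℝ) ≤ J := Nat.cast_nonneg J
  have f1 : L' ≤ (δ - η) * J := by
    have := hJ₂.trans hJ2
    rw [div_le_iff₀ hδ0] at this
    linarith
  obtain ⟨u', hu'⟩ : ∃ u' : F.Ω → ℕ → ℕ → ℤ, u' = fun ω (l j : ℕ) =>
    if r ≤ l ∧ l < r + 1 ∧ j ≤ K + 1 then ⌊(2 : ℝ) ^ ((N - (j : ℕ) * w) * J) *
      ojet F (c r) j (G (z' (slam F ⌊w * J⌋₊ ω))) ω⌋ else 0 := ⟨_, rfl⟩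
  obtain ⟨q', hq'⟩ : ∃ q' : F.Ω → ℝ, q' = Pool.Agent.H49.Ent.cond F.p A True := ⟨_, rfl⟩
  have hq'l : IsLaw q' := by
    rw [hq']
    exact isLaw_cond F.isLaw hA
  have h0 := hq'l.nonneg
  obtain ⟨V₁, z₁, hz₁, h1⟩ := HPA u₀ u' (Qu.mono (by omega) le_rfl hu₀) ⟨fun i x y j' hj' => by
      obtain rfl : i = r := by omega
      have e1 : (fun ω => u' ω i j') = fun ω => ⌊(2 : ℝ) ^ ((N - (j' : ℕ) * w) * J) *
          ojet F (c i) j' (G (z' (slam F ⌊w * J⌋₊ ω))) ω⌋ := by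
        funext ω
        rw [hu']
        exact if_pos ⟨x, y, hj'⟩
      have hMj : MR j' ≤ ∑ j ∈ range (K + 2), MR j :=
        Finset.single_le_sum (f := MR) (fun i _ => Nat.zero_le _) (Finset.mem_range.2 (by omega))
      have hJj : JR j' ≤ ∑ j ∈ range (K + 2), JR j :=
        Finset.single_le_sum (f := JR) (fun i _ => Nat.zero_le _) (Finset.mem_range.2 (by omega))
      refine ⟨?_, V, z, z', G, hlb.mono (Finset.Subset.refl _) (by omega) le_rfl,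
        fun ω _ => by rw [hu']; exact if_pos ⟨x, y, hj'⟩⟩
      show (cnt F.p (fun ω => u' ω i j') A : ℝ) ≤ _
      rw [e1]
      refine (hcR j' J (by omega) F _ A V z' G hlb.deg hcf).trans
        (Real.exp_le_exp.2 (mul_le_mul_of_nonneg_right ?_ hJ0))
      exact_mod_cast (by omega : MR j' ≤ K₁), fun ω _ i j' hij => by
      show u' ω i j' = 0
      rw [hu']
      exact if_neg hij⟩
  refine ⟨V₁, z₁, hz₁, fun σ hσ0 hσ => ?_⟩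
  rw [← hq'] at h1 ⊢
  have hWJ : ⌊w * J⌋₊ ≤ J := floor_le (hwa.trans ha) J
  obtain ⟨Y, hY⟩ : ∃ Y : F.Ω → U₀ × (V₁ × γ J F), Y = fun ω =>
    (u₀ ω, (z₁ ω, y J F ω)) := ⟨_, rfl⟩
  rw [← hY] at h1 ⊢
  obtain ⟨φT, hφT⟩ := hyT J F
  have k2 : CH q' (cod F ⌊w * J⌋₊ 0 (K + 1) σ (c r) z' G) (fun ω => (u' ω, Y ω)) ≤ L' := by
    rw [hL']
    refine cod_few (w := w) (N := N) hw0 hWJ hσ0 hσ (fun v => ?_) hq'l
      (fun ω => (u' ω, Y ω)) 0 (s := fun j => N - (j : ℕ) * w) (fun _ _ _ => le_rfl)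
      fun ω ω' _ _ e => ⟨?_, fun j hj hj' => ?_⟩
    · exact Nat.succ_le_succ (hlb.deg v)
    · have e1 := (Prod.ext_iff.mp e).2
      rw [hY] at e1
      simp only [Prod.mk.injEq] at e1
      rw [hφT, hφT, e1.2.2]
    · have e2 := congrFun (congrFun (Prod.ext_iff.mp e).1 r) j
      rw [hu'] at e2
      simp only [if_pos (show r ≤ r ∧ r < r + 1 ∧ j ≤ K + 1 from ⟨le_rfl, Nat.lt_succ_self r, hj'⟩)]
        at e2
      exact e2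
  have s1 := CH_le_add h0 (cod F ⌊w * J⌋₊ 0 (K + 1) σ (c r) z' G) u' Y
  have e4 : δ * J = η * J + (δ - η) * J := by ring
  rw [e4]
  linarith


/-- **The codes of order `≥ 1`** of the own path over labels of the window `w` of any precision
`P₂ ≥ p r` and complexity `K' ≤ K`. -/
theorem d_cls_p (K : ℕ) {h : ℝ} (hh : 0 < h) (hh1 : h ≤ 1) {ε : ℝ}
    (hε : 0 < ε) : ∃ δ : ℝ, 0 < δ ∧ ∀ {m : ℕ} {S : PCl m} {C₀ : ℝ} (_ : TmC S C₀)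
    {c : ℕ → Fin m} {r₀ r : ℕ} {v w lam q ρ g₀ : ℝ} {p s n lv rd : ℕ → ℝ}
    (_ : JetW S c r₀ r v w lam q ρ g₀ p s n lv rd K) (_ : (r + 1) * ρ ≤ δ * q)
    {U₀ : Type} {Qu : Qt m U₀} {α γ : ∀ J : ℕ, Fam m J → Type}
    {f : ∀ (J : ℕ) (F : Fam m J), F.Ω → α J F} {y : ∀ (J : ℕ) (F : Fam m J), F.Ω → γ J F}
    (_ : ∀ (J : ℕ) (F : Fam m J), ∃ φ : α J F → PtT F, ∀ ω, ptr F J ω = φ (f J F ω))
    (_ : Kn ((range r₀).image c) (v + lam) lam y) {a e₁ : ℝ} (_ : w ≤ a) (_ : a ≤ 1)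
    (_ : 0 < e₁) (_ : ∀ e : ℝ, 0 < e → e ≤ e₁ →
      FwL S f (vg a) y Qu c r₀ (r + 1) K v rd p (ctx c r₀ r K v lam n) e (δ * q))
    (_ : ∀ q' : ℝ, 0 ≤ q' → q' ≤ q → RawN S ((range r).image c) (c r) (p r) q' h (δ * q))
    (_ : ∀ e : ℝ, 0 < e → Bas S (fun J F A => ∃ (V : Type) (z : PtT F → V) (z' : LnT F → V)
      (g : V → ℕ → MvPolynomial (Option (Fin m)) ℝ), LbC F c r₀ (r + 1) K e v rd p A z z' g))
    {N : ℝ} (_ : N ≤ p r + q + (w - v)),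
    ∃ e₀ : ℝ, 0 < e₀ ∧ e₀ ≤ e₁ ∧ ∀ e : ℝ, 0 < e → e ≤ e₀ → ∀ (K₀ K' : ℕ) (P₂ E : ℝ),
      K' ≤ K → p r ≤ P₂ →
      Bas S (fun J F A => ∀ u₀ : F.Ω → U₀, Qu.P K₀ e J F A u₀ →
        ∀ (V : Type) (z : PtT F → V) (z' : LnT F → V)
        (G : V → MvPolynomial (Option (Fin m)) ℝ), LbP F ((range r).image c) (c r) K'
          J ⌊w * J⌋₊ ⌊(P₂ - e) * J⌋₊ A z z' G → CfB F ⌊w * J⌋₊ E (c r) A z' G →
        ∃ (V₁ : Type) (z₁ : F.Ω → V₁), Cl2 (f J F) (vg a J F) A z₁ ∧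
          ∀ σ : ℝ, 0 < σ → σ ≤ 2 ^ (N * J) →
          CH (Pool.Agent.H49.Ent.cond F.p A True)
            (cod F ⌊w * J⌋₊ 1 (K' + 1) σ (c r) z' G)
            (fun ω => (u₀ ω, (z₁ ω, y J F ω))) ≤ ε * q * J) := by
  classical
  obtain ⟨δ, hδ, H⟩ := jet_wc K hh hh1 (ε := ε / 2) (by positivity)
  refine ⟨δ, hδ, ?_⟩
  intro m S C₀ htm c r₀ r v w lam q ρ g₀ p s n lv rd HW hρδ U₀ Qu α γ f y hf hy a e₁ hwa ha he₁
    hctx hraw hlb N hN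
  have hq := HW.q0
  have hv0 := HW.v0
  have hvw := HW.vw
  have hw0 : 0 ≤ w := hv0.trans hvw
  have hyT : ∀ (J : ℕ) (F : Fam m J), ∃ φ : γ J F → ℕ, ∀ ω, F.T ω = φ (y J F ω) := by
    intro J F
    obtain ⟨φ, hφ⟩ := hy J F
    exact ⟨fun x => (φ x).1, fun ω => (congrArg Prod.fst (hφ ω)).symm⟩
  obtain ⟨e₀, he₀, he₀1, HP⟩ := H htm HW hρδ hf hy hwa ha he₁ hctx hraw
  refine ⟨e₀, he₀, he₀1, fun e he hle K₀ K' P₂ E hK' hP₂ => ?_⟩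
  -- the number of values of the jets
  choose MR JR hcR using fun j : ℕ => cnt_cfb m K' (j + 1)
    (N := p r + q - ((j + 1 : ℕ) : ℝ) * v) (w := w) (E := E) hw0 (hwa.trans ha)
  obtain ⟨K₁, hK₁⟩ : ∃ K₁ : ℕ, K₁ = K₀ + K + ∑ j ∈ range (K + 2), MR j := ⟨_, rfl⟩
  obtain ⟨J₁, hJ₁⟩ : ∃ J₁ : ℕ, J₁ = ∑ j ∈ range (K + 2), JR j := ⟨_, rfl⟩
  obtain ⟨L', hL'⟩ : ∃ L' : ℝ, L' = ((K' + 1 + 1 : ℕ) : ℝ) *
    Real.log (2 * (2 ^ (2 * (K' + 1) + 1) + 1) + 1) := ⟨_, rfl⟩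
  obtain ⟨J₂, hJ₂⟩ := exists_nat_ge (L' / (ε / 2 * q))
  refine Bas.mono (max J₁ J₂) (((HP e he hle).2 K₁ P₂ hP₂).and ((hlb e he).and
    (Pool.GRW.tmc_bas htm one_pos))) ?_
  rintro J hJ F A ⟨HPA, ⟨V', zz, zz', gg, hlbv⟩, hA, -⟩ u₀ hu₀ V z z' G hl hcf
  have hJ1 : J₁ ≤ J := (le_max_left _ _).trans hJ
  have hJ2 : (J₂ : ℝ) ≤ J := by exact_mod_cast (le_max_right _ _).trans hJ
  have hJ0 : (0 : ℝ) ≤ J := Nat.cast_nonneg J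
  have f1 : L' ≤ ε / 2 * q * J := by
    have := hJ₂.trans hJ2
    rw [div_le_iff₀ (by positivity)] at this
    linarith
  obtain ⟨u', hu'⟩ : ∃ u' : F.Ω → Fin (K + 2) → ℤ, u' = fun ω (j : Fin (K + 2)) =>
    ⌊(2 : ℝ) ^ ((p r + q - (((j : ℕ) + 1 : ℕ) : ℝ) * v) * J) *
      ojet F (c r) ((j : ℕ) + 1) (G (z' (slam F ⌊w * J⌋₊ ω))) ω⌋ := ⟨_, rfl⟩
  obtain ⟨V₁, z₁, hz₁, h1⟩ := HPA V' zz zz' gg hlbv u₀
    (Qu.mono (by omega) le_rfl hu₀) u' (fun j => by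
      have hj2 := j.2
      have hMj : MR j ≤ ∑ j ∈ range (K + 2), MR j :=
        Finset.single_le_sum (f := MR) (fun i _ => Nat.zero_le _) (Finset.mem_range.2 hj2)
      have hJj : JR j ≤ ∑ j ∈ range (K + 2), JR j :=
        Finset.single_le_sum (f := JR) (fun i _ => Nat.zero_le _) (Finset.mem_range.2 hj2)
      refine ⟨?_, V, z, z', G, hl.mono (Finset.Subset.refl _) (by omega) le_rfl,
        fun ω _ => by rw [hu']⟩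
      show (cnt F.p (fun ω => u' ω j) A : ℝ) ≤ _
      rw [hu']
      refine (hcR j J (by omega) F _ A V z' G hl.deg hcf).trans
        (Real.exp_le_exp.2 (mul_le_mul_of_nonneg_right ?_ hJ0))
      exact_mod_cast (by omega : MR j ≤ K₁))
  refine ⟨V₁, z₁, hz₁, fun σ hσ0 hσ => ?_⟩
  obtain ⟨q', hq'⟩ : ∃ q' : F.Ω → ℝ, q' = Pool.Agent.H49.Ent.cond F.p A True := ⟨_, rfl⟩
  have hq'l : IsLaw q' := by
    rw [hq']
    exact isLaw_cond F.isLaw hA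
  have h0 := hq'l.nonneg
  rw [← hq'] at h1 ⊢
  have hWJ : ⌊w * J⌋₊ ≤ J := floor_le (hwa.trans ha) J
  obtain ⟨Y, hY⟩ : ∃ Y : F.Ω → U₀ × (V₁ × γ J F), Y = fun ω =>
    (u₀ ω, (z₁ ω, y J F ω)) := ⟨_, rfl⟩
  rw [← hY] at h1 ⊢
  obtain ⟨φT, hφT⟩ := hyT J F
  have k1 : CH q' u' Y ≤ ε / 2 * q * J := by
    refine le_trans (CH_mono_left h0 fun ω ω' _ _ e => ?_) h1
    exact (Prod.ext_iff.mp (Prod.ext_iff.mp e).1).2
  have k2 : CH q' (cod F ⌊w * J⌋₊ 1 (K' + 1) σ (c r) z' G) (fun ω => (u' ω, Y ω)) ≤ L' := by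
    rw [hL']
    refine cod_few (w := w) (N := N) hw0 hWJ hσ0 hσ (fun v => ?_) hq'l
      (fun ω => (u' ω, Y ω)) 1 (s := fun j => p r + q - (j : ℕ) * v) (fun j hj _ => ?_)
      fun ω ω' _ _ e => ⟨?_, fun j hj hj' => ?_⟩
    · exact Nat.succ_le_succ (hl.deg v)
    · have h2 : (1 : ℝ) ≤ j := by exact_mod_cast hj
      have h3 : 1 * (w - v) ≤ j * (w - v) := mul_le_mul_of_nonneg_right h2 (by linarith)
      show N - j * w ≤ p r + q - j * v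
      linarith
    · have e1 := (Prod.ext_iff.mp e).2
      rw [hY] at e1
      simp only [Prod.mk.injEq] at e1
      rw [hφT, hφT, e1.2.2]
    · have e2 := congrFun (Prod.ext_iff.mp e).1 ⟨j - 1, by omega⟩
      rw [hu'] at e2
      have e3 : j - 1 + 1 = j := by omega
      dsimp only at e2
      rw [e3] at e2
      exact e2
  have s1 := CH_le_add h0 (cod F ⌊w * J⌋₊ 1 (K' + 1) σ (c r) z' G) u' Y
  have e4 : ε * q * J = ε / 2 * q * J + ε / 2 * q * J := by ring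
  rw [e4]
  linarith

/-- **The field `jt`** over labels of precision `≥ Pv l (b 0) - φ` and any complexity. -/
theorem jt_cls_p (K : ℕ) {h : ℝ} (hh : 0 < h) (hh1 : h ≤ 1) {ε : ℝ}
    (hε : 0 < ε) : ∃ δ : ℝ, 0 < δ ∧ ∀ {m : ℕ} {S : PCl m} {C₀ : ℝ} (_ : TmC S C₀)
    {c : ℕ → Fin m} {r₀ r : ℕ} {b : ℕ → ℝ} {M : ℕ} {Pv : ℕ → ℝ → ℝ} {D n : ℕ → ℝ}
    {Ub ρ : ℝ} {rk : ℕ → ℝ} (_ : MshN S c r₀ r b M Pv D n Ub ρ rk)
    {q g₀ : ℝ} {rd N : ℕ → ℝ} (_ : 0 < q) (_ : 0 ≤ Pv r (b 0)) (_ : 0 < g₀)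
    (_ : Pv r (b 0) + q + g₀ ≤ 1) (_ : ∀ i, r₀ ≤ i → i ≤ r → 0 ≤ rd i ∧ rd i + g₀ ≤ 1)
    (_ : ∀ i, r₀ ≤ i → i < r → n i + g₀ ≤ 1) (_ : Ub < 1) (_ : b 0 + q ≤ 1)
    (_ : ∀ i, r₀ ≤ i → i < r → TgtN r₀ i b M Pv D Ub ρ (N i) ∧ N i ≤ n i)
    (_ : TgtN r₀ r b M Pv D Ub ρ (Pv r (b 0) + q))
    (_ : ∑ i ∈ Finset.Ico r₀ r, (Pv i (b M) - N i) ≤ δ * q)
    {lv : ℕ → ℝ} {σ₀ φ : ℝ} (_ : TwoN r₀ r (b 0) Ub σ₀ (fun l => Pv l (b 0)) n lv)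
    (_ : 0 ≤ φ) (_ : φ < σ₀) (_ : q + σ₀ ≤ Ub - b 0) (_ : ∀ l, r₀ ≤ l → l < r → q + σ₀ ≤ lv l)
    {α γ : ∀ J : ℕ, Fam m J → Type}
    {f : ∀ (J : ℕ) (F : Fam m J), F.Ω → α J F} {y : ∀ (J : ℕ) (F : Fam m J), F.Ω → γ J F}
    (_ : ∀ (J : ℕ) (F : Fam m J), ∃ φ : α J F → PtT F, ∀ ω, ptr F J ω = φ (f J F ω))
    (_ : Kn ((range r₀).image c) Ub (Ub - b 0) y) {a : ℝ} (_ : b M ≤ a) (_ : a ≤ 1)
    (_ : ∀ q' : ℝ, 0 ≤ q' → q' ≤ q →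
      RawN S ((range r).image c) (c r) (Pv r (b 0)) q' h (δ * q))
    (_ : ∀ e : ℝ, 0 < e → Bas S (fun J F A => ∃ (V : Type) (z : PtT F → V) (z' : LnT F → V)
      (g : V → ℕ → MvPolynomial (Option (Fin m)) ℝ),
      LbC F c r₀ (r + 1) K e (b 0) rd (fun l => Pv l (b 0)) A z z' g))
    {pq : ℕ → ℝ} (_ : ∀ l, r₀ ≤ l → l < r → Pv l (b 0) - φ ≤ pq l),
    ∃ e₀ : ℝ, 0 < e₀ ∧ ∀ e : ℝ, 0 < e → e ≤ e₀ → ∀ (K₀ K' : ℕ) (Pt E : ℝ),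
      Pv r (b 0) - φ ≤ Pt →
      Bas S (fun J F A => ∀ u₀ : F.Ω → ℕ → ℕ → ℤ, (qJets m c r₀ r (K + 2) (fun _ _ => b 0)
          (fun l _ => pq l) (fun l j' => n l - (j' : ℕ) * b 0)).P K₀ e J F A u₀ →
        ∀ (V : Type) (z : PtT F → V) (z' : LnT F → V)
        (G : V → MvPolynomial (Option (Fin m)) ℝ), LbP F ((range r).image c) (c r) K'
          J ⌊b 0 * J⌋₊ ⌊(Pt - e) * J⌋₊ A z z' G → CfB F ⌊b 0 * J⌋₊ E (c r) A z' G →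
        ∃ (V₁ : Type) (z₁ : F.Ω → V₁), Cl2 (f J F) (vg a J F) A z₁ ∧
          ∀ σ : ℝ, 0 < σ → σ ≤ 2 ^ ((Pv r (b 0) + q) * J) →
          CH (Pool.Agent.H49.Ent.cond F.p A True)
            (cod F ⌊b 0 * J⌋₊ 0 (K' + 1) σ (c r) z' G)
            (fun ω => (u₀ ω, (z₁ ω, y J F ω))) ≤ ε * q * J) := by
  obtain ⟨δ, hδ, H⟩ := jt_Q K hh hh1 (ε := ε / 2) (by positivity)
  refine ⟨δ, hδ, ?_⟩
  intro m S C₀ htm c r₀ r b M Pv D n Ub ρ rk HM q g₀ rd N hq hp0 hg₀ hpq hrd hn1 hU1 hbq hN hNr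
    hsum lv σ₀ φ HT hφ0 hφ hqU hqlv α γ f y hf hy a hba ha hraw hlb pq hpqf
  have hb0 : b 0 ≤ b M := HM.bmono (Nat.zero_le M) le_rfl
  have hδq : 0 < δ * q := by positivity
  have hσ₀ := HT.σ0
  have hbU : b 0 < Ub := lt_of_le_of_lt hb0 HM.bU
  have e3 : b 0 + (Ub - b 0) = Ub := by ring
  have hyT : ∀ (J : ℕ) (F : Fam m J), ∃ φ : γ J F → ℕ, ∀ ω, F.T ω = φ (y J F ω) := by
    intro J F
    obtain ⟨φ, hφ⟩ := hy J F
    exact ⟨fun x => (φ x).1, fun ω => (congrArg Prod.fst (hφ ω)).symm⟩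
  obtain ⟨u₁, rw₀, hch, hrw₀⟩ := HM.chn 0 (Nat.zero_le M)
  obtain ⟨e₀, he₀, he₀1, HP⟩ := H htm HM hq hp0 hg₀ hpq hrd hn1 hU1 hbq hN hNr hsum HT hφ0 hφ
    hqU hqlv
    (Qu := qJets m c r₀ r (K + 2) (fun _ _ => b 0) (fun l _ => pq l)
      (fun l j' => n l - (j' : ℕ) * b 0)) (f := f) (y := y) (a := a) (e₁ := (σ₀ - φ) / 8) hf hy
    hba ha (by linarith)
    (fun e h1 h2 => two_ctx_r htm hch HM.b0 (hb0.trans hba) ha (by linarith) (by linarith) hφ0 hφ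
      hpqf HT.lv0 HT.h1 HT.h2 HT.h3 HT.h4 HT.h5 hf (by rw [e3]; exact hy) le_rfl (Nat.le_succ r)
      hδq h1 h2 (fun i x y => (hrd i x y.le).1)) hraw hlb
  refine ⟨e₀, he₀, fun e he hle K₀ K' Pt E hPt => ?_⟩
  exact cod_Fj_p htm HM.b0 (hb0.trans hba) ha hyT K' (HP e he hle (K' + 1) Pt hPt)
    (by nlinarith) K₀ E


end Pool.AJW
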