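import Pool.Agent.H96.AVG.Vlb
import Pool.Agent.H68.OWN.Jr
import Pool.Agent.H68.OWN.Na

/-!
# The jets of order at least two of a slow coordinate

`jetG_slow`: the jets of order at least `2` of the first rough coordinate are few bits, at the windows
of `G` near a point where its slope is less than `2`: they are natural at an earlier window.
-/

set_option autoImplicit false

namespace Pool.AVG71

open Finset Real MvPolynomial
open Pool.Agent.H49.Ent Pool.Agent.H32.Dense Pool.STK Pool.KA Pool.KSAT Pool.K2S Pool.PB Pool.S6C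
  Pool.GEN Pool.RCD Pool.LA91
open Pool.OWN83 Pool.AVG96
open Pool.OWN68

variable {m : ℕ} {α γ : ∀ J : ℕ, Fam m J → Type}
  {f : ∀ (J : ℕ) (F : Fam m J), F.Ω → α J F} {y : ∀ (J : ℕ) (F : Fam m J), F.Ω → γ J F}
  {S : PCl m} {c : ℕ → Fin m} {r₀ r : ℕ} {s A B Λ : ℝ} {sn : ℝ → ℕ → ℝ} {G : Set ℝ}

/-- The trivial quantity is few bits. -/
theorem F1.unit {U : Type} {β : ∀ J : ℕ, Fam m J → Type}
    {g : ∀ (J : ℕ) (F : Fam m J), F.Ω → β J F} {Q : Qt m U}
    (hpos : ∀ (τ : ℝ) (J : ℕ) (F : Fam m J) (A : F.Ω → Prop), S.St τ J F A → 0 < Pe F.p A)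
    {e η : ℝ} (hη : 0 ≤ η) : F1 S f g y Q (Qt.fn fun _ _ _ => ()) e η := by
  intro K
  refine Bas.mono 0 (pos_bas hpos) ?_
  rintro J - F A' hA' u u' - -
  refine ⟨Unit, fun _ => (), ⟨⟨fun _ => (), fun _ _ => rfl⟩, fun _ => (), fun _ _ => rfl⟩, ?_⟩
  rw [CH_eq_zero (isLaw_cond F.isLaw hA').nonneg (fun ω ω' _ _ _ => rfl)]
  positivity

/-- **The jets of order at least two of a slow coordinate are few bits.** -/
theorem jetG_slow (h : GCh S f y c r₀ r s A B Λ sn G) (hr : r₀ ≤ r) {g : ℝ} (hgA : A < g)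
    (hgB : g < B) {Sl : ℕ → ℝ} (hS : SlpG sn r₀ r G g Sl) (h2 : Sl r₀ < 2) :
    JetG S f y (Qt.fn fun _ _ _ => ()) c r₀ sn G g := by
  intro e C he hC
  obtain ⟨C₀, htm⟩ := h.tm
  obtain ⟨p₀, lam, hp1, hlam, hBp, hkn⟩ := h.kn
  have hΛ := h.Λ0
  have hA0 := h.A0
  have hS0 := hS.nn r₀ le_rfl hr
  obtain ⟨D, hD⟩ : ∃ D, D = 2 - Sl r₀ := ⟨_, rfl⟩
  have hD0 : 0 < D := by linarith
  have hD2 : D ≤ 2 := by linarith
  -- the ratio
  obtain ⟨M, hM⟩ : ∃ M : ℝ, M = 16 * C / D + 4 := ⟨_, rfl⟩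
  have hM4 : 4 ≤ M := by
    rw [hM]
    have : 0 ≤ 16 * C / D := by positivity
    linarith
  have hMC : C ≤ D / 16 * M := by
    rw [hM, mul_add]
    have e1 : D / 16 * (16 * C / D) = C := by field_simp
    rw [e1]
    linarith
  have hM0 : 0 < M := by linarith
  obtain ⟨ρ₁, hρ₁, H1⟩ := hS.sl r₀ le_rfl hr (D / 16) (by positivity)
  obtain ⟨ρ₂, hρ₂, H2⟩ := hS.gap (1 / 4) (by norm_num)
  -- the smallness
  obtain ⟨τ, hτ⟩ : ∃ τ : ℝ, τ = min (min ρ₁ ρ₂) (min (min (g - A) (B - g)) (Λ / 8)) := ⟨_, rfl⟩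
  have hτ0 : 0 < τ := by
    rw [hτ]
    refine lt_min (lt_min hρ₁ hρ₂) (lt_min (lt_min (by linarith) (by linarith)) (by positivity))
  have t1 : τ ≤ ρ₁ := by rw [hτ]; exact (min_le_left _ _).trans (min_le_left _ _)
  have t2 : τ ≤ ρ₂ := by rw [hτ]; exact (min_le_left _ _).trans (min_le_right _ _)
  have t3 : τ ≤ g - A := by
    rw [hτ]; exact (min_le_right _ _).trans ((min_le_left _ _).trans (min_le_left _ _))
  have t4 : τ ≤ B - g := by
    rw [hτ]; exact (min_le_right _ _).trans ((min_le_left _ _).trans (min_le_right _ _))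
  have t5 : τ ≤ Λ / 8 := by rw [hτ]; exact (min_le_right _ _).trans (min_le_right _ _)
  refine ⟨τ / M, by positivity, fun R hR hRρ w hw w1 w2 => ⟨sn w r₀ + C * R, le_rfl, ?_⟩⟩
  obtain ⟨t, ht⟩ : ∃ t, t = M * R := ⟨_, rfl⟩
  have ht0 : 0 < t := by rw [ht]; positivity
  have htτ : t < τ := by
    rw [lt_div_iff₀ hM0] at hRρ
    rw [ht]
    linarith
  have hRt : 4 * R ≤ t := by
    rw [ht]
    exact mul_le_mul_of_nonneg_right hM4 hR.le
  have hCt : C * R ≤ D / 16 * t := by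
    rw [ht, ← mul_assoc]
    exact mul_le_mul_of_nonneg_right hMC hR.le
  -- the earlier window
  obtain ⟨v, hv, v1, v2⟩ := H2 t ht0 (htτ.trans_le t2) (g - t / 2) (by linarith) (by linarith)
  have hvw : v ≤ w := by linarith
  have hwv : t / 4 ≤ w - v := by linarith
  have hwv' : w - v ≤ t := by linarith
  have hAv : A ≤ v := by linarith
  have hwB : w < B := by linarith
  have hv0 : 0 ≤ v := by linarith
  have hsl := abs_le.1 (H1 t ht0 (htτ.trans_le t1) v hv w hw (by linarith) hvw (by linarith))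
  have hsl2 : sn w r₀ ≤ sn v r₀ + Sl r₀ * (w - v) + D / 16 * t := by linarith [hsl.2]
  have hslt : Sl r₀ * (w - v) ≤ 2 * t := by
    have h3 : Sl r₀ * (w - v) ≤ Sl r₀ * t := mul_le_mul_of_nonneg_left hwv' hS0
    have h4 : Sl r₀ * t ≤ 2 * t := mul_le_mul_of_nonneg_right h2.le ht0.le
    linarith
  have hsl3 : -(D / 16 * t) ≤ sn w r₀ - sn v r₀ := by
    have h3 : 0 ≤ Sl r₀ * (w - v) := mul_nonneg hS0 (by linarith)
    linarith [hsl.1]
  have hDt : D / 16 * t ≤ t / 8 := by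
    have := mul_le_mul_of_nonneg_right hD2 ht0.le
    linarith
  obtain ⟨u₁, rd, hrd, hch⟩ := h.ch w hw (by linarith) hwB
  have hbase := hch.base
  have hw1 : w < 1 := hch.u0
  -- the labels of the earlier window
  have hatt : ∃ rk : ℝ, 0 ≤ rk ∧ Att S ((range r₀).image c) (c r₀) v (sn v r₀) rk := by
    rcases Nat.lt_or_ge r₀ r with h7 | h7
    · obtain ⟨u₁', rd', hrd', hch'⟩ := h.ch v hv hAv (by linarith)
      exact ⟨rd' r₀, hrd' r₀ le_rfl h7, hch'.att r₀ le_rfl h7⟩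
    · obtain rfl : r₀ = r := by omega
      obtain ⟨rk, E, h2, -, h3, -⟩ := h.att v hv hAv (by linarith)
      exact ⟨rk, h2, h3 rfl⟩
  obtain ⟨rk, hrk, hatt⟩ := hatt
  obtain ⟨σ, hσ⟩ : ∃ σ, σ = D / 16 * t := ⟨_, rfl⟩
  have hσ0 : 0 < σ := by rw [hσ]; positivity
  rw [← hσ] at hCt hsl2 hsl3 hDt
  refine ⟨⟨2, fun _ => 0, σ / 4, by positivity, fun _ => le_rfl, by
    rw [Finset.sum_const_zero]
    positivity, fun j hj hj2 => absurd hj (by omega), fun j _ hj2 η hη => ?_⟩, 1, one_pos,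
    F1.unit h.pos (by positivity)⟩
  have hj2' : (2 : ℝ) ≤ j := by exact_mod_cast hj2
  have hjv : 2 * (w - v) ≤ j * (w - v) := mul_le_mul_of_nonneg_right hj2' (by linarith)
  have hD4 : 4 * σ ≤ D * (w - v) := by
    have h3 : D * (t / 4) ≤ D * (w - v) := mul_le_mul_of_nonneg_left hwv hD0.le
    have h4 : D * (t / 4) = 4 * σ := by rw [hσ]; ring
    linarith
  have hDe : D * (w - v) = 2 * (w - v) - Sl r₀ * (w - v) := by rw [hD]; ring
  -- natural at `v`
  have a1 : F1 S f (vg w) y (Qt.fn fun _ _ _ => ())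
      (qJet m ((range r₀).image c) (c r₀) j v (sn v r₀) (sn w r₀ + C * R - j * w)) (σ / 4)
      (η / 2) :=
    F1.of0 htm (few0_room htm hv0 (by linarith) hσ0 (by
      have e1 : (j : ℝ) * (w - v) = j * w - j * v := by ring
      linarith) _ _ _ (half_pos hη))
  have hmin : Λ ≤ min lam (p₀ - w) := le_min hlam (by linarith)
  have a2 : F1 S f (vg w) y
      (qJet m ((range r₀).image c) (c r₀) j v (sn v r₀) (sn w r₀ + C * R - j * w))
      (qJet m ((range r₀).image c) (c r₀) j w (sn w r₀) (sn w r₀ + C * R - j * w)) (σ / 4)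
      (η / 2) := by
    refine few_jet_e htm hvw le_rfl hw1.le le_rfl (by linarith) (by linarith) hp1 hbase h.pt hkn
      le_rfl hσ0 ?_ (half_pos hη)
    have h3 : sn w r₀ - 2 * t - σ ≤ min (sn v r₀) (sn w r₀) :=
      le_min (by linarith) (by linarith)
    linarith
  have a3 := F1.trans htm (exs_jet hrk hatt) (by positivity : (0 : ℝ) < σ / 4) a1 a2
  rwa [add_halves] at a3

end Pool.AVG71
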