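import Pool.Agent.H42.D2.Hz
import Pool.Agent.H4.D2.Avg

/-!
# `AvgA` from the codes of the own paths

`AD`: base data `z` (record, exact own data, window), real time `th`, own path `P` of the target
(units: the integer part are the digits in the context), own paths `A` of the base coordinates,
rounded gradient `bb`. `AD.L` = code of the line, `AD.g` = context, `AD.Y` = near digits of the
positions of the base coordinates, `AD.C` = near digits of the higher coefficients of the target,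
`AD.N` = near digits of the height over the line of the context with near digits zero.
`AD.avg`: `AvgA` from the entropies.
-/

set_option autoImplicit false

namespace Pool.AVG71

open Finset Real
open Pool.Agent.H49.Ent Pool.Agent.H32.Dense Pool.STK Pool.K2S Pool.KAF Pool.M5 Pool.SLO Pool.BFL
open Pool.MIC Pool.TIE Pool.D2Hz

/-- Own paths of the lines. -/
structure AD (Ω β : Type) (k : ℕ) where
  z : Ω → β
  th : Ω → ℝ
  P : Ω → Polynomial ℝ
  A : Ω → Fin k → Polynomial ℝ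
  bb : Ω → Fin k → ℝ
  X : ℕ
  m : ℕ

/-- The codes of lines. -/
abbrev Lam (β : Type) (k K : ℕ) : Type := β × ((Fin k → Fin (K + 1) → ℤ) × (Fin (K + 1) → ℤ))

/-- The digits of the base coordinates in the context: higher coefficients, upper digits and last
digits of the position. -/
abbrev Vam (k K : ℕ) : Type := (Fin k → Fin K → ℤ) × ((Fin k → ℤ) × (Fin k → ℤ))

/-- The contexts. -/
abbrev Gam (β : Type) (k K : ℕ) : Type := β × (Vam k K × (Fin (K + 1) → ℤ))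

namespace AD

variable {Ω β : Type} {k : ℕ} (d : AD Ω β k) (K : ℕ)

/-- Digits of the coefficients of the target. -/
noncomputable def nc (ω : Ω) (a : Fin (K + 1)) : ℤ := ⌊(2 : ℝ) ^ d.X * (d.P ω).coeff a⌋

/-- Digits of the coefficients of the base coordinates. -/
noncomputable def ac (ω : Ω) (j : Fin k) (a : Fin (K + 1)) : ℤ :=
  ⌊(2 : ℝ) ^ (d.X + d.m) * (d.A ω j).coeff a⌋

/-- The code of the line. -/
noncomputable def L (ω : Ω) : Lam β k K := (d.z ω, (d.ac K ω, d.nc K ω))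

/-- The digits of the base coordinates in the context. -/
noncomputable def va (ω : Ω) : Vam k K :=
  (fun j a => d.ac K ω j a.succ,
    (fun j => d.ac K ω j 0 / 2 ^ (d.X + d.m), fun j => d.ac K ω j 0 % 2 ^ d.m))

/-- The context. -/
noncomputable def g (ω : Ω) : Gam β k K := (d.z ω, (d.va K ω, fun a => d.nc K ω a / 2 ^ d.X))

/-- The near digits of the positions of the base coordinates. -/
noncomputable def Y (ω : Ω) (j : Fin k) : ℤ := d.ac K ω j 0 % 2 ^ (d.X + d.m) / 2 ^ d.m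

/-- The near digits of the coefficients of the target. -/
noncomputable def nr (ω : Ω) (a : Fin (K + 1)) : ℤ := d.nc K ω a % 2 ^ d.X

/-- The near digits of the higher coefficients of the target. -/
noncomputable def C (ω : Ω) (a : Fin K) : ℤ := d.nr K ω a.succ

/-- The height over the line of the context with near digits zero. -/
noncomputable def val (ω : Ω) : ℝ :=
  ∑ a : Fin (K + 1), (d.nr K ω a : ℝ) * d.th ω ^ (a : ℕ) - ∑ j, d.bb ω j * (d.Y K ω j : ℝ)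

noncomputable def N (ω : Ω) : ℤ := ⌊d.val K ω⌋

/-- The time with the gradient. -/
def T (ω : Ω) : ℝ × (Fin k → ℝ) := (d.th ω, d.bb ω)

/-- The coefficients. -/
noncomputable def co (ω : Ω) : Mon k 1 → ℝ := cof (d.bb ω)

/-- The own height at the time, in units of the last digit. -/
noncomputable def Q (ω : Ω) : ℝ :=
  2 ^ d.X * ((d.P ω).eval (d.th ω) - ∑ j, d.bb ω j * (d.A ω j).eval (d.th ω))

variable {d K}

theorem g_of {ω ω' : Ω} (h : d.L K ω = d.L K ω') : d.g K ω = d.g K ω' := by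
  obtain ⟨h1, h2⟩ := Prod.ext_iff.mp h
  obtain ⟨h3, h4⟩ := Prod.ext_iff.mp h2
  have h1' : d.z ω = d.z ω' := h1
  have h3' : d.ac K ω = d.ac K ω' := h3
  have h4' : d.nc K ω = d.nc K ω' := h4
  unfold g va
  rw [h1', h3', h4']

theorem Y_of {ω ω' : Ω} (h : d.L K ω = d.L K ω') : d.Y K ω = d.Y K ω' := by
  obtain ⟨h1, h2⟩ := Prod.ext_iff.mp h
  obtain ⟨h3, h4⟩ := Prod.ext_iff.mp h2
  have h3' : d.ac K ω = d.ac K ω' := h3
  funext j
  unfold Y
  rw [h3']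

theorem nr_of {ω ω' : Ω} (h : d.L K ω = d.L K ω') : d.nr K ω = d.nr K ω' := by
  obtain ⟨h1, h2⟩ := Prod.ext_iff.mp h
  obtain ⟨h3, h4⟩ := Prod.ext_iff.mp h2
  have h4' : d.nc K ω = d.nc K ω' := h4
  funext a
  unfold nr
  rw [h4']

theorem Y_mem (ω : Ω) (j : Fin k) : 0 ≤ d.Y K ω j ∧ d.Y K ω j < 2 ^ d.X := by
  have p1 : (0 : ℤ) < 2 ^ (d.X + d.m) := by positivity
  have p2 : (0 : ℤ) < 2 ^ d.m := by positivity
  unfold Y
  constructor
  · exact Int.ediv_nonneg (Int.emod_nonneg _ p1.ne') p2.le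
  · refine Int.ediv_lt_of_lt_mul p2 ?_
    exact (Int.emod_lt_of_pos (d.ac K ω j 0) p1).trans_le (le_of_eq (pow_add _ _ _))

theorem nr_mem (ω : Ω) (a : Fin (K + 1)) : 0 ≤ d.nr K ω a ∧ d.nr K ω a < 2 ^ d.X := by
  have p1 : (0 : ℤ) < 2 ^ d.X := by positivity
  exact ⟨Int.emod_nonneg _ p1.ne', Int.emod_lt_of_pos _ p1⟩

/-- The digits of the position. -/
theorem ac_eq (ω : Ω) (j : Fin k) : d.ac K ω j 0 =
    d.ac K ω j 0 / 2 ^ (d.X + d.m) * 2 ^ (d.X + d.m) + (d.Y K ω j * 2 ^ d.m +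
      d.ac K ω j 0 % 2 ^ d.m) := by
  unfold Y
  have h1 := Int.mul_ediv_add_emod (d.ac K ω j 0) (2 ^ (d.X + d.m))
  have h2 := Int.mul_ediv_add_emod (d.ac K ω j 0 % 2 ^ (d.X + d.m)) (2 ^ d.m)
  have h3 : d.ac K ω j 0 % 2 ^ (d.X + d.m) % 2 ^ d.m = d.ac K ω j 0 % 2 ^ d.m :=
    Int.emod_emod_of_dvd _ (Dvd.intro_left (2 ^ d.X) (by rw [pow_add]))
  rw [h3] at h2
  linarith

theorem nc_eq (ω : Ω) (a : Fin (K + 1)) : d.nc K ω a =
    d.nc K ω a / 2 ^ d.X * 2 ^ d.X + d.nr K ω a := by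
  unfold nr
  have h1 := Int.mul_ediv_add_emod (d.nc K ω a) (2 ^ d.X)
  linarith

/-- **The field `hZ`.** -/
theorem hZ {ω ω' : Ω} (hL : d.L K ω = d.L K ω') :
    |((d.N K ω' : ℝ) - d.N K ω) - 2 ^ d.X * (∑ a : Fin K,
      (d.th ω' ^ (a.val + 1) - d.th ω ^ (a.val + 1)) * (d.C K ω a / 2 ^ d.X) - (0 - 0) -
      (pv (d.co ω') (fun j => (d.Y K ω j : ℝ) / 2 ^ d.X) -
        pv (d.co ω) (fun j => (d.Y K ω j : ℝ) / 2 ^ d.X)))| ≤ 2 ^ 0 := by
  have hX : (0 : ℝ) < 2 ^ d.X := by positivity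
  have hy := Y_of hL
  have hn := nr_of hL
  have f1 := Int.floor_le (d.val K ω)
  have f2 := Int.lt_floor_add_one (d.val K ω)
  have f3 := Int.floor_le (d.val K ω')
  have f4 := Int.lt_floor_add_one (d.val K ω')
  have g1 : ∀ o : Ω, (2 : ℝ) ^ d.X * pv (d.co o) (fun j => (d.Y K ω j : ℝ) / 2 ^ d.X) =
      ∑ j, d.bb o j * d.Y K ω j := by
    intro o
    unfold co
    rw [pv_cof, Finset.mul_sum]
    refine Finset.sum_congr rfl fun j _ => ?_
    rw [mul_div_assoc', mul_div_assoc', mul_comm ((2 : ℝ) ^ d.X), mul_div_cancel_right₀ _ hX.ne']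
  have g2 : (2 : ℝ) ^ d.X * ∑ a : Fin K,
      (d.th ω' ^ (a.val + 1) - d.th ω ^ (a.val + 1)) * (d.C K ω a / 2 ^ d.X) =
      ∑ a : Fin K, (d.th ω' ^ (a.val + 1) - d.th ω ^ (a.val + 1)) * d.C K ω a := by
    rw [Finset.mul_sum]
    refine Finset.sum_congr rfl fun a _ => ?_
    field_simp
  have g3 : ∀ o : Ω, ∑ a : Fin (K + 1), (d.nr K ω a : ℝ) * d.th o ^ (a : ℕ) =
      d.nr K ω 0 + ∑ a : Fin K, d.th o ^ (a.val + 1) * d.C K ω a := by
    intro o
    rw [Fin.sum_univ_succ]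
    congr 1
    · simp
    · refine Finset.sum_congr rfl fun a _ => ?_
      unfold C
      rw [Fin.val_succ, mul_comm]
  have key : d.val K ω' - d.val K ω = 2 ^ d.X * (∑ a : Fin K,
      (d.th ω' ^ (a.val + 1) - d.th ω ^ (a.val + 1)) * (d.C K ω a / 2 ^ d.X) - (0 - 0) -
      (pv (d.co ω') (fun j => (d.Y K ω j : ℝ) / 2 ^ d.X) -
        pv (d.co ω) (fun j => (d.Y K ω j : ℝ) / 2 ^ d.X))) := by
    have e1 : ∑ a : Fin K, (d.th ω' ^ (a.val + 1) - d.th ω ^ (a.val + 1)) * (d.C K ω a : ℝ) =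
        ∑ a : Fin K, d.th ω' ^ (a.val + 1) * (d.C K ω a : ℝ) -
        ∑ a : Fin K, d.th ω ^ (a.val + 1) * (d.C K ω a : ℝ) := by
      rw [← Finset.sum_sub_distrib]
      exact Finset.sum_congr rfl fun a _ => by ring
    rw [mul_sub, mul_sub, mul_sub (_ ^ _) (pv _ _), g1, g1, g2, e1]
    unfold val
    rw [← hy, ← hn, g3, g3]
    ring
  have hN : (d.N K ω : ℝ) = ⌊d.val K ω⌋ := rfl
  have hN' : (d.N K ω' : ℝ) = ⌊d.val K ω'⌋ := rfl
  rw [← key, pow_zero, abs_le, hN, hN']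
  constructor <;> linarith only [f1, f2, f3, f4]

/-- **The fields of `AvgA`.** -/
theorem avg [Fintype Ω] {p : Ω → ℝ} (hp : IsLaw p) {cc κ π₀ ι ε₀ : ℝ} {j₀ : ℕ}
    (hth : ∀ ω, 0 < p ω → 0 ≤ d.th ω ∧ d.th ω < 1)
    (hb : ∀ ω, 0 < p ω → ∀ j, |d.bb ω j| ≤ (2 : ℝ) ^ (ι * d.X))
    (h1 : Pool.KVA.MI p d.T (d.L K) (d.g K) ≤ ι * d.X)
    (h1f : (1 - ι) * d.X * Real.log 2 ≤ CH p (fun ω => ⌊(2 : ℝ) ^ d.X * d.th ω⌋) (d.L K))
    (h1a : j₀ * Real.log 2 - ε₀ ≤ CH p (fun ω => ⌊(2 : ℝ) ^ j₀ * d.th ω⌋) (d.L K))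
    (h2 : Pool.KVA.MI p (d.N K) (fun ω => (d.Y K ω, d.C K ω)) (fun ω => (d.T ω, d.g K ω)) ≤
      ι * d.X)
    (h3 : (k - ι) * d.X * Real.log 2 ≤ CH p (d.Y K) (d.g K))
    (h5 : ∀ j : ℕ, (j + 1) * ⌊κ * d.X⌋₊ ≤ d.X → ∀ E : Set Ω, π₀ ≤ Pr p E →
      CH (rs p E) (fun ω => d.N K ω / 2 ^ (d.X - (j + 1) * ⌊κ * d.X⌋₊))
        (fun ω => ((d.N K ω / 2 ^ (d.X - j * ⌊κ * d.X⌋₊), d.T ω), d.g K ω)) ≤
        (1 - cc) * ⌊κ * d.X⌋₊ * Real.log 2) :
    AvgA p (d.L K) d.T (d.g K) (d.Y K) (d.C K) (d.N K) d.th (fun _ => 0) d.co d.X 0 cc κ π₀ ι ε₀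
      j₀ := by
  refine ⟨hp, fun ω ω' _ _ e => g_of e, fun ω ω' _ _ e => Y_of e, ?_, ?_, fun _ _ _ _ _ => rfl,
    ?_, ?_, fun ω _ j => Y_mem ω j, ?_, hth, ?_, fun ω ω' _ _ e => hZ e, h1, h1f, h1a, h2, h3, h5⟩
  · intro ω ω' _ _ e
    funext a
    unfold C
    rw [nr_of e]
  · intro ω ω' _ _ e
    exact (Prod.ext_iff.mp e).1
  · intro ω ω' _ _ e
    unfold co
    have h1 : d.bb ω = d.bb ω' := (Prod.ext_iff.mp e).2
    rw [h1]
  · intro ω ω' hω hω' e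
    obtain ⟨e1, e2⟩ := Prod.ext_iff.mp e
    have e1' : d.L K ω = d.L K ω' := e1
    have e3 : d.th ω = d.th ω' := (Prod.ext_iff.mp e2).1
    have e4 : d.bb ω = d.bb ω' := (Prod.ext_iff.mp e2).2
    unfold N val
    rw [nr_of e1', Y_of e1', e3, e4]
  · intro ω _ a
    obtain ⟨h3, h4⟩ := nr_mem (d := d) (K := K) ω a.succ
    have h3' : (0 : ℝ) ≤ (d.C K ω a : ℝ) := by exact_mod_cast h3
    have h4' : (d.C K ω a : ℝ) < 2 ^ d.X := by exact_mod_cast h4
    rw [abs_of_nonneg h3']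
    exact h4'.le
  · intro ω hω i
    obtain ⟨j, hj⟩ := exists_cof (d.bb ω) i
    unfold co
    rw [hj]
    exact hb ω hω j

end AD

end Pool.AVG71
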