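import Pool.Agent.H71.AVG.Jt

/-!
# The codes of the target of order `≥ 1` from the far digits of the chain

`d_cls`: with two windows `v ≤ w`: the codes of order `≥ 1` of the own path of the target over any
labels of `w`, to `N ≤ p r + q + (w - v)` digits, are few bits given the quantity which gives the
context over `v`, the record at `w` and `y`.
-/

set_option autoImplicit false

namespace Pool.AJW

open Finset Real MvPolynomial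
open Pool.Agent.H49.Ent Pool.Agent.H32.Dense Pool.STK Pool.KA Pool.KSAT Pool.K2S Pool.PB Pool.GEN
open Pool.S6C Pool.RCD Pool.LA91 Pool.OWN68 Pool.CHT
open Pool.GRD (LbP)
open Pool.UNJ (ceI Tub)
open Pool.AVG71 (cod cod_few)

/-- **The codes of order `≥ 1`** of the own path over the labels of the window `w`. -/
theorem d_cls (K : ℕ) {h : ℝ} (hh : 0 < h) (hh1 : h ≤ 1) {ε : ℝ}
    (hε : 0 < ε) : ∃ δ : ℝ, 0 < δ ∧ ∀ {m : ℕ} {S : PCl m} {C₀ : ℝ} (_ : TmC S C₀)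
    {c : ℕ → Fin m} {r₀ r : ℕ} {v w lam q ρ g₀ : ℝ} {p s n lv rd : ℕ → ℝ}
    (_ : JetW S c r₀ r v w lam q ρ g₀ p s n lv rd K) (_ : (r + 1) * ρ ≤ δ * q)
    {U₀ : Type} {Qu : Qt m U₀} {α γ : ∀ J : ℕ, Fam m J → Type}
    {f : ∀ (J : ℕ) (F : Fam m J), F.Ω → α J F} {y : ∀ (J : ℕ) (F : Fam m J), F.Ω → γ J F}
    (_ : ∀ (J : ℕ) (F : Fam m J), ∃ φ : α J F → PtT F, ∀ ω, ptr F J ω = φ (f J F ω))
    (_ : Kn ((range r₀).image c) (v + lam) lam y) {a e₁ : ℝ} (_ : w ≤ a) (_ : a ≤ 1)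
    (_ : 0 < e₁) (_ : ∀ e : ℝ, 0 < e → e ≤ e₁ →
      FwL S f (vg a) y Qu c r₀ (r + 1) K v rd p (ctx c r₀ r K v lam n) e (δ * q))
    (_ : ∀ q' : ℝ, 0 ≤ q' → q' ≤ q → RawN S ((range r).image c) (c r) (p r) q' h (δ * q))
    (_ : ∀ e : ℝ, 0 < e → Bas S (fun J F A => ∃ (V : Type) (z : PtT F → V) (z' : LnT F → V)
      (g : V → ℕ → MvPolynomial (Option (Fin m)) ℝ), LbC F c r₀ (r + 1) K e v rd p A z z' g))
    {N rw : ℝ} (_ : N ≤ p r + q + (w - v)) (_ : 0 ≤ rw),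
    ∃ e₀ : ℝ, 0 < e₀ ∧ e₀ ≤ e₁ ∧ ∀ e : ℝ, 0 < e → e ≤ e₀ → ∀ K₀ : ℕ,
      Bas S (fun J F A => ∀ u₀ : F.Ω → U₀, Qu.P K₀ e J F A u₀ →
        ∀ (V : Type) (z : PtT F → V) (z' : LnT F → V)
        (G : V → MvPolynomial (Option (Fin m)) ℝ), LbOK F ((range r).image c) (c r) K
          ⌊e * J⌋₊ J ⌊w * J⌋₊ ⌊(rw + e) * J⌋₊ ⌊(s r - e) * J⌋₊ A z z' G →
        ∃ (V₁ : Type) (z₁ : F.Ω → V₁), Cl2 (f J F) (vg a J F) A z₁ ∧
          ∀ σ : ℝ, 0 < σ → σ ≤ 2 ^ (N * J) →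
          CH (Pool.Agent.H49.Ent.cond F.p A True)
            (cod F ⌊w * J⌋₊ 1 (K + 1) σ (c r) z' G)
            (fun ω => (u₀ ω, (z₁ ω, y J F ω))) ≤ ε * q * J) := by
  classical
  obtain ⟨δ, hδ, H⟩ := jet_wb K hh hh1 (ε := ε / 2) (by positivity)
  refine ⟨δ, hδ, ?_⟩
  intro m S C₀ htm c r₀ r v w lam q ρ g₀ p s n lv rd HW hρδ U₀ Qu α γ f y hf hy a e₁ hwa ha he₁
    hctx hraw hlb N rw hN hrw
  have hq := HW.q0
  have hv0 := HW.v0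
  have hvw := HW.vw
  have hw0 : 0 ≤ w := hv0.trans hvw
  have hyT : ∀ (J : ℕ) (F : Fam m J), ∃ φ : γ J F → ℕ, ∀ ω, F.T ω = φ (y J F ω) := by
    intro J F
    obtain ⟨φ, hφ⟩ := hy J F
    exact ⟨fun x => (φ x).1, fun ω => (congrArg Prod.fst (hφ ω)).symm⟩
  obtain ⟨e₀, he₀, he₀1, HP⟩ := H htm HW hρδ hf hy hwa ha he₁ hctx hraw
  refine ⟨e₀, he₀, he₀1, fun e he hle K₀ => ?_⟩
  -- the number of values of the jets
  choose MR JR hcR using fun j : ℕ => cnt_jet m K (j + 1)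
    (N := p r + q - ((j + 1 : ℕ) : ℝ) * v) (w := w) hrw he
  obtain ⟨K₁, hK₁⟩ : ∃ K₁ : ℕ, K₁ = K₀ + K + ∑ j ∈ range (K + 2), MR j := ⟨_, rfl⟩
  obtain ⟨J₁, hJ₁⟩ : ∃ J₁ : ℕ, J₁ = ∑ j ∈ range (K + 2), JR j := ⟨_, rfl⟩
  obtain ⟨L', hL'⟩ : ∃ L' : ℝ, L' = ((K + 1 + 1 : ℕ) : ℝ) *
    Real.log (2 * (2 ^ (2 * (K + 1) + 1) + 1) + 1) := ⟨_, rfl⟩
  obtain ⟨J₂, hJ₂⟩ := exists_nat_ge (L' / (ε / 2 * q))
  refine Bas.mono (max J₁ J₂) (((HP e he hle).2 K₁).and ((hlb e he).and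
    (Pool.GRW.tmc_bas htm one_pos))) ?_
  rintro J hJ F A ⟨HPA, ⟨V', zz, zz', gg, hlbv⟩, hA, -⟩ u₀ hu₀ V z z' G hl
  have hJ1 : J₁ ≤ J := (le_max_left _ _).trans hJ
  have hJ2 : (J₂ : ℝ) ≤ J := by exact_mod_cast (le_max_right _ _).trans hJ
  have hJ0 : (0 : ℝ) ≤ J := Nat.cast_nonneg J
  have f1 : L' ≤ ε / 2 * q * J := by
    have := hJ₂.trans hJ2
    rw [div_le_iff₀ (by positivity)] at this
    linarith
  obtain ⟨u', hu'⟩ : ∃ u' : F.Ω → Fin (K + 2) → ℤ, u' = fun ω (j : Fin (K + 2)) =>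
    ⌊(2 : ℝ) ^ ((p r + q - (((j : ℕ) + 1 : ℕ) : ℝ) * v) * J) *
      ojet F (c r) ((j : ℕ) + 1) (G (z' (slam F ⌊w * J⌋₊ ω))) ω⌋ := ⟨_, rfl⟩
  obtain ⟨V₁, z₁, hz₁, h1⟩ := HPA V' zz zz' gg hlbv u₀
    (Qu.mono (by omega) le_rfl hu₀) u' (fun j => by
      have hj2 := j.2
      have hMj : MR j ≤ ∑ j ∈ range (K + 2), MR j :=
        Finset.single_le_sum (f := MR) (fun i _ => Nat.zero_le _) (Finset.mem_range.2 hj2)
      have hJj : JR j ≤ ∑ j ∈ range (K + 2), JR j :=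
        Finset.single_le_sum (f := JR) (fun i _ => Nat.zero_le _) (Finset.mem_range.2 hj2)
      refine ⟨?_, V, z, z', G, (LbP.of hl).mono (Finset.Subset.refl _) (by omega) le_rfl,
        fun ω _ => by rw [hu']⟩
      show (cnt F.p (fun ω => u' ω j) A : ℝ) ≤ _
      rw [hu']
      refine (hcR j J (by omega) F _ _ _ A V z z' G hl).trans
        (Real.exp_le_exp.2 (mul_le_mul_of_nonneg_right ?_ hJ0))
      exact_mod_cast (by omega : MR j ≤ K₁))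
  refine ⟨V₁, z₁, hz₁, fun σ hσ0 hσ => ?_⟩
  obtain ⟨q', hq'⟩ : ∃ q' : F.Ω → ℝ, q' = Pool.Agent.H49.Ent.cond F.p A True := ⟨_, rfl⟩
  have hq'l : IsLaw q' := by
    rw [hq']
    exact isLaw_cond F.isLaw hA
  have h0 := hq'l.nonneg
  rw [← hq'] at h1 ⊢
  have hWJ : ⌊w * J⌋₊ ≤ J := floor_le (hwa.trans ha) J
  obtain ⟨Y, hY⟩ : ∃ Y : F.Ω → U₀ × (V₁ × γ J F), Y = fun ω =>
    (u₀ ω, (z₁ ω, y J F ω)) := ⟨_, rfl⟩
  rw [← hY] at h1 ⊢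
  obtain ⟨φT, hφT⟩ := hyT J F
  have k1 : CH q' u' Y ≤ ε / 2 * q * J := by
    refine le_trans (CH_mono_left h0 fun ω ω' _ _ e => ?_) h1
    exact (Prod.ext_iff.mp (Prod.ext_iff.mp e).1).2
  have k2 : CH q' (cod F ⌊w * J⌋₊ 1 (K + 1) σ (c r) z' G) (fun ω => (u' ω, Y ω)) ≤ L' := by
    rw [hL']
    refine cod_few (w := w) (N := N) hw0 hWJ hσ0 hσ (fun v => ?_) hq'l
      (fun ω => (u' ω, Y ω)) 1 (s := fun j => p r + q - (j : ℕ) * v) (fun j hj _ => ?_)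
      fun ω ω' _ _ e => ⟨?_, fun j hj hj' => ?_⟩
    · exact Nat.succ_le_succ (hl.deg v)
    · have h2 : (1 : ℝ) ≤ j := by exact_mod_cast hj
      have h3 : 1 * (w - v) ≤ j * (w - v) := mul_le_mul_of_nonneg_right h2 (by linarith)
      show N - j * w ≤ p r + q - j * v
      linarith
    · have e1 := (Prod.ext_iff.mp e).2
      rw [hY] at e1
      simp only [Prod.mk.injEq] at e1
      rw [hφT, hφT, e1.2.2]
    · have e2 := congrFun (Prod.ext_iff.mp e).1 ⟨j - 1, by omega⟩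
      rw [hu'] at e2
      have e3 : j - 1 + 1 = j := by omega
      dsimp only at e2
      rw [e3] at e2
      exact e2
  have s1 := CH_le_add h0 (cod F ⌊w * J⌋₊ 1 (K + 1) σ (c r) z' G) u' Y
  have e4 : ε * q * J = ε / 2 * q * J + ε / 2 * q * J := by ring
  rw [e4]
  linarith

end Pool.AJW
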