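import Pool.Agent.H71.AVG.Dpj

/-!
# All jets of the chain from its far digits of order `0` and `1`

`far_jetA`: all jets of the chain over the window `v ≤ w` from the positions and velocities over the
labels of `w`, to `Nf l j` digits (the far digits), if the jets of order `≥ 2` are natural at an
earlier window `v₀` (slopes less than two). `far_ctx`: the context. `a_cls`: the codes of the own
path of a coordinate of the chain.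
-/

set_option autoImplicit false

namespace Pool.AJW

open Finset Real MvPolynomial
open Pool.Agent.H49.Ent Pool.Agent.H32.Dense Pool.STK Pool.KA Pool.KSAT Pool.K2S Pool.PB Pool.GEN
open Pool.S6C Pool.RCD Pool.LA91 Pool.OWN68 Pool.CHT
open Pool.GRD (LbP)
open Pool.UNJ (ceI Tub)
open Pool.AVG71 (cod cod_few)

/-- **The far digits** `Nf` over the labels of `w` and the digits `n` over the labels of `v`. -/
structure FarW {m : ℕ} (S : PCl m) (c : ℕ → Fin m) (r₀ r : ℕ) (v₀ v w lam σ : ℝ)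
    (P₀ p s n lv lw : ℕ → ℝ) (Nf : ℕ → ℕ → ℝ) : Prop where
  v0 : 0 ≤ v₀
  vv : v₀ ≤ v
  vw : v ≤ w
  σ0 : 0 < σ
  wl : w < v + lam
  l1 : v + lam ≤ 1
  cw : ∃ (u₁ : ℝ) (rw : ℕ → ℝ), Chn S c r₀ r w w u₁ s rw ∧ ∀ l, r₀ ≤ l → l < r → 0 ≤ rw l
  cv : ∃ (u₁ : ℝ) (rd : ℕ → ℝ), Chn S c r₀ r v v u₁ p rd ∧ ∀ l, r₀ ≤ l → l < r → 0 ≤ rd l
  a0 : ∀ i, r₀ ≤ i → i < r → ∃ rk : ℝ, 0 ≤ rk ∧ Att S ((range i).image c) (c i) v₀ (P₀ i) rk
  w0 : ∀ l, r₀ ≤ l → l < r → 0 < lw l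
  w1 : ∀ l, r₀ ≤ l → l < r → ∀ j ≤ 1, s l + lw l + σ ≤ Nf l j + (j : ℕ) * w
  w2 : ∀ l, r₀ ≤ l → l < r → lw l + σ ≤ v + lam - w
  w3 : ∀ l, r₀ ≤ l → l < r → ∀ l', r₀ ≤ l' → l' < l → lw l + σ ≤ lw l'
  w4 : ∀ l, r₀ ≤ l → l < r → ∀ j ≤ 1, n l - (j : ℕ) * v ≤ Nf l j
  w5 : ∀ l, r₀ ≤ l → l < r → n l + (w - v) + σ ≤ min (s l) (p l) + (v + lam - w)
  w6 : ∀ l, r₀ ≤ l → l < r → ∀ l', r₀ ≤ l' → l' < l → n l + (w - v) + σ ≤ min (s l) (p l) + lw l'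
  lv0 : ∀ l, r₀ ≤ l → l < r → 0 < lv l
  h1 : ∀ l, r₀ ≤ l → l < r → p l + lv l + σ ≤ n l
  h2 : ∀ l, r₀ ≤ l → l < r → n l + σ ≤ min (P₀ l) (p l) + lam
  h3 : ∀ i, r₀ ≤ i → i < r → ∀ l, r₀ ≤ l → l < i → n i + σ ≤ min (P₀ i) (p i) + lv l
  h4 : ∀ i, r₀ ≤ i → i < r → n i + σ ≤ P₀ i + 2 * (v - v₀)

section

variable {m : ℕ} {S : PCl m} {C₀ : ℝ} {α γ : ∀ J : ℕ, Fam m J → Type}
  {f : ∀ (J : ℕ) (F : Fam m J), F.Ω → α J F} {y : ∀ (J : ℕ) (F : Fam m J), F.Ω → γ J F}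
  {c : ℕ → Fin m} {r₀ r : ℕ} {v₀ v w lam σ : ℝ} {P₀ p s n lv lw : ℕ → ℝ} {Nf : ℕ → ℕ → ℝ}

/-- **All jets of the chain over `v`** from the far digits over `w`. -/
theorem far_jetA (htm : TmC S C₀) (H : FarW S c r₀ r v₀ v w lam σ P₀ p s n lv lw Nf) {a : ℝ}
    (hwa : w ≤ a) (ha : a ≤ 1)
    (hf : ∀ (J : ℕ) (F : Fam m J), ∃ φ : α J F → PtT F, ∀ ω, ptr F J ω = φ (f J F ω))
    (hy : Kn ((range r₀).image c) (v + lam) lam y) :
    JetA S f (vg a) y (qJets m c r₀ r 1 (fun _ _ => w) (fun l _ => s l) Nf) c r₀ r v p n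
      (σ / 8) := by
  obtain ⟨u₁, rw, hcw, hrw⟩ := H.cw
  obtain ⟨u₁', rd, hcv, hrd⟩ := H.cv
  have hσ := H.σ0
  have hvw := H.vw
  have hwl := H.wl
  have hlam : 0 < lam := by linarith
  have hmin : min lam (v + lam - w) = v + lam - w := min_eq_right (by linarith)
  have hones : ∀ η : ℝ, 0 < η → ∀ l, r₀ ≤ l → l < r → ∀ j ≤ 1, F1 S f (vg a) y
      (qJets m c r₀ r 1 (fun _ _ => w) (fun l _ => s l) Nf)
      (qJet m ((range l).image c) (c l) j v (p l) (n l - (j : ℕ) * v)) (σ / 8) η := by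
    intro η hη l hl0 hl j hj
    have hj1 : (j : ℝ) ≤ 1 := by exact_mod_cast hj
    have hjw : (j : ℝ) * (w - v) ≤ 1 * (w - v) := mul_le_mul_of_nonneg_right hj1 (by linarith)
    have key := F1.up hwa ha (jetN_F1 (y := y) (f := f) htm (hcw.take hl0 hl.le) (k := c l)
      (j := j) (lv := lw) (p₀ := v + lam) (lam := lam) (σ₀ := σ) (w₁ := w) (w₂ := v) (p₁ := s l)
      (p₂ := p l) (N₁ := Nf l j) (N₂ := n l - (j : ℕ) * v)
      (wv := fun _ _ => w) (pv := fun l _ => s l) (Nv := Nf)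
      (fun _ _ _ _ _ => le_rfl) le_rfl hvw hwl H.l1 hlam hσ
      (fun i x y => H.w0 i x (by omega))
      (fun i x y j' hj' => H.w1 i x (by omega) j' (by omega))
      (fun i x y j' _ => by
        rw [hmin, min_self]
        linarith [H.w2 i x (by omega)])
      (fun i x y j' _ l' x' y' => by
        rw [min_self]
        linarith [H.w3 i x (by omega) l' x' y'])
      (H.w4 l hl0 hl j hj)
      (by
        rw [hmin]
        linarith [H.w5 l hl0 hl])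
      (fun l' x y => by linarith [H.w6 l hl0 hl l' x y]) hf hy hη)
    refine F1.pull htm (Q₁ := (qJets m c r₀ l j (fun _ _ => w) (fun l _ => s l) Nf).prod
        (qJet m ((range l).image c) (c l) j w (s l) (Nf l j)))
      (fun u => ((fun i' j' => if i' < l ∧ j' ≤ j then u i' j' else 0), u l j)) ?_ key
    intro K e J F A u hu
    refine ⟨⟨fun i' a b' j' c' => ?_, fun ω hω i' j' h' => ?_⟩, ?_⟩
    · have e1 := hu.1 i' a (b'.trans hl) j' (c'.trans hj)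
      show (qJet m _ _ _ _ _ _).P K e J F A (fun ω => if i' < l ∧ j' ≤ j then u ω i' j' else 0)
      simp only [if_pos (show i' < l ∧ j' ≤ j from ⟨b', c'⟩)]
      exact e1
    · show (if i' < l ∧ j' ≤ j then u ω i' j' else 0) = 0
      split_ifs with h3
      · exact hu.2 ω hω i' j' fun h4 => h' ⟨h4.1, h3.1, h3.2⟩
      · rfl
    · exact hu.1 l hl0 hl j hj
  have h5 := jetA_ones (Q := qJets m c r₀ r 1 (fun _ _ => w) (fun l _ => s l) Nf) (n := n)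
    (f := f) (y := y) htm hcv hrd (hvw.trans hwa) ha H.v0 H.vv H.a0 hσ hlam H.l1
    H.lv0 H.h1 H.h2 H.h3 H.h4 hf hy (by positivity) hones
  rwa [min_self] at h5

/-- **The context over `v`** from the far digits over `w`. -/
theorem far_ctx (htm : TmC S C₀) (H : FarW S c r₀ r v₀ v w lam σ P₀ p s n lv lw Nf) {a : ℝ}
    (hwa : w ≤ a) (ha : a ≤ 1)
    (hf : ∀ (J : ℕ) (F : Fam m J), ∃ φ : α J F → PtT F, ∀ ω, ptr F J ω = φ (f J F ω))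
    (hy : Kn ((range r₀).image c) (v + lam) lam y) {rd : ℕ → ℝ}
    (hrd : ∀ i, r₀ ≤ i → i < r → 0 ≤ rd i) {δ : ℝ} (hδ : 0 < δ) {K R : ℕ} (hR : r ≤ R) {e : ℝ}
    (he : 0 < e) (hle : e ≤ σ / 8) :
    FwL S f (vg a) y (qJets m c r₀ r 1 (fun _ _ => w) (fun l _ => s l) Nf) c r₀ R K v rd p
      (ctx c r₀ r K v lam n) e δ := by
  have hwl := H.wl
  have hvw := H.vw
  exact (far_jetA htm H hwa ha hf hy).ctx htm (H.v0.trans H.vv) (hvw.trans hwa) ha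
    (by linarith) (by linarith [H.σ0]) hrd hy hδ hR he hle

end

/-- **The codes of a coordinate of the chain**, all orders, over any labels of the window `v`. -/
theorem a_cls {m : ℕ} {S : PCl m} {C₀ : ℝ} (htm : TmC S C₀) {α γ : ∀ J : ℕ, Fam m J → Type}
    {U : Type} {f : ∀ (J : ℕ) (F : Fam m J), F.Ω → α J F}
    {y : ∀ (J : ℕ) (F : Fam m J), F.Ω → γ J F} {Q : Qt m U} {c : ℕ → Fin m} {r₀ r : ℕ}
    {v a e₁ : ℝ} {p n : ℕ → ℝ} (hV : JetA S f (vg a) y Q c r₀ r v p n e₁) (hv0 : 0 ≤ v)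
    (hva : v ≤ a) (ha : a ≤ 1)
    (hyT : ∀ (J : ℕ) (F : Fam m J), ∃ φ : γ J F → ℕ, ∀ ω, F.T ω = φ (y J F ω))
    {l : ℕ} (hl0 : r₀ ≤ l) (hl : l < r) {rw : ℝ} (hrw : 0 ≤ rw) (K : ℕ) {δ : ℝ} (hδ : 0 < δ)
    {e : ℝ} (he : 0 < e) (hle : e ≤ e₁) (K₀ : ℕ) :
    Bas S (fun J F A => ∀ u₀ : F.Ω → U, Q.P K₀ e J F A u₀ →
      ∀ (V : Type) (z : PtT F → V) (z' : LnT F → V)
        (G : V → MvPolynomial (Option (Fin m)) ℝ), LbOK F ((range l).image c) (c l) K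
          ⌊e * J⌋₊ J ⌊v * J⌋₊ ⌊(rw + e) * J⌋₊ ⌊(p l - e) * J⌋₊ A z z' G →
        ∃ (V₁ : Type) (z₁ : F.Ω → V₁), Cl2 (f J F) (vg a J F) A z₁ ∧
          ∀ σ : ℝ, 0 < σ → σ ≤ 2 ^ (n l * J) →
          CH (Pool.Agent.H49.Ent.cond F.p A True)
            (cod F ⌊v * J⌋₊ 0 (K + 1) σ (c l) z' G)
            (fun ω => (u₀ ω, (z₁ ω, y J F ω))) ≤ δ * J) := by
  classical
  choose MR JR hcR using fun j : ℕ => cnt_jet m K j
    (N := n l - ((j : ℕ) : ℝ) * v) (w := v) hrw he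
  obtain ⟨K₁, hK₁⟩ : ∃ K₁ : ℕ, K₁ = K₀ + K + ∑ j ∈ range (K + 2), MR j := ⟨_, rfl⟩
  obtain ⟨J₁, hJ₁⟩ : ∃ J₁ : ℕ, J₁ = ∑ j ∈ range (K + 2), JR j := ⟨_, rfl⟩
  obtain ⟨L', hL'⟩ : ∃ L' : ℝ, L' = ((K + 1 + 1 : ℕ) : ℝ) *
    Real.log (2 * (2 ^ (2 * (K + 1) + 1) + 1) + 1) := ⟨_, rfl⟩
  obtain ⟨h', hh'⟩ : ∃ h' : ℝ, h' = δ / 2 / ((K + 2 : ℕ) : ℝ) := ⟨_, rfl⟩
  have hh0 : 0 < h' := by rw [hh']; positivity
  have hhe : ((K + 2 : ℕ) : ℝ) * h' = δ / 2 := by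
    rw [hh']
    field_simp
  obtain ⟨J₂, hJ₂⟩ := exists_nat_ge (L' / (δ / 2))
  refine Bas.mono (max J₁ J₂) ((Bas.all (K + 2) fun j hj =>
    (hV h' hh0 l hl0 hl j).mono hle le_rfl K₁).and (Pool.GRW.tmc_bas htm one_pos)) ?_
  rintro J hJ F A ⟨HPA, hA, -⟩ u₀ hu₀ V z z' G hlb
  have hJ1 : J₁ ≤ J := (le_max_left _ _).trans hJ
  have hJ2 : (J₂ : ℝ) ≤ J := by exact_mod_cast (le_max_right _ _).trans hJ
  have hJ0 : (0 : ℝ) ≤ J := Nat.cast_nonneg J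
  have f1 : L' ≤ δ / 2 * J := by
    have := hJ₂.trans hJ2
    rw [div_le_iff₀ (by positivity)] at this
    linarith
  obtain ⟨u', hu'⟩ : ∃ u' : F.Ω → Fin (K + 2) → ℤ, u' = fun ω (j : Fin (K + 2)) =>
    ⌊(2 : ℝ) ^ ((n l - ((j : ℕ) : ℝ) * v) * J) *
      ojet F (c l) j (G (z' (slam F ⌊v * J⌋₊ ω))) ω⌋ := ⟨_, rfl⟩
  have hz : ∀ j : Fin (K + 2), ∃ (V₂ : Type) (z₂ : F.Ω → V₂), Cl2 (f J F) (vg a J F) A z₂ ∧
      CH (Pool.Agent.H49.Ent.cond F.p A True) (fun ω => u' ω j)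
        (fun ω => (u₀ ω, (z₂ ω, y J F ω))) ≤ h' * J := by
    intro j
    have hj2 := j.2
    have hMj : MR j ≤ ∑ j ∈ range (K + 2), MR j :=
      Finset.single_le_sum (f := MR) (fun i _ => Nat.zero_le _) (Finset.mem_range.2 hj2)
    have hJj : JR j ≤ ∑ j ∈ range (K + 2), JR j :=
      Finset.single_le_sum (f := JR) (fun i _ => Nat.zero_le _) (Finset.mem_range.2 hj2)
    refine HPA j j.2 u₀ (fun ω => u' ω j) (Q.mono (by omega) le_rfl hu₀)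
      ⟨?_, V, z, z', G, (LbP.of hlb).mono (Finset.Subset.refl _) (by omega) le_rfl,
        fun ω _ => by rw [hu']⟩
    show (cnt F.p (fun ω => u' ω j) A : ℝ) ≤ _
    rw [hu']
    refine (hcR j J (by omega) F _ _ _ A V z z' G hlb).trans
      (Real.exp_le_exp.2 (mul_le_mul_of_nonneg_right ?_ hJ0))
    exact_mod_cast (by omega : MR j ≤ K₁)
  choose V₂ z₂ hz₂ hC₂ using hz
  refine ⟨∀ j, V₂ j, fun ω j => z₂ j ω, Cl2.pi hz₂, fun σ hσ0 hσ => ?_⟩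
  obtain ⟨q', hq'⟩ : ∃ q' : F.Ω → ℝ, q' = Pool.Agent.H49.Ent.cond F.p A True := ⟨_, rfl⟩
  have hq'l : IsLaw q' := by
    rw [hq']
    exact isLaw_cond F.isLaw hA
  have h0 := hq'l.nonneg
  rw [← hq'] at hC₂ ⊢
  have hWJ : ⌊v * J⌋₊ ≤ J := floor_le (hva.trans ha) J
  obtain ⟨Y, hY⟩ : ∃ Y : F.Ω → U × ((∀ j, V₂ j) × γ J F), Y = fun ω =>
    (u₀ ω, ((fun j => z₂ j ω), y J F ω)) := ⟨_, rfl⟩
  rw [← hY]
  obtain ⟨φT, hφT⟩ := hyT J F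
  have k1 : CH q' u' Y ≤ δ / 2 * J := by
    refine (CH_pis h0 _ _).trans ?_
    have h2 : ∀ j ∈ (univ : Finset (Fin (K + 2))), CH q' (fun ω => u' ω j) Y ≤ h' * J := by
      intro j _
      refine le_trans (CH_mono_cond h0 fun ω ω' _ _ e => ?_) (hC₂ j)
      rw [hY] at e
      simp only [Prod.mk.injEq] at e ⊢
      exact ⟨e.1, congrFun e.2.1 j, e.2.2⟩
    refine (Finset.sum_le_sum h2).trans (le_of_eq ?_)
    rw [Finset.sum_const, Finset.card_univ, Fintype.card_fin, nsmul_eq_mul, ← mul_assoc, hhe]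
  have k2 : CH q' (cod F ⌊v * J⌋₊ 0 (K + 1) σ (c l) z' G) (fun ω => (u' ω, Y ω)) ≤ L' := by
    rw [hL']
    refine cod_few (w := v) (N := n l) hv0 hWJ hσ0 hσ (fun v => ?_) hq'l
      (fun ω => (u' ω, Y ω)) 0 (s := fun j => n l - (j : ℕ) * v) (fun j hj _ => le_rfl)
      fun ω ω' _ _ e => ⟨?_, fun j hj hj' => ?_⟩
    · exact Nat.succ_le_succ (hlb.deg v)
    · have e1 := (Prod.ext_iff.mp e).2
      rw [hY] at e1
      simp only [Prod.mk.injEq] at e1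
      rw [hφT, hφT, e1.2.2]
    · have e2 := congrFun (Prod.ext_iff.mp e).1 ⟨j, by omega⟩
      rw [hu'] at e2
      exact e2
  have s1 := CH_le_add h0 (cod F ⌊v * J⌋₊ 0 (K + 1) σ (c l) z' G) u' Y
  have e4 : δ * J = δ / 2 * J + δ / 2 * J := by ring
  rw [e4]
  linarith

end Pool.AJW
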