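import Pool.Agent.H71.AJW.Ctk
import Pool.Agent.H71.AVG.Cof

/-!
# The field `jt`

`jt_cls`: the codes of the own path of the target over the labels of `w` (all orders, `q` digits
behind the natural digits) are few bits given the record at `x ≥ b M`, `y` and the jets of order
`≤ K + 2` of the chain over (other) labels of `w`, to `n l` digits only.
-/

set_option autoImplicit false

namespace Pool.AJW

open Finset Real MvPolynomial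
open Pool.Agent.H49.Ent Pool.Agent.H32.Dense Pool.STK Pool.KA Pool.KSAT Pool.K2S Pool.PB Pool.GEN
open Pool.S6C Pool.RCD Pool.LA91 Pool.OWN68 Pool.CHT
open Pool.GRD (LbP)
open Pool.UNJ (ceI Tub)
open Pool.AVG71 (cod cod_few)

/-- **The numbers** of the digits `n l` of the chain at the window `b 0`, for two families of labels. -/
structure TwoN (r₀ r : ℕ) (b0 Ub σ : ℝ) (p n lv : ℕ → ℝ) : Prop where
  σ0 : 0 < σ
  lv0 : ∀ l, r₀ ≤ l → l < r → 0 < lv l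
  h1 : ∀ l, r₀ ≤ l → l < r → p l + lv l + σ ≤ n l
  h2 : ∀ l, r₀ ≤ l → l < r → lv l + σ ≤ Ub - b0
  h3 : ∀ l, r₀ ≤ l → l < r → ∀ l', r₀ ≤ l' → l' < l → lv l + σ ≤ lv l'
  h4 : ∀ l, r₀ ≤ l → l < r → n l + σ ≤ p l + (Ub - b0)
  h5 : ∀ l, r₀ ≤ l → l < r → ∀ l', r₀ ≤ l' → l' < l → n l + σ ≤ p l + lv l'

/-- **The field `jt`.** -/
theorem jt_cls (K : ℕ) {h : ℝ} (hh : 0 < h) (hh1 : h ≤ 1) {ε : ℝ}
    (hε : 0 < ε) : ∃ δ : ℝ, 0 < δ ∧ ∀ {m : ℕ} {S : PCl m} {C₀ : ℝ} (_ : TmC S C₀)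
    {c : ℕ → Fin m} {r₀ r : ℕ} {b : ℕ → ℝ} {M : ℕ} {Pv : ℕ → ℝ → ℝ} {D n : ℕ → ℝ}
    {Ub ρ : ℝ} {rk : ℕ → ℝ} (_ : MshN S c r₀ r b M Pv D n Ub ρ rk)
    {q g₀ : ℝ} {rd N : ℕ → ℝ} (_ : 0 < q) (_ : 0 ≤ Pv r (b 0)) (_ : 0 < g₀)
    (_ : Pv r (b 0) + q + g₀ ≤ 1) (_ : ∀ i, r₀ ≤ i → i ≤ r → 0 ≤ rd i ∧ rd i + g₀ ≤ 1)
    (_ : ∀ i, r₀ ≤ i → i < r → n i + g₀ ≤ 1) (_ : Ub < 1) (_ : b 0 + q ≤ 1)
    (_ : ∀ i, r₀ ≤ i → i < r → TgtN r₀ i b M Pv D Ub ρ (N i) ∧ N i ≤ n i)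
    (_ : TgtN r₀ r b M Pv D Ub ρ (Pv r (b 0) + q))
    (_ : ∑ i ∈ Finset.Ico r₀ r, (Pv i (b M) - N i) ≤ δ * q)
    {lv : ℕ → ℝ} {σ₀ : ℝ} (_ : TwoN r₀ r (b 0) Ub σ₀ (fun l => Pv l (b 0)) n lv)
    {α γ : ∀ J : ℕ, Fam m J → Type}
    {f : ∀ (J : ℕ) (F : Fam m J), F.Ω → α J F} {y : ∀ (J : ℕ) (F : Fam m J), F.Ω → γ J F}
    (_ : ∀ (J : ℕ) (F : Fam m J), ∃ φ : α J F → PtT F, ∀ ω, ptr F J ω = φ (f J F ω))
    (_ : Kn ((range r₀).image c) Ub (Ub - b 0) y) {a : ℝ} (_ : b M ≤ a) (_ : a ≤ 1)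
    (_ : ∀ q' : ℝ, 0 ≤ q' → q' ≤ q →
      RawN S ((range r).image c) (c r) (Pv r (b 0)) q' h (δ * q)),
    ∃ e₀ : ℝ, 0 < e₀ ∧ ∀ e : ℝ, 0 < e → e ≤ e₀ → ∀ K₀ : ℕ,
      Bas S (fun J F A => ∀ (V : Type) (z : PtT F → V) (z' : LnT F → V)
        (g : V → ℕ → MvPolynomial (Option (Fin m)) ℝ),
        LbC F c r₀ (r + 1) K e (b 0) rd (fun l => Pv l (b 0)) A z z' g →
        ∀ u₀ : F.Ω → ℕ → ℕ → ℤ, (qJets m c r₀ r (K + 2) (fun _ _ => b 0)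
          (fun l _ => Pv l (b 0)) (fun l j' => n l - (j' : ℕ) * b 0)).P K₀ e J F A u₀ →
        ∃ (V₁ : Type) (z₁ : F.Ω → V₁), Cl2 (f J F) (vg a J F) A z₁ ∧
          ∀ σ : ℝ, 0 < σ → σ ≤ 2 ^ ((Pv r (b 0) + q) * J) →
          CH (Pool.Agent.H49.Ent.cond F.p A True)
            (cod F ⌊b 0 * J⌋₊ 0 (K + 1) σ (c r) z' (fun v => g v r))
            (fun ω => (u₀ ω, (z₁ ω, y J F ω))) ≤ ε * q * J) := by
  classical
  obtain ⟨δ, hδ, H⟩ := path_msh K hh hh1 (ε := ε / 2) (by positivity)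
  choose M₂ hM₂ using fun j : ℕ => jet_path (K + 2) j
  refine ⟨δ, hδ, ?_⟩
  intro m S C₀ htm c r₀ r b M Pv D n Ub ρ rk HM q g₀ rd N hq hp0 hg₀ hpq hrd hn1 hU1 hbq hN hNr
    hsum lv σ₀ HT α γ f y hf hy a hba ha hraw
  have hb0 : b 0 ≤ b M := HM.bmono (Nat.zero_le M) le_rfl
  have hδq : 0 < δ * q := by positivity
  have hσ₀ := HT.σ0
  have hb00 := HM.b0
  have hbU : b 0 < Ub := lt_of_le_of_lt hb0 HM.bU
  have e3 : b 0 + (Ub - b 0) = Ub := by ring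
  have hy0 : Kn0 ((range r₀).image c) Ub y := by
    intro J F
    obtain ⟨φ, hφ⟩ := hy J F
    exact ⟨fun x => ((φ x).1, (φ x).2.1), fun ω => by
      show ((φ (y J F ω)).1, (φ (y J F ω)).2.1) = _
      rw [hφ ω]⟩
  have hyT : ∀ (J : ℕ) (F : Fam m J), ∃ φ : γ J F → ℕ, ∀ ω, F.T ω = φ (y J F ω) := by
    intro J F
    obtain ⟨φ, hφ⟩ := hy J F
    exact ⟨fun x => (φ x).1, fun ω => (congrArg Prod.fst (hφ ω)).symm⟩
  obtain ⟨u₁, rw₀, hch, hrw₀⟩ := HM.chn 0 (Nat.zero_le M)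
  obtain ⟨e₀, he₀, he₀1, HP⟩ := H htm HM hq hp0 hg₀ hpq hrd hn1 hU1 hbq hN hNr hsum
    (Qu := qJets m c r₀ r (K + 2) (fun _ _ => b 0) (fun l _ => Pv l (b 0))
      (fun l j' => n l - (j' : ℕ) * b 0)) (f := f) (y := y) (a := a) (e₁ := σ₀ / 8) hf hy0 hba ha
    (by positivity)
    (fun e h1 h2 => two_ctx htm hch hb00 (hb0.trans hba) ha (by linarith) (by linarith) hσ₀
      HT.lv0 HT.h1 HT.h2 HT.h3 HT.h4 HT.h5 hf (by rw [e3]; exact hy) (Nat.le_succ r) hδq h1 h2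
      (fun i x y => (hrd i x y.le).1)) hraw
  refine ⟨e₀, he₀, fun e he hle K₀ => ?_⟩
  -- the constants
  obtain ⟨L, hL⟩ : ∃ L : ℝ, L = ∑ j ∈ range (K + 3), Real.log (2 * M₂ j + 1) := ⟨_, rfl⟩
  have hlM : ∀ j, 0 ≤ Real.log (2 * (M₂ j : ℝ) + 1) := fun j => Real.log_nonneg (by
    have : (0 : ℝ) ≤ M₂ j := Nat.cast_nonneg _
    linarith)
  have hLj : ∀ j < K + 3, Real.log (2 * (M₂ j : ℝ) + 1) ≤ L := by
    intro j hj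
    rw [hL]
    exact Finset.single_le_sum (f := fun j => Real.log (2 * (M₂ j : ℝ) + 1))
      (fun j _ => hlM j) (Finset.mem_range.2 hj)
  obtain ⟨L', hL'⟩ : ∃ L' : ℝ, L' = ((K + 1 + 1 : ℕ) : ℝ) *
    Real.log (2 * (2 ^ (2 * (K + 1) + 1) + 1) + 1) := ⟨_, rfl⟩
  obtain ⟨J₂, hJ₂⟩ := exists_nat_ge (((K + 3 : ℕ) * L + L') / (ε / 2 * q))
  refine Bas.mono J₂ ((HP e he hle K₀).and (Pool.GRW.tmc_bas htm one_pos)) ?_
  rintro J hJ F A ⟨HPA, hA, -⟩ V z z' g hlb u₀ hu₀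
  have hJ2 : (J₂ : ℝ) ≤ J := by exact_mod_cast hJ
  have hJ0 : (0 : ℝ) ≤ J := Nat.cast_nonneg J
  have f1 : (K + 3 : ℕ) * L + L' ≤ ε / 2 * q * J := by
    have := hJ₂.trans hJ2
    rw [div_le_iff₀ (by positivity)] at this
    linarith
  obtain ⟨V₁, z₁, hz₁, h1⟩ := HPA V z z' g hlb u₀ hu₀
  refine ⟨V₁, z₁, hz₁, fun σ hσ0 hσ => ?_⟩
  obtain ⟨q', hq'⟩ : ∃ q' : F.Ω → ℝ, q' = Pool.Agent.H49.Ent.cond F.p A True := ⟨_, rfl⟩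
  have hq'l : IsLaw q' := by
    rw [hq']
    exact isLaw_cond F.isLaw hA
  have h0 := hq'l.nonneg
  rw [← hq'] at h1 ⊢
  have hWJ : ⌊b 0 * J⌋₊ ≤ J := floor_le (hb0.trans (hba.trans ha)) J
  have hdeg : ∀ v, (MvPolynomial.X (some (c r)) - g v r).totalDegree ≤ K + 2 := by
    intro v
    refine (MvPolynomial.totalDegree_sub _ _).trans (max_le ?_ ?_)
    · exact (totalDegree_X _).le.trans (by omega)
    · exact ((hlb r HM.hr (Nat.lt_succ_self r)).deg v).trans (by omega)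
  obtain ⟨X, hX⟩ : ∃ X : F.Ω → (V × (F.ζ × ℕ)) × (((Fin m → ℤ × ℤ) × (ℕ → ℕ → ℤ)) ×
      (Fin (K + 3) → ℤ)), X = fun ω => ((z' (vg (b 0) J F ω), (vg (b 0) J F ω).2),
        (ctx c r₀ r K (b 0) (Ub - b 0) n J F V z' g ω,
            pth c r K (b 0) (Pv r (b 0) + q) J F V z' g ω)) := ⟨_, rfl⟩
  have h1 : CH q' X (fun ω => (u₀ ω, (z₁ ω, y J F ω))) ≤ ε / 2 * q * J := by
    rw [hX]
    exact h1
  obtain ⟨Y, hY⟩ : ∃ Y : F.Ω → (ℕ → ℕ → ℤ) × (V₁ × γ J F), Y = fun ω =>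
    (u₀ ω, (z₁ ω, y J F ω)) := ⟨_, rfl⟩
  rw [← hY] at h1 ⊢
  obtain ⟨φT, hφT⟩ := hyT J F
  have hT : ∀ ω ω', Y ω = Y ω' → F.T ω = F.T ω' := by
    intro ω ω' e1
    rw [hY] at e1
    simp only [Prod.mk.injEq] at e1
    rw [hφT, hφT, e1.2.2]
  -- the jets
  obtain ⟨uj, huj⟩ : ∃ uj : F.Ω → Fin (K + 3) → ℤ, uj = fun ω (j : Fin (K + 3)) =>
    ⌊(2 : ℝ) ^ ((Pv r (b 0) + q - (j : ℕ) * b 0) * J) *
      ojet F (c r) j (g (z' (slam F ⌊b 0 * J⌋₊ ω)) r) ω⌋ := ⟨_, rfl⟩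
  have k1 : CH q' uj (fun ω => (X ω, Y ω)) ≤ (K + 3 : ℕ) * L := by
    refine (CH_pis h0 _ _).trans ?_
    have h2 : ∀ j ∈ (univ : Finset (Fin (K + 3))), CH q' (fun ω => uj ω j)
        (fun ω => (X ω, Y ω)) ≤ L := by
      intro j _
      rw [huj]
      refine (hM₂ j hb00 hWJ (s := Pv r (b 0) + q) (κ := c r) (z' := z') (G := fun v => g v r)
        hdeg hq'l (fun ω => (X ω, Y ω)) fun ω ω' _ _ e => ⟨hT ω ω' (Prod.ext_iff.mp e).2,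
          fun i hi => ?_⟩).trans (hLj j j.2)
      have e2 := (Prod.ext_iff.mp e).1
      rw [hX] at e2
      simp only [Prod.mk.injEq] at e2
      exact congrFun e2.2.2 ⟨i, by omega⟩
    refine (Finset.sum_le_sum h2).trans (le_of_eq ?_)
    rw [Finset.sum_const, Finset.card_univ, Fintype.card_fin, nsmul_eq_mul]
  -- the codes
  have k2 : CH q' (cod F ⌊b 0 * J⌋₊ 0 (K + 1) σ (c r) z' (fun v => g v r))
      (fun ω => (uj ω, (X ω, Y ω))) ≤ L' := by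
    rw [hL']
    refine cod_few (w := b 0) (N := Pv r (b 0) + q) hb00 hWJ hσ0 hσ (fun v => ?_) hq'l
      (fun ω => (uj ω, (X ω, Y ω))) 0 (s := fun j => Pv r (b 0) + q - (j : ℕ) * b 0)
      (fun _ _ _ => le_rfl) fun ω ω' _ _ e => ⟨?_, fun j _ hj => ?_⟩
    · exact Nat.succ_le_succ ((hlb r HM.hr (Nat.lt_succ_self r)).deg v)
    · exact hT ω ω' (Prod.ext_iff.mp (Prod.ext_iff.mp e).2).2
    · have e2 := (Prod.ext_iff.mp e).1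
      rw [huj] at e2
      exact congrFun e2 ⟨j, by omega⟩
  have s1 := CH_le_add h0 (cod F ⌊b 0 * J⌋₊ 0 (K + 1) σ (c r) z' (fun v => g v r)) X Y
  have s2 := CH_le_add h0 (cod F ⌊b 0 * J⌋₊ 0 (K + 1) σ (c r) z' (fun v => g v r)) uj
    (fun ω => (X ω, Y ω))
  have e4 : ε * q * J = ε / 2 * q * J + ε / 2 * q * J := by ring
  rw [e4]
  linarith

end Pool.AJW
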