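import Pool.Agent.H71.AVG.Far

/-!
# Jets over any labels from the path over the class labels, and codes from jets

`path_F1`: if the labels, the context and the own path of the target over the labels of the chain at
`v` are few bits, then so is every quantity which is few bits given the jets over these labels.
`cod_F1`: the codes of the own path over labels of any precision and complexity, from the jets.
-/

set_option autoImplicit false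

namespace Pool.AJW

open Finset Real MvPolynomial
open Pool.Agent.H49.Ent Pool.Agent.H32.Dense Pool.STK Pool.KA Pool.KSAT Pool.K2S Pool.PB Pool.GEN
open Pool.S6C Pool.RCD Pool.LA91 Pool.OWN68 Pool.CHT
open Pool.GRD (LbP)
open Pool.UNJ (ceI Tub)
open Pool.AVG71 (cod cod_few)

/-- **From the path over the labels of the chain.** -/
theorem path_F1 (K : ℕ) {m : ℕ} {S : PCl m} {C₀ : ℝ} (htm : TmC S C₀) {c : ℕ → Fin m} {r₀ r : ℕ}
    {v a lam N e δ₁ h' δ₂ : ℝ} {rd p n : ℕ → ℝ} (hr : r₀ ≤ r) (hv0 : 0 ≤ v) (hva : v ≤ a)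
    (ha : a ≤ 1) (he : 0 < e) (hrd : ∀ i, r₀ ≤ i → i ≤ r → 0 ≤ rd i)
    {U₀ U' : Type} {Qu : Qt m U₀} {Q' : Qt m U'} {α γ : ∀ J : ℕ, Fam m J → Type}
    {f : ∀ (J : ℕ) (F : Fam m J), F.Ω → α J F} {y : ∀ (J : ℕ) (F : Fam m J), F.Ω → γ J F}
    (hyT : ∀ (J : ℕ) (F : Fam m J), ∃ φ : γ J F → ℕ, ∀ ω, F.T ω = φ (y J F ω))
    (hX : FwL S f (vg a) y Qu c r₀ (r + 1) K v rd p
        (τ := fun _ F V => (V × (F.ζ × ℕ)) × (((Fin m → ℤ × ℤ) × (ℕ → ℕ → ℤ)) × (Fin (K + 3) → ℤ)))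
        (fun J F V z' g ω => ((z' (vg v J F ω), (vg v J F ω).2),
          (ctx c r₀ r K v lam n J F V z' g ω, pth c r K v N J F V z' g ω))) e δ₁)
    (hlb : Bas S (fun J F A => ∃ (V : Type) (z : PtT F → V) (z' : LnT F → V)
      (g : V → ℕ → MvPolynomial (Option (Fin m)) ℝ), LbC F c r₀ (r + 1) K e v rd p A z z' g))
    {j : ℕ} (hN : F1 S f (vg a) y
      ((qJets m c r₀ r j (fun _ _ => v) (fun l _ => p l)
        (fun l j' => n l - (j' : ℕ) * v)).prod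
        (qJets m c r (r + 1) j (fun _ _ => v) (fun l _ => p l)
          (fun _ j' => N - (j' : ℕ) * v))) Q' e h')
    (hδ : δ₁ + h' < δ₂) : F1 S f (vg a) y Qu Q' e δ₂ := by
  classical
  intro K₀
  obtain ⟨MV, JV, hcV⟩ := cnt_jets2 m K (e := e) (w := v) he (fun l j => n l - j * v)
    (fun i => max (rd i) 0) r (j + 1) (fun i _ => le_max_right _ _)
  choose MR JR hcR using fun i : ℕ => cnt_jet m K i (N := N - (i : ℕ) * v) (w := v)
    (hrd r hr le_rfl) he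
  choose M₂ hM₂ using fun j : ℕ => jet_path (K + 2) j
  obtain ⟨K₁, hK₁⟩ : ∃ K₁ : ℕ, K₁ = K₀ + K + MV + ∑ i ∈ range (j + 1), MR i := ⟨_, rfl⟩
  obtain ⟨J₁, hJ₁⟩ : ∃ J₁ : ℕ, J₁ = JV + ∑ i ∈ range (j + 1), JR i := ⟨_, rfl⟩
  obtain ⟨L, hL⟩ : ∃ L : ℝ, L = ∑ j ∈ range (j + 1), Real.log (2 * M₂ j + 1) := ⟨_, rfl⟩
  have hlM : ∀ j, 0 ≤ Real.log (2 * (M₂ j : ℝ) + 1) := fun j => Real.log_nonneg (by
    have : (0 : ℝ) ≤ M₂ j := Nat.cast_nonneg _
    linarith)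
  have hL0 : 0 ≤ L := by
    rw [hL]
    exact Finset.sum_nonneg fun j _ => hlM j
  have hLj : ∀ i < j + 1, Real.log (2 * (M₂ i : ℝ) + 1) ≤ L := by
    intro i hi
    rw [hL]
    exact Finset.single_le_sum (f := fun j => Real.log (2 * (M₂ j : ℝ) + 1))
      (fun j _ => hlM j) (Finset.mem_range.2 hi)
  have hδ0 : 0 < δ₂ - (δ₁ + h') := by linarith
  obtain ⟨J₂, hJ₂⟩ := exists_nat_ge ((r + 1) * (j + 1) * L / (δ₂ - (δ₁ + h')))
  refine Bas.mono (max J₁ J₂) (((hX K₀).and (hN K₁)).and (hlb.and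
    (Pool.GRW.tmc_bas htm one_pos))) ?_
  rintro J hJ F A ⟨⟨HPA, HNA⟩, ⟨V, z, z', g, hlb⟩, hA, -⟩ u₀ u' hu₀ hu'
  have hJ1 : J₁ ≤ J := (le_max_left _ _).trans hJ
  have hJ2 : (J₂ : ℝ) ≤ J := by exact_mod_cast (le_max_right _ _).trans hJ
  have hJ0 : (0 : ℝ) ≤ J := Nat.cast_nonneg J
  have f1 : (r + 1) * (j + 1) * L ≤ (δ₂ - (δ₁ + h')) * J := by
    have := hJ₂.trans hJ2
    rw [div_le_iff₀ hδ0] at this
    linarith
  obtain ⟨q', hq'⟩ : ∃ q' : F.Ω → ℝ, q' = Pool.Agent.H49.Ent.cond F.p A True := ⟨_, rfl⟩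
  have hq'l : IsLaw q' := by
    rw [hq']
    exact isLaw_cond F.isLaw hA
  have h0 := hq'l.nonneg
  have hvJ : ⌊v * J⌋₊ ≤ J := floor_le (hva.trans ha) J
  obtain ⟨Va, za, hza, h1⟩ := HPA V z z' g hlb u₀ hu₀
  rw [← hq'] at h1 ⊢
  obtain ⟨X, hX⟩ : ∃ X : F.Ω → (V × (F.ζ × ℕ)) × (((Fin m → ℤ × ℤ) × (ℕ → ℕ → ℤ)) ×
      (Fin (K + 3) → ℤ)), X = fun ω => ((z' (vg v J F ω), (vg v J F ω).2),
        (ctx c r₀ r K v lam n J F V z' g ω, pth c r K v N J F V z' g ω)) := ⟨_, rfl⟩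
  replace h1 : CH q' X (fun ω => (u₀ ω, (za ω, y J F ω))) ≤ δ₁ * J := by
    rw [hX]
    exact h1
  have hlbr := hlb r hr (Nat.lt_succ_self r)
  have hdeg : ∀ l, r₀ ≤ l → l < r + 1 → ∀ v,
      (MvPolynomial.X (some (c l)) - g v l).totalDegree ≤ K + 2 := by
    intro l x y v
    refine (MvPolynomial.totalDegree_sub _ _).trans (max_le ?_ ?_)
    · exact (totalDegree_X _).le.trans (by omega)
    · exact ((hlb l x y).deg v).trans (by omega)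
  -- the jets over `v`
  obtain ⟨uu, huu⟩ : ∃ uu : F.Ω → ℕ → ℕ → ℤ, uu = fun ω (l j' : ℕ) =>
    if r₀ ≤ l ∧ l < r ∧ j' ≤ j then ⌊(2 : ℝ) ^ ((n l - j' * v) * J) *
      ojet F (c l) j' (g (z' (slam F ⌊v * J⌋₊ ω)) l) ω⌋ else 0 := ⟨_, rfl⟩
  obtain ⟨ww, hww⟩ : ∃ ww : F.Ω → ℕ → ℕ → ℤ, ww = fun ω (l j' : ℕ) =>
    if r ≤ l ∧ l < r + 1 ∧ j' ≤ j then ⌊(2 : ℝ) ^ ((N - j' * v) * J) *
      ojet F (c l) j' (g (z' (slam F ⌊v * J⌋₊ ω)) l) ω⌋ else 0 := ⟨_, rfl⟩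
  obtain ⟨Vz, zz, hzz, hCz⟩ : ∃ (V₂ : Type) (z₂ : F.Ω → V₂), Cl2 (f J F) (vg a J F) A z₂ ∧
      CH q' u' (fun ω => ((uu ω, ww ω), (z₂ ω, y J F ω))) ≤ h' * J := by
    have h2 := HNA (fun ω => (uu ω, ww ω)) u' ⟨⟨?_, ?_⟩, ?_⟩ (Q'.mono (by omega) le_rfl hu')
    · rw [← hq'] at h2
      exact h2
    · intro i x y j' hj'
      have e1 : (fun ω => uu ω i j') = fun ω => ⌊(2 : ℝ) ^ ((n i - j' * v) * J) *
          ojet F (c i) j' (g (z' (slam F ⌊v * J⌋₊ ω)) i) ω⌋ := by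
        funext ω
        rw [huu]
        exact if_pos ⟨x, y, hj'⟩
      refine ⟨?_, V, z, z', fun v => g v i, (LbP.of (hlb i x (by omega))).mono
        (Finset.Subset.refl _) (by omega) le_rfl, fun ω _ => by rw [huu]; exact if_pos ⟨x, y, hj'⟩⟩
      show (cnt F.p (fun ω => uu ω i j') A : ℝ) ≤ _
      rw [e1]
      refine (hcV i y j' (by omega) J (by omega) F _ _ _ A V z z' (fun v => g v i) (by
        rw [max_eq_left (hrd i x y.le)]
        exact hlb i x (by omega))).trans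
        (Real.exp_le_exp.2 (mul_le_mul_of_nonneg_right ?_ hJ0))
      exact_mod_cast (by omega : MV ≤ K₁)
    · intro ω _ i j' hij
      show uu ω i j' = 0
      rw [huu]
      exact if_neg hij
    · refine ⟨fun i x y j' hj' => ?_, fun ω _ i j' hij => ?_⟩
      · obtain rfl : i = r := by omega
        have e1 : (fun ω => ww ω i j') = fun ω => ⌊(2 : ℝ) ^ ((N - j' * v) * J) *
            ojet F (c i) j' (g (z' (slam F ⌊v * J⌋₊ ω)) i) ω⌋ := by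
          funext ω
          rw [hww]
          exact if_pos ⟨x, y, hj'⟩
        have hMj : MR j' ≤ ∑ j ∈ range (j + 1), MR j :=
          Finset.single_le_sum (f := MR) (fun i _ => Nat.zero_le _)
            (Finset.mem_range.2 (by omega))
        have hJj : JR j' ≤ ∑ j ∈ range (j + 1), JR j :=
          Finset.single_le_sum (f := JR) (fun i _ => Nat.zero_le _)
            (Finset.mem_range.2 (by omega))
        refine ⟨?_, V, z, z', fun v => g v i, (LbP.of hlbr).mono (Finset.Subset.refl _)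
          (by omega) le_rfl, fun ω _ => by rw [hww]; exact if_pos ⟨x, y, hj'⟩⟩
        show (cnt F.p (fun ω => ww ω i j') A : ℝ) ≤ _
        rw [e1]
        refine (hcR j' J (by omega) F _ _ _ A V z z' (fun v => g v i) hlbr).trans
          (Real.exp_le_exp.2 (mul_le_mul_of_nonneg_right ?_ hJ0))
        exact_mod_cast (by omega : MR j' ≤ K₁)
      · show ww ω i j' = 0
        rw [hww]
        exact if_neg hij
  refine ⟨Va × Vz, fun ω => (za ω, zz ω), hza.join hzz, ?_⟩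
  obtain ⟨Y, hY⟩ : ∃ Y : F.Ω → U₀ × ((Va × Vz) × γ J F), Y = fun ω =>
    (u₀ ω, ((za ω, zz ω), y J F ω)) := ⟨_, rfl⟩
  rw [← hY]
  obtain ⟨φT, hφT⟩ := hyT J F
  have hT : ∀ ω ω', (X ω, Y ω) = (X ω', Y ω') → F.T ω = F.T ω' := by
    intro ω ω' e
    have e1 := (Prod.ext_iff.mp e).2
    rw [hY] at e1
    simp only [Prod.mk.injEq] at e1
    rw [hφT, hφT, e1.2.2]
  -- the jets of the chain, from the path
  have k1 : CH q' uu (fun ω => (X ω, Y ω)) ≤ r * (j + 1) * L := by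
    refine le_trans (CH_mono_left h0 (X' := fun ω (l : Fin r) (j' : Fin (j + 1)) =>
      uu ω l j') fun ω ω' _ _ e => ?_) ((CH_pis h0 _ _).trans ?_)
    · funext l j'
      by_cases hlj : r₀ ≤ l ∧ l < r ∧ j' ≤ j
      · exact congrFun (congrFun (Prod.ext_iff.mp e).1 ⟨l, hlj.2.1⟩) ⟨j', by omega⟩
      · rw [huu]
        show (if r₀ ≤ l ∧ l < r ∧ j' ≤ j then _ else (0 : ℤ)) =
          if r₀ ≤ l ∧ l < r ∧ j' ≤ j then _ else (0 : ℤ)
        rw [if_neg hlj, if_neg hlj]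
    · have h2 : ∀ l ∈ (univ : Finset (Fin r)), CH q' (fun ω (j' : Fin (j + 1)) => uu ω l j')
          (fun ω => (X ω, Y ω)) ≤ (j + 1) * L := by
        intro l _
        refine (CH_pis h0 _ _).trans ?_
        have h3 : ∀ j' ∈ (univ : Finset (Fin (j + 1))), CH q' (fun ω => uu ω l j')
            (fun ω => (X ω, Y ω)) ≤ L := by
          intro j' _
          by_cases hlj : r₀ ≤ (l : ℕ) ∧ (l : ℕ) < r ∧ (j' : ℕ) ≤ j
          · have e1 : (fun ω => uu ω l j') = fun ω =>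
                ⌊(2 : ℝ) ^ ((n l - (j' : ℕ) * v) * J) *
                  ojet F (c l) j' (g (z' (slam F ⌊v * J⌋₊ ω)) l) ω⌋ := by
              funext ω
              rw [huu]
              exact if_pos hlj
            rw [e1]
            refine (hM₂ j' hv0 hvJ (s := n l) (κ := c l) (z' := z') (G := fun v => g v l)
              (hdeg l hlj.1 (by omega)) hq'l (fun ω => (X ω, Y ω))
              fun ω ω' _ _ e => ⟨hT ω ω' e, fun i hi => ?_⟩).trans (hLj j' j'.2)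
            have e2 := (Prod.ext_iff.mp e).1
            rw [hX] at e2
            simp only [Prod.mk.injEq] at e2
            have e3 := congrFun (congrFun (Prod.ext_iff.mp e2.2.1).2 l) i
            dsimp only [ctx, ctxN] at e3
            rw [if_pos ⟨⟨hlj.1, hlj.2.1⟩, by omega⟩, if_pos ⟨⟨hlj.1, hlj.2.1⟩, by omega⟩] at e3
            exact e3
          · refine le_trans (le_of_eq (CH_eq_zero h0 fun ω ω' _ _ _ => ?_)) hL0
            rw [huu]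
            show (if r₀ ≤ (l : ℕ) ∧ (l : ℕ) < r ∧ (j' : ℕ) ≤ j then _ else (0 : ℤ)) =
              if r₀ ≤ (l : ℕ) ∧ (l : ℕ) < r ∧ (j' : ℕ) ≤ j then _ else (0 : ℤ)
            rw [if_neg hlj, if_neg hlj]
        refine (Finset.sum_le_sum h3).trans (le_of_eq ?_)
        rw [Finset.sum_const, Finset.card_univ, Fintype.card_fin, nsmul_eq_mul]
        push_cast
        ring
      refine (Finset.sum_le_sum h2).trans (le_of_eq ?_)
      rw [Finset.sum_const, Finset.card_univ, Fintype.card_fin, nsmul_eq_mul]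
      ring
  have k2 : CH q' ww (fun ω => (X ω, Y ω)) ≤ (j + 1) * L := by
    refine le_trans (CH_mono_left h0 (X' := fun ω (j' : Fin (j + 1)) =>
      ww ω r j') fun ω ω' _ _ e => ?_) ((CH_pis h0 _ _).trans ?_)
    · funext l j'
      by_cases hlj : r ≤ l ∧ l < r + 1 ∧ j' ≤ j
      · obtain rfl : l = r := by omega
        exact congrFun (Prod.ext_iff.mp e).1 ⟨j', by omega⟩
      · rw [hww]
        show (if r ≤ l ∧ l < r + 1 ∧ j' ≤ j then _ else (0 : ℤ)) =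
          if r ≤ l ∧ l < r + 1 ∧ j' ≤ j then _ else (0 : ℤ)
        rw [if_neg hlj, if_neg hlj]
    · have h3 : ∀ j' ∈ (univ : Finset (Fin (j + 1))), CH q' (fun ω => ww ω r j')
          (fun ω => (X ω, Y ω)) ≤ L := by
        intro j' _
        have e1 : (fun ω => ww ω r j') = fun ω =>
            ⌊(2 : ℝ) ^ ((N - (j' : ℕ) * v) * J) *
              ojet F (c r) j' (g (z' (slam F ⌊v * J⌋₊ ω)) r) ω⌋ := by
          funext ω
          rw [hww]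
          exact if_pos ⟨le_rfl, Nat.lt_succ_self r, by omega⟩
        rw [e1]
        refine (hM₂ j' hv0 hvJ (s := N) (κ := c r) (z' := z') (G := fun v => g v r)
          (hdeg r hr (Nat.lt_succ_self r)) hq'l (fun ω => (X ω, Y ω))
          fun ω ω' _ _ e => ⟨hT ω ω' e, fun i hi => ?_⟩).trans (hLj j' j'.2)
        have e2 := (Prod.ext_iff.mp e).1
        rw [hX] at e2
        simp only [Prod.mk.injEq] at e2
        exact congrFun e2.2.2 ⟨i, by omega⟩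
      refine (Finset.sum_le_sum h3).trans (le_of_eq ?_)
      rw [Finset.sum_const, Finset.card_univ, Fintype.card_fin, nsmul_eq_mul]
      push_cast
      ring
  have k4 : CH q' X Y ≤ δ₁ * J := by
    refine le_trans (CH_mono_cond h0 fun ω ω' _ _ e => ?_) h1
    rw [hY] at e
    simp only [Prod.mk.injEq] at e ⊢
    exact ⟨e.1, e.2.1.1, e.2.2⟩
  have g1 := CH_le_add h0 u' (fun ω => (uu ω, ww ω)) (fun ω => (X ω, Y ω))
  have g2 := CH_subadd h0 uu ww (fun ω => (X ω, Y ω))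
  have g3 : CH q' u' (fun ω => ((uu ω, ww ω), (X ω, Y ω))) ≤ h' * J := by
    refine le_trans (CH_mono_cond h0 fun ω ω' _ _ e => ?_) hCz
    rw [hY] at e
    simp only [Prod.mk.injEq] at e ⊢
    exact ⟨e.1, e.2.2.2.1.2, e.2.2.2.2⟩
  have g6 := CH_le_add h0 u' X Y
  have g7 : (r + 1) * (j + 1) * L = r * (j + 1) * L + (j + 1) * L := by ring
  have g8 : (δ₂ - (δ₁ + h')) * J = δ₂ * J - δ₁ * J - h' * J := by ring
  linarith

/-- **The codes from the jets**, over labels of any precision and complexity. -/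
theorem cod_F1 {m : ℕ} {S : PCl m} {C₀ : ℝ} (htm : TmC S C₀) {I : Finset (Fin m)} {κ : Fin m}
    {w a P N e η δ rw : ℝ} (hw0 : 0 ≤ w) (hwa : w ≤ a) (ha : a ≤ 1) (he : 0 < e) (hrw : 0 ≤ rw)
    {U₀ : Type} {Qu : Qt m U₀} {α γ : ∀ J : ℕ, Fam m J → Type}
    {f : ∀ (J : ℕ) (F : Fam m J), F.Ω → α J F} {y : ∀ (J : ℕ) (F : Fam m J), F.Ω → γ J F}
    (hyT : ∀ (J : ℕ) (F : Fam m J), ∃ φ : γ J F → ℕ, ∀ ω, F.T ω = φ (y J F ω))
    (j₀ K : ℕ) {s : ℕ → ℝ} (hs : ∀ j : ℕ, j₀ ≤ j → j ≤ K + 1 → N - j * w ≤ s j)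
    (hF : ∀ j : ℕ, j₀ ≤ j → j ≤ K + 1 → F1 S f (vg a) y Qu (qJet m I κ j w P (s j)) e η)
    (hη0 : 0 ≤ η) (hη : (K + 2) * η < δ) (K₀ : ℕ) :
    Bas S (fun J F A => ∀ u₀ : F.Ω → U₀, Qu.P K₀ e J F A u₀ →
      ∀ (V : Type) (z : PtT F → V) (z' : LnT F → V)
        (G : V → MvPolynomial (Option (Fin m)) ℝ), LbOK F I κ K
          ⌊e * J⌋₊ J ⌊w * J⌋₊ ⌊(rw + e) * J⌋₊ ⌊(P - e) * J⌋₊ A z z' G →
        ∃ (V₁ : Type) (z₁ : F.Ω → V₁), Cl2 (f J F) (vg a J F) A z₁ ∧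
          ∀ σ : ℝ, 0 < σ → σ ≤ 2 ^ (N * J) →
          CH (Pool.Agent.H49.Ent.cond F.p A True)
            (cod F ⌊w * J⌋₊ j₀ (K + 1) σ κ z' G)
            (fun ω => (u₀ ω, (z₁ ω, y J F ω))) ≤ δ * J) := by
  classical
  choose MR JR hcR using fun j : ℕ => cnt_jet m K j (N := s j) (w := w) hrw he
  obtain ⟨K₁, hK₁⟩ : ∃ K₁ : ℕ, K₁ = K₀ + K + ∑ j ∈ range (K + 2), MR j := ⟨_, rfl⟩
  obtain ⟨J₁, hJ₁⟩ : ∃ J₁ : ℕ, J₁ = ∑ j ∈ range (K + 2), JR j := ⟨_, rfl⟩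
  obtain ⟨L', hL'⟩ : ∃ L' : ℝ, L' = ((K + 1 + 1 : ℕ) : ℝ) *
    Real.log (2 * (2 ^ (2 * (K + 1) + 1) + 1) + 1) := ⟨_, rfl⟩
  have hδ0 : 0 < δ - (K + 2) * η := by linarith
  obtain ⟨J₂, hJ₂⟩ := exists_nat_ge (L' / (δ - (K + 2) * η))
  have hall : Bas S (fun J F A => ∀ j < K + 2, j₀ ≤ j → ∀ (u : F.Ω → U₀) (u' : F.Ω → ℤ),
      Qu.P K₁ e J F A u → (qJet m I κ j w P (s j)).P K₁ e J F A u' →
      ∃ (V : Type) (z : F.Ω → V), Cl2 (f J F) (vg a J F) A z ∧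
        CH (Pool.Agent.H49.Ent.cond F.p A True) u'
          (fun ω => (u ω, (z ω, y J F ω))) ≤ η * J) := by
    refine Bas.all (K + 2) fun j hj => ?_
    by_cases hj0 : j₀ ≤ j
    · refine Bas.mono 0 (hF j hj0 (by omega) K₁) ?_
      intro J _ F A h _
      exact h
    · exact ⟨1, one_pos, 0, fun J _ F A _ h => absurd h hj0⟩
  refine Bas.mono (max J₁ J₂) (hall.and (Pool.GRW.tmc_bas htm one_pos)) ?_
  rintro J hJ F A ⟨HPA, hA, -⟩ u₀ hu₀ V z z' G hlb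
  have hJ1 : J₁ ≤ J := (le_max_left _ _).trans hJ
  have hJ2 : (J₂ : ℝ) ≤ J := by exact_mod_cast (le_max_right _ _).trans hJ
  have hJ0 : (0 : ℝ) ≤ J := Nat.cast_nonneg J
  have f1 : L' ≤ (δ - (K + 2) * η) * J := by
    have := hJ₂.trans hJ2
    rw [div_le_iff₀ hδ0] at this
    linarith
  obtain ⟨u', hu'⟩ : ∃ u' : F.Ω → Fin (K + 2) → ℤ, u' = fun ω (j : Fin (K + 2)) =>
    if j₀ ≤ (j : ℕ) then ⌊(2 : ℝ) ^ (s j * J) *
      ojet F κ j (G (z' (slam F ⌊w * J⌋₊ ω))) ω⌋ else 0 := ⟨_, rfl⟩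
  obtain ⟨q', hq'⟩ : ∃ q' : F.Ω → ℝ, q' = Pool.Agent.H49.Ent.cond F.p A True := ⟨_, rfl⟩
  have hq'l : IsLaw q' := by
    rw [hq']
    exact isLaw_cond F.isLaw hA
  have h0 := hq'l.nonneg
  have hηJ : 0 ≤ η * J := mul_nonneg hη0 hJ0
  have hz : ∀ j : Fin (K + 2), ∃ (V₂ : Type) (z₂ : F.Ω → V₂), Cl2 (f J F) (vg a J F) A z₂ ∧
      CH q' (fun ω => u' ω j) (fun ω => (u₀ ω, (z₂ ω, y J F ω))) ≤ η * J := by
    intro j
    by_cases hj0 : j₀ ≤ (j : ℕ)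
    · have hj2 := j.2
      have hMj : MR j ≤ ∑ j ∈ range (K + 2), MR j :=
        Finset.single_le_sum (f := MR) (fun i _ => Nat.zero_le _) (Finset.mem_range.2 hj2)
      have hJj : JR j ≤ ∑ j ∈ range (K + 2), JR j :=
        Finset.single_le_sum (f := JR) (fun i _ => Nat.zero_le _) (Finset.mem_range.2 hj2)
      have e1 : (fun ω => u' ω j) = fun ω => ⌊(2 : ℝ) ^ (s j * J) *
          ojet F κ j (G (z' (slam F ⌊w * J⌋₊ ω))) ω⌋ := by
        funext ω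
        rw [hu']
        exact if_pos hj0
      have h2 := HPA j j.2 hj0 u₀ (fun ω => u' ω j) (Qu.mono (by omega) le_rfl hu₀)
        ⟨?_, V, z, z', G, (LbP.of hlb).mono (Finset.Subset.refl _) (by omega) le_rfl,
          fun ω _ => by rw [hu']; exact if_pos hj0⟩
      · rw [← hq'] at h2
        exact h2
      · show (cnt F.p (fun ω => u' ω j) A : ℝ) ≤ _
        rw [e1]
        refine (hcR j J (by omega) F _ _ _ A V z z' G hlb).trans
          (Real.exp_le_exp.2 (mul_le_mul_of_nonneg_right ?_ hJ0))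
        exact_mod_cast (by omega : MR j ≤ K₁)
    · refine ⟨Unit, fun _ => (), ⟨⟨fun _ => (), fun _ _ => rfl⟩, fun _ => (), fun _ _ => rfl⟩,
        le_trans (le_of_eq (CH_eq_zero h0 fun ω ω' _ _ _ => ?_)) hηJ⟩
      rw [hu']
      show (if j₀ ≤ (j : ℕ) then _ else (0 : ℤ)) = if j₀ ≤ (j : ℕ) then _ else (0 : ℤ)
      rw [if_neg hj0, if_neg hj0]
  choose V₂ z₂ hz₂ hC₂ using hz
  refine ⟨∀ j, V₂ j, fun ω j => z₂ j ω, Cl2.pi hz₂, fun σ hσ0 hσ => ?_⟩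
  rw [← hq']
  have hWJ : ⌊w * J⌋₊ ≤ J := floor_le (hwa.trans ha) J
  obtain ⟨Y, hY⟩ : ∃ Y : F.Ω → U₀ × ((∀ j, V₂ j) × γ J F), Y = fun ω =>
    (u₀ ω, ((fun j => z₂ j ω), y J F ω)) := ⟨_, rfl⟩
  rw [← hY]
  obtain ⟨φT, hφT⟩ := hyT J F
  have k1 : CH q' u' Y ≤ (K + 2) * η * J := by
    refine (CH_pis h0 _ _).trans ?_
    have h2 : ∀ j ∈ (univ : Finset (Fin (K + 2))), CH q' (fun ω => u' ω j) Y ≤ η * J := by
      intro j _
      refine le_trans (CH_mono_cond h0 fun ω ω' _ _ e => ?_) (hC₂ j)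
      rw [hY] at e
      simp only [Prod.mk.injEq] at e ⊢
      exact ⟨e.1, congrFun e.2.1 j, e.2.2⟩
    refine (Finset.sum_le_sum h2).trans (le_of_eq ?_)
    rw [Finset.sum_const, Finset.card_univ, Fintype.card_fin, nsmul_eq_mul]
    push_cast
    ring
  have k2 : CH q' (cod F ⌊w * J⌋₊ j₀ (K + 1) σ κ z' G) (fun ω => (u' ω, Y ω)) ≤ L' := by
    rw [hL']
    refine cod_few (w := w) (N := N) hw0 hWJ hσ0 hσ (fun v => ?_) hq'l
      (fun ω => (u' ω, Y ω)) j₀ (s := s) hs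
      fun ω ω' _ _ e => ⟨?_, fun j hj hj' => ?_⟩
    · exact Nat.succ_le_succ (hlb.deg v)
    · have e1 := (Prod.ext_iff.mp e).2
      rw [hY] at e1
      simp only [Prod.mk.injEq] at e1
      rw [hφT, hφT, e1.2.2]
    · have e2 := congrFun (Prod.ext_iff.mp e).1 ⟨j, by omega⟩
      rw [hu'] at e2
      simp only [if_pos hj] at e2
      exact e2
  have s1 := CH_le_add h0 (cod F ⌊w * J⌋₊ j₀ (K + 1) σ κ z' G) u' Y
  have e4 : δ * J = (K + 2) * η * J + (δ - (K + 2) * η) * J := by ring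
  rw [e4]
  linarith

/-- **The codes from the jets**, jointly. -/
theorem cod_Fj {m : ℕ} {S : PCl m} {C₀ : ℝ} (htm : TmC S C₀) {c : ℕ → Fin m} {r : ℕ}
    {w a P N e η δ rw : ℝ} (hw0 : 0 ≤ w) (hwa : w ≤ a) (ha : a ≤ 1) (he : 0 < e) (hrw : 0 ≤ rw)
    {U₀ : Type} {Qu : Qt m U₀} {α γ : ∀ J : ℕ, Fam m J → Type}
    {f : ∀ (J : ℕ) (F : Fam m J), F.Ω → α J F} {y : ∀ (J : ℕ) (F : Fam m J), F.Ω → γ J F}
    (hyT : ∀ (J : ℕ) (F : Fam m J), ∃ φ : γ J F → ℕ, ∀ ω, F.T ω = φ (y J F ω))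
    (K : ℕ) (hF : F1 S f (vg a) y Qu (qJets m c r (r + 1) (K + 1) (fun _ _ => w) (fun _ _ => P)
      (fun _ j => N - (j : ℕ) * w)) e η) (hη : η < δ) (K₀ : ℕ) :
    Bas S (fun J F A => ∀ u₀ : F.Ω → U₀, Qu.P K₀ e J F A u₀ →
      ∀ (V : Type) (z : PtT F → V) (z' : LnT F → V)
        (G : V → MvPolynomial (Option (Fin m)) ℝ), LbOK F ((range r).image c) (c r) K
          ⌊e * J⌋₊ J ⌊w * J⌋₊ ⌊(rw + e) * J⌋₊ ⌊(P - e) * J⌋₊ A z z' G →
        ∃ (V₁ : Type) (z₁ : F.Ω → V₁), Cl2 (f J F) (vg a J F) A z₁ ∧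
          ∀ σ : ℝ, 0 < σ → σ ≤ 2 ^ (N * J) →
          CH (Pool.Agent.H49.Ent.cond F.p A True)
            (cod F ⌊w * J⌋₊ 0 (K + 1) σ (c r) z' G)
            (fun ω => (u₀ ω, (z₁ ω, y J F ω))) ≤ δ * J) := by
  classical
  choose MR JR hcR using fun j : ℕ => cnt_jet m K j (N := N - (j : ℕ) * w) (w := w) hrw he
  obtain ⟨K₁, hK₁⟩ : ∃ K₁ : ℕ, K₁ = K₀ + K + ∑ j ∈ range (K + 2), MR j := ⟨_, rfl⟩
  obtain ⟨J₁, hJ₁⟩ : ∃ J₁ : ℕ, J₁ = ∑ j ∈ range (K + 2), JR j := ⟨_, rfl⟩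
  obtain ⟨L', hL'⟩ : ∃ L' : ℝ, L' = ((K + 1 + 1 : ℕ) : ℝ) *
    Real.log (2 * (2 ^ (2 * (K + 1) + 1) + 1) + 1) := ⟨_, rfl⟩
  have hδ0 : 0 < δ - η := by linarith
  obtain ⟨J₂, hJ₂⟩ := exists_nat_ge (L' / (δ - η))
  refine Bas.mono (max J₁ J₂) ((hF K₁).and (Pool.GRW.tmc_bas htm one_pos)) ?_
  rintro J hJ F A ⟨HPA, hA, -⟩ u₀ hu₀ V z z' G hlb
  have hJ1 : J₁ ≤ J := (le_max_left _ _).trans hJ
  have hJ2 : (J₂ : ℝ) ≤ J := by exact_mod_cast (le_max_right _ _).trans hJ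
  have hJ0 : (0 : ℝ) ≤ J := Nat.cast_nonneg J
  have f1 : L' ≤ (δ - η) * J := by
    have := hJ₂.trans hJ2
    rw [div_le_iff₀ hδ0] at this
    linarith
  obtain ⟨u', hu'⟩ : ∃ u' : F.Ω → ℕ → ℕ → ℤ, u' = fun ω (l j : ℕ) =>
    if r ≤ l ∧ l < r + 1 ∧ j ≤ K + 1 then ⌊(2 : ℝ) ^ ((N - (j : ℕ) * w) * J) *
      ojet F (c r) j (G (z' (slam F ⌊w * J⌋₊ ω))) ω⌋ else 0 := ⟨_, rfl⟩
  obtain ⟨q', hq'⟩ : ∃ q' : F.Ω → ℝ, q' = Pool.Agent.H49.Ent.cond F.p A True := ⟨_, rfl⟩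
  have hq'l : IsLaw q' := by
    rw [hq']
    exact isLaw_cond F.isLaw hA
  have h0 := hq'l.nonneg
  obtain ⟨V₁, z₁, hz₁, h1⟩ := HPA u₀ u' (Qu.mono (by omega) le_rfl hu₀) ⟨fun i x y j' hj' => by
      obtain rfl : i = r := by omega
      have e1 : (fun ω => u' ω i j') = fun ω => ⌊(2 : ℝ) ^ ((N - (j' : ℕ) * w) * J) *
          ojet F (c i) j' (G (z' (slam F ⌊w * J⌋₊ ω))) ω⌋ := by
        funext ω
        rw [hu']
        exact if_pos ⟨x, y, hj'⟩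
      have hMj : MR j' ≤ ∑ j ∈ range (K + 2), MR j :=
        Finset.single_le_sum (f := MR) (fun i _ => Nat.zero_le _) (Finset.mem_range.2 (by omega))
      have hJj : JR j' ≤ ∑ j ∈ range (K + 2), JR j :=
        Finset.single_le_sum (f := JR) (fun i _ => Nat.zero_le _) (Finset.mem_range.2 (by omega))
      refine ⟨?_, V, z, z', G, (LbP.of hlb).mono (Finset.Subset.refl _) (by omega) le_rfl,
        fun ω _ => by rw [hu']; exact if_pos ⟨x, y, hj'⟩⟩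
      show (cnt F.p (fun ω => u' ω i j') A : ℝ) ≤ _
      rw [e1]
      refine (hcR j' J (by omega) F _ _ _ A V z z' G hlb).trans
        (Real.exp_le_exp.2 (mul_le_mul_of_nonneg_right ?_ hJ0))
      exact_mod_cast (by omega : MR j' ≤ K₁), fun ω _ i j' hij => by
      show u' ω i j' = 0
      rw [hu']
      exact if_neg hij⟩
  refine ⟨V₁, z₁, hz₁, fun σ hσ0 hσ => ?_⟩
  rw [← hq'] at h1 ⊢
  have hWJ : ⌊w * J⌋₊ ≤ J := floor_le (hwa.trans ha) J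
  obtain ⟨Y, hY⟩ : ∃ Y : F.Ω → U₀ × (V₁ × γ J F), Y = fun ω =>
    (u₀ ω, (z₁ ω, y J F ω)) := ⟨_, rfl⟩
  rw [← hY] at h1 ⊢
  obtain ⟨φT, hφT⟩ := hyT J F
  have k2 : CH q' (cod F ⌊w * J⌋₊ 0 (K + 1) σ (c r) z' G) (fun ω => (u' ω, Y ω)) ≤ L' := by
    rw [hL']
    refine cod_few (w := w) (N := N) hw0 hWJ hσ0 hσ (fun v => ?_) hq'l
      (fun ω => (u' ω, Y ω)) 0 (s := fun j => N - (j : ℕ) * w) (fun _ _ _ => le_rfl)
      fun ω ω' _ _ e => ⟨?_, fun j hj hj' => ?_⟩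
    · exact Nat.succ_le_succ (hlb.deg v)
    · have e1 := (Prod.ext_iff.mp e).2
      rw [hY] at e1
      simp only [Prod.mk.injEq] at e1
      rw [hφT, hφT, e1.2.2]
    · have e2 := congrFun (congrFun (Prod.ext_iff.mp e).1 r) j
      rw [hu'] at e2
      simp only [if_pos (show r ≤ r ∧ r < r + 1 ∧ j ≤ K + 1 from ⟨le_rfl, Nat.lt_succ_self r, hj'⟩)]
        at e2
      exact e2
  have s1 := CH_le_add h0 (cod F ⌊w * J⌋₊ 0 (K + 1) σ (c r) z' G) u' Y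
  have e4 : δ * J = η * J + (δ - η) * J := by ring
  rw [e4]
  linarith

end Pool.AJW
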