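import Pool.Agent.H71.AVG.Rgh
import Pool.Agent.H71.AJW.Jetc

/-!
# The far digits and the codes of order `≥ 1` over labels of any precision

`d_cls_r`: `d_cls` for labels of the target of any precision `P₂ ≥ p r` and complexity `K' ≤ K`.
`far_jetA_r`, `far_ctx_r`: `far_jetA` for the far digits over labels of precision `≥ s l - φ`.
`JetA.rough`: the jets of the chain over labels of precision `≥ p l - φ`.
-/

set_option autoImplicit false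

namespace Pool.AJW

open Finset Real MvPolynomial
open Pool.Agent.H49.Ent Pool.Agent.H32.Dense Pool.STK Pool.KA Pool.KSAT Pool.K2S Pool.PB Pool.GEN
open Pool.S6C Pool.RCD Pool.LA91 Pool.OWN68 Pool.CHT
open Pool.GRD (LbP)
open Pool.UNJ (ceI Tub)
open Pool.AVG71 (cod cod_few)

/-- **The codes of order `≥ 1`** of the own path over labels of the window `w` of any precision
`P₂ ≥ p r` and complexity `K' ≤ K`. -/
theorem d_cls_r (K : ℕ) {h : ℝ} (hh : 0 < h) (hh1 : h ≤ 1) {ε : ℝ}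
    (hε : 0 < ε) : ∃ δ : ℝ, 0 < δ ∧ ∀ {m : ℕ} {S : PCl m} {C₀ : ℝ} (_ : TmC S C₀)
    {c : ℕ → Fin m} {r₀ r : ℕ} {v w lam q ρ g₀ : ℝ} {p s n lv rd : ℕ → ℝ}
    (_ : JetW S c r₀ r v w lam q ρ g₀ p s n lv rd K) (_ : (r + 1) * ρ ≤ δ * q)
    {U₀ : Type} {Qu : Qt m U₀} {α γ : ∀ J : ℕ, Fam m J → Type}
    {f : ∀ (J : ℕ) (F : Fam m J), F.Ω → α J F} {y : ∀ (J : ℕ) (F : Fam m J), F.Ω → γ J F}
    (_ : ∀ (J : ℕ) (F : Fam m J), ∃ φ : α J F → PtT F, ∀ ω, ptr F J ω = φ (f J F ω))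
    (_ : Kn ((range r₀).image c) (v + lam) lam y) {a e₁ : ℝ} (_ : w ≤ a) (_ : a ≤ 1)
    (_ : 0 < e₁) (_ : ∀ e : ℝ, 0 < e → e ≤ e₁ →
      FwL S f (vg a) y Qu c r₀ (r + 1) K v rd p (ctx c r₀ r K v lam n) e (δ * q))
    (_ : ∀ q' : ℝ, 0 ≤ q' → q' ≤ q → RawN S ((range r).image c) (c r) (p r) q' h (δ * q))
    (_ : ∀ e : ℝ, 0 < e → Bas S (fun J F A => ∃ (V : Type) (z : PtT F → V) (z' : LnT F → V)
      (g : V → ℕ → MvPolynomial (Option (Fin m)) ℝ), LbC F c r₀ (r + 1) K e v rd p A z z' g))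
    {N : ℝ} (_ : N ≤ p r + q + (w - v)),
    ∃ e₀ : ℝ, 0 < e₀ ∧ e₀ ≤ e₁ ∧ ∀ e : ℝ, 0 < e → e ≤ e₀ → ∀ (K₀ K' : ℕ) (P₂ rw : ℝ),
      K' ≤ K → p r ≤ P₂ → 0 ≤ rw →
      Bas S (fun J F A => ∀ u₀ : F.Ω → U₀, Qu.P K₀ e J F A u₀ →
        ∀ (V : Type) (z : PtT F → V) (z' : LnT F → V)
        (G : V → MvPolynomial (Option (Fin m)) ℝ), LbOK F ((range r).image c) (c r) K'
          ⌊e * J⌋₊ J ⌊w * J⌋₊ ⌊(rw + e) * J⌋₊ ⌊(P₂ - e) * J⌋₊ A z z' G →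
        ∃ (V₁ : Type) (z₁ : F.Ω → V₁), Cl2 (f J F) (vg a J F) A z₁ ∧
          ∀ σ : ℝ, 0 < σ → σ ≤ 2 ^ (N * J) →
          CH (Pool.Agent.H49.Ent.cond F.p A True)
            (cod F ⌊w * J⌋₊ 1 (K' + 1) σ (c r) z' G)
            (fun ω => (u₀ ω, (z₁ ω, y J F ω))) ≤ ε * q * J) := by
  classical
  obtain ⟨δ, hδ, H⟩ := jet_wc K hh hh1 (ε := ε / 2) (by positivity)
  refine ⟨δ, hδ, ?_⟩
  intro m S C₀ htm c r₀ r v w lam q ρ g₀ p s n lv rd HW hρδ U₀ Qu α γ f y hf hy a e₁ hwa ha he₁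
    hctx hraw hlb N hN
  have hq := HW.q0
  have hv0 := HW.v0
  have hvw := HW.vw
  have hw0 : 0 ≤ w := hv0.trans hvw
  have hyT : ∀ (J : ℕ) (F : Fam m J), ∃ φ : γ J F → ℕ, ∀ ω, F.T ω = φ (y J F ω) := by
    intro J F
    obtain ⟨φ, hφ⟩ := hy J F
    exact ⟨fun x => (φ x).1, fun ω => (congrArg Prod.fst (hφ ω)).symm⟩
  obtain ⟨e₀, he₀, he₀1, HP⟩ := H htm HW hρδ hf hy hwa ha he₁ hctx hraw
  refine ⟨e₀, he₀, he₀1, fun e he hle K₀ K' P₂ rw hK' hP₂ hrw => ?_⟩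
  -- the number of values of the jets
  choose MR JR hcR using fun j : ℕ => cnt_jet m K' (j + 1)
    (N := p r + q - ((j + 1 : ℕ) : ℝ) * v) (w := w) hrw he
  obtain ⟨K₁, hK₁⟩ : ∃ K₁ : ℕ, K₁ = K₀ + K + ∑ j ∈ range (K + 2), MR j := ⟨_, rfl⟩
  obtain ⟨J₁, hJ₁⟩ : ∃ J₁ : ℕ, J₁ = ∑ j ∈ range (K + 2), JR j := ⟨_, rfl⟩
  obtain ⟨L', hL'⟩ : ∃ L' : ℝ, L' = ((K' + 1 + 1 : ℕ) : ℝ) *
    Real.log (2 * (2 ^ (2 * (K' + 1) + 1) + 1) + 1) := ⟨_, rfl⟩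
  obtain ⟨J₂, hJ₂⟩ := exists_nat_ge (L' / (ε / 2 * q))
  refine Bas.mono (max J₁ J₂) (((HP e he hle).2 K₁ P₂ hP₂).and ((hlb e he).and
    (Pool.GRW.tmc_bas htm one_pos))) ?_
  rintro J hJ F A ⟨HPA, ⟨V', zz, zz', gg, hlbv⟩, hA, -⟩ u₀ hu₀ V z z' G hl
  have hJ1 : J₁ ≤ J := (le_max_left _ _).trans hJ
  have hJ2 : (J₂ : ℝ) ≤ J := by exact_mod_cast (le_max_right _ _).trans hJ
  have hJ0 : (0 : ℝ) ≤ J := Nat.cast_nonneg J
  have f1 : L' ≤ ε / 2 * q * J := by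
    have := hJ₂.trans hJ2
    rw [div_le_iff₀ (by positivity)] at this
    linarith
  obtain ⟨u', hu'⟩ : ∃ u' : F.Ω → Fin (K + 2) → ℤ, u' = fun ω (j : Fin (K + 2)) =>
    ⌊(2 : ℝ) ^ ((p r + q - (((j : ℕ) + 1 : ℕ) : ℝ) * v) * J) *
      ojet F (c r) ((j : ℕ) + 1) (G (z' (slam F ⌊w * J⌋₊ ω))) ω⌋ := ⟨_, rfl⟩
  obtain ⟨V₁, z₁, hz₁, h1⟩ := HPA V' zz zz' gg hlbv u₀
    (Qu.mono (by omega) le_rfl hu₀) u' (fun j => by
      have hj2 := j.2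
      have hMj : MR j ≤ ∑ j ∈ range (K + 2), MR j :=
        Finset.single_le_sum (f := MR) (fun i _ => Nat.zero_le _) (Finset.mem_range.2 hj2)
      have hJj : JR j ≤ ∑ j ∈ range (K + 2), JR j :=
        Finset.single_le_sum (f := JR) (fun i _ => Nat.zero_le _) (Finset.mem_range.2 hj2)
      refine ⟨?_, V, z, z', G, (LbP.of hl).mono (Finset.Subset.refl _) (by omega) le_rfl,
        fun ω _ => by rw [hu']⟩
      show (cnt F.p (fun ω => u' ω j) A : ℝ) ≤ _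
      rw [hu']
      refine (hcR j J (by omega) F _ _ _ A V z z' G hl).trans
        (Real.exp_le_exp.2 (mul_le_mul_of_nonneg_right ?_ hJ0))
      exact_mod_cast (by omega : MR j ≤ K₁))
  refine ⟨V₁, z₁, hz₁, fun σ hσ0 hσ => ?_⟩
  obtain ⟨q', hq'⟩ : ∃ q' : F.Ω → ℝ, q' = Pool.Agent.H49.Ent.cond F.p A True := ⟨_, rfl⟩
  have hq'l : IsLaw q' := by
    rw [hq']
    exact isLaw_cond F.isLaw hA
  have h0 := hq'l.nonneg
  rw [← hq'] at h1 ⊢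
  have hWJ : ⌊w * J⌋₊ ≤ J := floor_le (hwa.trans ha) J
  obtain ⟨Y, hY⟩ : ∃ Y : F.Ω → U₀ × (V₁ × γ J F), Y = fun ω =>
    (u₀ ω, (z₁ ω, y J F ω)) := ⟨_, rfl⟩
  rw [← hY] at h1 ⊢
  obtain ⟨φT, hφT⟩ := hyT J F
  have k1 : CH q' u' Y ≤ ε / 2 * q * J := by
    refine le_trans (CH_mono_left h0 fun ω ω' _ _ e => ?_) h1
    exact (Prod.ext_iff.mp (Prod.ext_iff.mp e).1).2
  have k2 : CH q' (cod F ⌊w * J⌋₊ 1 (K' + 1) σ (c r) z' G) (fun ω => (u' ω, Y ω)) ≤ L' := by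
    rw [hL']
    refine cod_few (w := w) (N := N) hw0 hWJ hσ0 hσ (fun v => ?_) hq'l
      (fun ω => (u' ω, Y ω)) 1 (s := fun j => p r + q - (j : ℕ) * v) (fun j hj _ => ?_)
      fun ω ω' _ _ e => ⟨?_, fun j hj hj' => ?_⟩
    · exact Nat.succ_le_succ (hl.deg v)
    · have h2 : (1 : ℝ) ≤ j := by exact_mod_cast hj
      have h3 : 1 * (w - v) ≤ j * (w - v) := mul_le_mul_of_nonneg_right h2 (by linarith)
      show N - j * w ≤ p r + q - j * v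
      linarith
    · have e1 := (Prod.ext_iff.mp e).2
      rw [hY] at e1
      simp only [Prod.mk.injEq] at e1
      rw [hφT, hφT, e1.2.2]
    · have e2 := congrFun (Prod.ext_iff.mp e).1 ⟨j - 1, by omega⟩
      rw [hu'] at e2
      have e3 : j - 1 + 1 = j := by omega
      dsimp only at e2
      rw [e3] at e2
      exact e2
  have s1 := CH_le_add h0 (cod F ⌊w * J⌋₊ 1 (K' + 1) σ (c r) z' G) u' Y
  have e4 : ε * q * J = ε / 2 * q * J + ε / 2 * q * J := by ring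
  rw [e4]
  linarith

section

variable {m : ℕ} {S : PCl m} {C₀ : ℝ} {α γ : ∀ J : ℕ, Fam m J → Type}
  {f : ∀ (J : ℕ) (F : Fam m J), F.Ω → α J F} {y : ∀ (J : ℕ) (F : Fam m J), F.Ω → γ J F}
  {c : ℕ → Fin m} {r₀ r : ℕ} {v₀ v w lam σ φ : ℝ} {P₀ p s n lv lw : ℕ → ℝ} {Nf : ℕ → ℕ → ℝ}

/-- **All jets of the chain over `v`** from the far digits over labels of windows `≤ w`, of
precision `≥ s l - φ`. -/
theorem far_jetA_r (htm : TmC S C₀) (H : FarW S c r₀ r v₀ v w lam σ P₀ p s n lv lw Nf)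
    (hφ0 : 0 ≤ φ) (hφ : φ < σ) {wq pq : ℕ → ℕ → ℝ}
    (hwq : ∀ l, r₀ ≤ l → l < r → ∀ j ≤ 1, wq l j ≤ w)
    (hpq : ∀ l, r₀ ≤ l → l < r → ∀ j ≤ 1, s l - φ ≤ pq l j) {a : ℝ}
    (hwa : w ≤ a) (ha : a ≤ 1)
    (hf : ∀ (J : ℕ) (F : Fam m J), ∃ φ : α J F → PtT F, ∀ ω, ptr F J ω = φ (f J F ω))
    (hy : Kn ((range r₀).image c) (v + lam) lam y) :
    JetA S f (vg a) y (qJets m c r₀ r 1 wq pq Nf) c r₀ r v p n ((σ - φ) / 8) := by
  obtain ⟨u₁, rw, hcw, hrw⟩ := H.cw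
  obtain ⟨u₁', rd, hcv, hrd⟩ := H.cv
  have hσ := H.σ0
  have hvw := H.vw
  have hwl := H.wl
  have hlam : 0 < lam := by linarith
  have hmin : min lam (v + lam - w) = v + lam - w := min_eq_right (by linarith)
  have m1 : ∀ i, r₀ ≤ i → i < r → ∀ j ≤ 1, s i - φ ≤ min (pq i j) (s i) := fun i x y j hj =>
    le_min (hpq i x y j hj) (by linarith)
  have m2 : ∀ i, r₀ ≤ i → i < r → ∀ j ≤ 1, min (s i) (p i) - φ ≤ min (pq i j) (p i) :=
    fun i x y j hj => by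
      refine le_min ?_ ?_
      · linarith [hpq i x y j hj, min_le_left (s i) (p i)]
      · linarith [min_le_right (s i) (p i)]
  have hones : ∀ η : ℝ, 0 < η → ∀ l, r₀ ≤ l → l < r → ∀ j ≤ 1, F1 S f (vg a) y
      (qJets m c r₀ r 1 wq pq Nf)
      (qJet m ((range l).image c) (c l) j v (p l) (n l - (j : ℕ) * v)) ((σ - φ) / 8) η := by
    intro η hη l hl0 hl j hj
    have hj1 : (j : ℝ) ≤ 1 := by exact_mod_cast hj
    have hjw : (j : ℝ) * (w - v) ≤ 1 * (w - v) := mul_le_mul_of_nonneg_right hj1 (by linarith)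
    have key := F1.up hwa ha (jetN_F1 (y := y) (f := f) htm (hcw.take hl0 hl.le) (k := c l)
      (j := j) (lv := lw) (p₀ := v + lam) (lam := lam) (σ₀ := σ - φ) (w₁ := wq l j) (w₂ := v)
      (p₁ := pq l j) (p₂ := p l) (N₁ := Nf l j) (N₂ := n l - (j : ℕ) * v)
      (wv := wq) (pv := pq) (Nv := Nf)
      (fun i x y j' hj' => hwq i x (by omega) j' (by omega)) (hwq l hl0 hl j hj) hvw hwl H.l1
      hlam (by linarith)
      (fun i x y => H.w0 i x (by omega))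
      (fun i x y j' hj' => by linarith [H.w1 i x (by omega) j' (by omega)])
      (fun i x y j' hj' => by
        rw [hmin]
        linarith [H.w2 i x (by omega), m1 i x (by omega) j' (by omega)])
      (fun i x y j' hj' l' x' y' => by
        linarith [H.w3 i x (by omega) l' x' y', m1 i x (by omega) j' (by omega)])
      (H.w4 l hl0 hl j hj)
      (by
        rw [hmin]
        linarith [H.w5 l hl0 hl, m2 l hl0 hl j hj])
      (fun l' x y => by linarith [H.w6 l hl0 hl l' x y, m2 l hl0 hl j hj]) hf hy hη)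
    refine F1.pull htm (Q₁ := (qJets m c r₀ l j wq pq Nf).prod
        (qJet m ((range l).image c) (c l) j (wq l j) (pq l j) (Nf l j)))
      (fun u => ((fun i' j' => if i' < l ∧ j' ≤ j then u i' j' else 0), u l j)) ?_ key
    intro K e J F A u hu
    refine ⟨⟨fun i' a b' j' c' => ?_, fun ω hω i' j' h' => ?_⟩, ?_⟩
    · have e1 := hu.1 i' a (b'.trans hl) j' (c'.trans hj)
      show (qJet m _ _ _ _ _ _).P K e J F A (fun ω => if i' < l ∧ j' ≤ j then u ω i' j' else 0)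
      simp only [if_pos (show i' < l ∧ j' ≤ j from ⟨b', c'⟩)]
      exact e1
    · show (if i' < l ∧ j' ≤ j then u ω i' j' else 0) = 0
      split_ifs with h3
      · exact hu.2 ω hω i' j' fun h4 => h' ⟨h4.1, h3.1, h3.2⟩
      · rfl
    · exact hu.1 l hl0 hl j hj
  have h5 := jetA_ones (Q := qJets m c r₀ r 1 wq pq Nf) (n := n)
    (f := f) (y := y) htm hcv hrd (hvw.trans hwa) ha H.v0 H.vv H.a0 hσ hlam H.l1
    H.lv0 H.h1 H.h2 H.h3 H.h4 hf hy (e₁ := (σ - φ) / 8) (by linarith) hones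
  rwa [min_eq_left (by linarith)] at h5

/-- **The context over `v`** from the far digits over labels of windows `≤ w`, of precision
`≥ s l - φ`. -/
theorem far_ctx_r (htm : TmC S C₀) (H : FarW S c r₀ r v₀ v w lam σ P₀ p s n lv lw Nf)
    (hφ0 : 0 ≤ φ) (hφ : φ < σ) {wq pq : ℕ → ℕ → ℝ}
    (hwq : ∀ l, r₀ ≤ l → l < r → ∀ j ≤ 1, wq l j ≤ w)
    (hpq : ∀ l, r₀ ≤ l → l < r → ∀ j ≤ 1, s l - φ ≤ pq l j) {a : ℝ}
    (hwa : w ≤ a) (ha : a ≤ 1)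
    (hf : ∀ (J : ℕ) (F : Fam m J), ∃ φ : α J F → PtT F, ∀ ω, ptr F J ω = φ (f J F ω))
    (hy : Kn ((range r₀).image c) (v + lam) lam y) {rd : ℕ → ℝ}
    (hrd : ∀ i, r₀ ≤ i → i < r → 0 ≤ rd i) {δ : ℝ} (hδ : 0 < δ) {K R : ℕ} (hR : r ≤ R) {e : ℝ}
    (he : 0 < e) (hle : e ≤ (σ - φ) / 8) :
    FwL S f (vg a) y (qJets m c r₀ r 1 wq pq Nf) c r₀ R K v rd p
      (ctx c r₀ r K v lam n) e δ := by
  have hwl := H.wl
  have hvw := H.vw
  exact (far_jetA_r htm H hφ0 hφ hwq hpq hwa ha hf hy).ctx htm (H.v0.trans H.vv) (hvw.trans hwa) ha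
    (by linarith) (by linarith) hrd hy hδ hR he hle

/-- **The jets of the chain over labels of precision `≥ p l - φ`.** -/
theorem JetA.rough {U : Type} {Q : Qt m U} {e a u₁ : ℝ} {pt rd : ℕ → ℝ} (htm : TmC S C₀)
    (h : JetA S f (vg a) y Q c r₀ r v p n e) (hch : Chn S c r₀ r v v u₁ p rd)
    (hrd : ∀ l, r₀ ≤ l → l < r → 0 ≤ rd l) (he : 0 < e)
    (hva : v ≤ a) (ha : a ≤ 1) (hlam : 0 < lam) (hl1 : v + lam ≤ 1) (hφ0 : 0 ≤ φ) (hφ : φ < σ)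
    (hpt : ∀ l, r₀ ≤ l → l < r → p l - φ ≤ pt l)
    (hlv : ∀ l, r₀ ≤ l → l < r → 0 < lv l)
    (h1 : ∀ l, r₀ ≤ l → l < r → p l + lv l + σ ≤ n l)
    (h4 : ∀ l, r₀ ≤ l → l < r → n l + σ ≤ p l + lam)
    (h5 : ∀ l, r₀ ≤ l → l < r → ∀ l', r₀ ≤ l' → l' < l → n l + σ ≤ p l + lv l')
    (hf : ∀ (J : ℕ) (F : Fam m J), ∃ φ : α J F → PtT F, ∀ ω, ptr F J ω = φ (f J F ω))
    (hy : Kn ((range r₀).image c) (v + lam) lam y) :
    JetA S f (vg a) y Q c r₀ r v pt n (min e ((σ - φ) / 8)) := by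
  intro η hη l x y' j
  have he' : 0 < min e ((σ - φ) / 8) := lt_min he (by linarith)
  have hex : Exs S (qJets m c r₀ r j (fun _ _ => v) (fun l _ => p l)
      (fun l j' => n l - (j' : ℕ) * v)) :=
    exs_qjets fun i' x y j' _ => exs_jet (hrd i' x y) (hch.att i' x y)
  have k1 := F1.qjets' (j := j) htm (half_pos hη)
    (fun η' hη' i' x y j' _ => (h η' hη' i' x y j').mono (min_le_left e ((σ - φ) / 8)) le_rfl)
  have k2 := (two_jets_r (pq := p) (pt := pt) htm hch hva ha hlam hl1 hφ0 hφ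
    (fun _ _ _ => by linarith) hpt hlv h1
    (fun l x y => by linarith [h1 l x y, h4 l x y])
    (fun l x y l' x' y' => by linarith [h1 l x y, h5 l x y l' x' y']) h4 h5 hf hy x y' (le_refl j)
    (half_pos hη)).mono (min_le_right e ((σ - φ) / 8)) le_rfl
  have k3 := F1.trans htm hex he' k1 k2
  rwa [add_halves] at k3

end

end Pool.AJW
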